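import Mathlib

open Polynomial Finset
open scoped ComplexOrder

set_option linter.unusedSectionVars false

namespace Pool.Agent.X166.EP

/-- The (unnormalised) bilinear form behind the finite free additive convolution. -/
noncomputable def B (k : ℕ) (f g : ℝ[X]) : ℝ[X] :=
  ∑ l ∈ range (k + 1), C ((derivative^[k - l] g).eval 0) * derivative^[l] f

lemma B_add_left (k : ℕ) (f f' g : ℝ[X]) : B k (f + f') g = B k f g + B k f' g := by
  simp only [B, ← Finset.sum_add_distrib]
  refine Finset.sum_congr rfl fun l _ => ?_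
  rw [iterate_map_add derivative, mul_add]

lemma B_smul_left (k : ℕ) (c : ℝ) (f g : ℝ[X]) : B k (c • f) g = c • B k f g := by
  simp only [B, Finset.smul_sum]
  refine Finset.sum_congr rfl fun l _ => ?_
  rw [iterate_derivative_smul, mul_smul_comm]

lemma B_add_right (k : ℕ) (f g g' : ℝ[X]) : B k f (g + g') = B k f g + B k f g' := by
  simp only [B, ← Finset.sum_add_distrib]
  refine Finset.sum_congr rfl fun l _ => ?_
  rw [iterate_map_add derivative, eval_add, C_add, add_mul]

lemma B_smul_right (k : ℕ) (c : ℝ) (f g : ℝ[X]) : B k f (c • g) = c • B k f g := by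
  simp only [B, Finset.smul_sum]
  refine Finset.sum_congr rfl fun l _ => ?_
  rw [iterate_derivative_smul, eval_smul, smul_eq_C_mul, smul_eq_mul, C_mul, mul_assoc]

noncomputable def Bl (k : ℕ) : ℝ[X] →ₗ[ℝ] ℝ[X] →ₗ[ℝ] ℝ[X] :=
  LinearMap.mk₂ ℝ (B k) (B_add_left k) (B_smul_left k) (B_add_right k) (B_smul_right k)

lemma B_eq (k : ℕ) (f g : ℝ[X]) : B k f g = Bl k f g := rfl

lemma B_sub_left (k : ℕ) (f f' g : ℝ[X]) : B k (f - f') g = B k f g - B k f' g := by
  simp only [B_eq, map_sub, LinearMap.sub_apply]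

lemma B_sub_right (k : ℕ) (f g g' : ℝ[X]) : B k f (g - g') = B k f g - B k f g' := by
  simp only [B_eq, map_sub]

lemma B_neg_left (k : ℕ) (f g : ℝ[X]) : B k (-f) g = - B k f g := by
  simp only [B_eq, map_neg, LinearMap.neg_apply]

lemma B_neg_right (k : ℕ) (f g : ℝ[X]) : B k f (-g) = - B k f g := by
  simp only [B_eq, map_neg]

lemma B_zero_left (k : ℕ) (g : ℝ[X]) : B k 0 g = 0 := by
  simp only [B_eq, map_zero, LinearMap.zero_apply]

lemma B_zero_right (k : ℕ) (g : ℝ[X]) : B k g 0 = 0 := by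
  simp only [B_eq, map_zero]

lemma B_C_left (k : ℕ) (c : ℝ) (f g : ℝ[X]) : B k (C c * f) g = C c * B k f g := by
  rw [← smul_eq_C_mul, B_smul_left, smul_eq_C_mul]

lemma B_C_right (k : ℕ) (c : ℝ) (f g : ℝ[X]) : B k f (C c * g) = C c * B k f g := by
  rw [← smul_eq_C_mul, B_smul_right, smul_eq_C_mul]

lemma B_sum_left {ι : Type*} (k : ℕ) (s : Finset ι) (f : ι → ℝ[X]) (g : ℝ[X]) :
    B k (∑ i ∈ s, f i) g = ∑ i ∈ s, B k (f i) g := by
  simp only [B_eq, map_sum, LinearMap.sum_apply]

lemma B_sum_right {ι : Type*} (k : ℕ) (s : Finset ι) (f : ℝ[X]) (g : ι → ℝ[X]) :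
    B k f (∑ i ∈ s, g i) = ∑ i ∈ s, B k f (g i) := by
  simp only [B_eq, map_sum]

/-- (R2) -/
lemma B_deriv (k : ℕ) (f g : ℝ[X]) : derivative (B k f g) = B k (derivative f) g := by
  simp only [B, derivative_sum]
  refine Finset.sum_congr rfl fun l _ => ?_
  rw [derivative_C_mul, ← Function.iterate_succ_apply' (⇑derivative) l f,
    ← Function.iterate_succ_apply (⇑derivative) l f]

lemma iter_zero {f : ℝ[X]} {k : ℕ} (h : f.natDegree < k) : derivative^[k] f = 0 :=
  iterate_derivative_eq_zero h

/-- (R1) -/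
lemma B_succ_right (k : ℕ) (f g : ℝ[X]) (hf : f.natDegree ≤ k) :
    B (k + 1) f g = B k f (derivative g) := by
  unfold B
  rw [Finset.sum_range_succ, iter_zero (Nat.lt_succ_of_le hf), mul_zero, add_zero]
  refine Finset.sum_congr rfl fun l hl => ?_
  have : k + 1 - l = (k - l) + 1 := by
    have := Finset.mem_range.1 hl
    omega
  rw [this, Function.iterate_succ_apply]

/-- (R5) -/
lemma B_succ_left (k : ℕ) (f g : ℝ[X]) (hg : g.natDegree ≤ k) :
    B (k + 1) f g = B k (derivative f) g := by
  unfold B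
  rw [Finset.sum_range_succ']
  simp only [Nat.sub_zero]
  rw [iter_zero (Nat.lt_succ_of_le hg), eval_zero, C_0, zero_mul, add_zero]
  refine Finset.sum_congr rfl fun l _ => ?_
  rw [Nat.add_sub_add_right, Function.iterate_succ_apply]

lemma eval_iter_X_mul (g : ℝ[X]) (m : ℕ) :
    (derivative^[m] (X * g)).eval 0 = m * (derivative^[m - 1] g).eval 0 := by
  rw [mul_comm, Polynomial.iterate_derivative_mul_X]
  simp

/-- (A4') -/
lemma B_X_mul (k : ℕ) (p g : ℝ[X]) :
    B (k + 1) p (X * g) =
      X * B k (derivative p) g - B k (X * derivative p - C ((k : ℝ) + 1) * p) g := by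
  have h1 : B (k + 1) p (X * g) = ∑ l ∈ range (k + 1),
      C (((k : ℝ) + 1 - l) * (derivative^[k - l] g).eval 0) * derivative^[l] p := by
    unfold B
    rw [Finset.sum_range_succ]
    simp only [Nat.sub_self, Function.iterate_zero, id_eq, eval_mul, eval_X, zero_mul, C_0,
      add_zero]
    refine Finset.sum_congr rfl fun l hl => ?_
    have hl' := Finset.mem_range.1 hl
    rw [eval_iter_X_mul]
    congr 3
    · rw [Nat.cast_sub (by omega)]; push_cast; ring
    · congr 2; omega
  rw [h1]
  unfold B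
  rw [Finset.mul_sum, ← Finset.sum_sub_distrib]
  refine Finset.sum_congr rfl fun l hl => ?_
  rw [← Function.iterate_succ_apply, iterate_derivative_sub, mul_comm X (derivative p),
    Polynomial.iterate_derivative_mul_X, iterate_derivative_C_mul]
  rcases Nat.eq_zero_or_pos l with rfl | hl0
  · simp
    ring
  · have : (derivative^[l - 1] (derivative p)) = derivative^[l] p := by
      rw [← Function.iterate_succ_apply (⇑derivative) (l - 1) p]
      congr 2
      omega
    rw [this]
    simp only [Function.iterate_succ_apply, nsmul_eq_mul, map_sub, map_mul, map_add, map_natCast,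
      map_one]
    ring

/-- (A4) -/
lemma B_X_sub_C_mul (k : ℕ) (p g : ℝ[X]) (a : ℝ) (hg : g.natDegree ≤ k) :
    B (k + 1) p ((X - C a) * g) =
      (X - C a) * B k (derivative p) g - B k (X * derivative p - C ((k : ℝ) + 1) * p) g := by
  rw [sub_mul, B_sub_right, B_X_mul, B_C_right, B_succ_left k p g hg]
  ring

lemma coeff_B (k : ℕ) (f g : ℝ[X]) (m : ℕ) :
    (m.factorial : ℝ) * (B k f g).coeff m =
      ∑ l ∈ range (k + 1), (((k - l).factorial : ℝ) * g.coeff (k - l)) *
        (((m + l).factorial : ℝ) * f.coeff (m + l)) := by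
  unfold B
  rw [finsetSum_coeff, Finset.mul_sum]
  refine Finset.sum_congr rfl fun l _ => ?_
  rw [coeff_C_mul, coeff_iterate_derivative, ← coeff_zero_eq_eval_zero, coeff_iterate_derivative]
  have h1 : ((m + l).descFactorial l : ℝ) * m.factorial = (m + l).factorial := by
    have := Nat.factorial_mul_descFactorial (Nat.le_add_left l m)
    rw [Nat.add_sub_cancel] at this
    rw [← this]; push_cast; ring
  simp only [zero_add, Nat.descFactorial_self, nsmul_eq_mul]
  rw [← h1]
  ring

/-- (R3) -/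
lemma B_comm (k : ℕ) (f g : ℝ[X]) (hf : f.natDegree ≤ k) (hg : g.natDegree ≤ k) :
    B k f g = B k g f := by
  ext m
  have hm : (m.factorial : ℝ) ≠ 0 := by positivity
  apply mul_left_cancel₀ hm
  rw [coeff_B, coeff_B]
  have key : ∀ f g : ℝ[X], f.natDegree ≤ k →
      ∑ l ∈ range (k + 1), (((k - l).factorial : ℝ) * g.coeff (k - l)) *
        (((m + l).factorial : ℝ) * f.coeff (m + l)) =
      ∑ l ∈ range (k + 1 - m), (((k - l).factorial : ℝ) * g.coeff (k - l)) *
        (((m + l).factorial : ℝ) * f.coeff (m + l)) := by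
    intro f g hf
    symm
    apply Finset.sum_subset
    · intro x hx
      rw [Finset.mem_range] at *
      omega
    · intro x hx hx'
      rw [Finset.mem_range] at *
      rw [coeff_eq_zero_of_natDegree_lt (p := f) (n := m + x) (by omega)]
      ring
  rw [key f g hf, key g f hg, ← Finset.sum_range_reflect]
  refine Finset.sum_congr rfl fun l hl => ?_
  have hl' := Finset.mem_range.1 hl
  have e1 : k - (k + 1 - m - 1 - l) = m + l := by omega
  have e2 : m + (k + 1 - m - 1 - l) = k - l := by omega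
  rw [e1, e2]
  ring

section pr

variable {ι : Type*} [DecidableEq ι]

/-- product of linear factors -/
noncomputable def pr (b : ι → ℝ) (s : Finset ι) : ℝ[X] := ∏ i ∈ s, (X - C (b i))

lemma pr_monic (b : ι → ℝ) (s : Finset ι) : (pr b s).Monic :=
  monic_prod_of_monic _ _ fun i _ => monic_X_sub_C (b i)

lemma natDegree_pr (b : ι → ℝ) (s : Finset ι) : (pr b s).natDegree = s.card := by
  unfold pr
  rw [natDegree_prod_of_monic _ _ fun i _ => monic_X_sub_C (b i)]
  simp

lemma pr_erase (b : ι → ℝ) {s : Finset ι} {l : ι} (hl : l ∈ s) :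
    pr b s = (X - C (b l)) * pr b (s.erase l) := by
  unfold pr
  exact (Finset.mul_prod_erase s (fun i => X - C (b i)) hl).symm

lemma derivative_pr (b : ι → ℝ) (s : Finset ι) :
    derivative (pr b s) = ∑ l ∈ s, pr b (s.erase l) := by
  unfold pr
  rw [Polynomial.derivative_prod_finset]
  refine Finset.sum_congr rfl fun l _ => ?_
  simp

lemma X_mul_derivative_pr (b : ι → ℝ) (s : Finset ι) :
    X * derivative (pr b s) - C (s.card : ℝ) * pr b s = ∑ l ∈ s, C (b l) * pr b (s.erase l) := by
  rw [derivative_pr, Finset.mul_sum]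
  have : C (s.card : ℝ) * pr b s = ∑ l ∈ s, pr b s := by
    rw [Finset.sum_const, nsmul_eq_mul]; simp
  rw [this, ← Finset.sum_sub_distrib]
  refine Finset.sum_congr rfl fun l hl => ?_
  rw [pr_erase b hl]
  ring

lemma pr_sub (b : ι → ℝ) {s : Finset ι} {l m : ι} (hl : l ∈ s) (hm : m ∈ s) :
    pr b (s.erase l) - pr b (s.erase m) = C (b l - b m) * pr b ((s.erase l).erase m) := by
  by_cases h : l = m
  · subst h; simp
  · rw [pr_erase b (s := s.erase l) (l := m) (Finset.mem_erase.2 ⟨fun h' => h h'.symm, hm⟩),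
      pr_erase b (s := s.erase m) (l := l) (Finset.mem_erase.2 ⟨h, hl⟩),
      Finset.erase_right_comm (a := m) (b := l)]
    rw [C_sub]
    ring

end pr

section cone

/-- rank one kernel -/
noncomputable def Sq (F : ℝ[X]) : ℂ → ℂ → ℂ := fun x y => aeval x F * aeval y F

/-- cone of sums of rank one kernels -/
noncomputable def Cone : AddSubmonoid (ℂ → ℂ → ℂ) := AddSubmonoid.closure (Set.range Sq)

lemma Sq_mem (F : ℝ[X]) : Sq F ∈ Cone := AddSubmonoid.subset_closure ⟨F, rfl⟩

lemma smul_mem {K : ℂ → ℂ → ℂ} (hK : K ∈ Cone) {c : ℝ} (hc : 0 ≤ c) :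
    (fun x y => (c : ℂ) * K x y) ∈ Cone := by
  unfold Cone at hK
  induction hK using AddSubmonoid.closure_induction with
  | mem x hx =>
    obtain ⟨F, rfl⟩ := hx
    have : (fun x y => (c : ℂ) * Sq F x y) = Sq (C (Real.sqrt c) * F) := by
      funext x y
      simp only [Sq, map_mul, aeval_C]
      have : (c : ℂ) = (Real.sqrt c : ℂ) * (Real.sqrt c : ℂ) := by
        rw [← Complex.ofReal_mul, Real.mul_self_sqrt hc]
      rw [this]
      simp only [Complex.coe_algebraMap]
      ring
    rw [this]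
    exact Sq_mem _
  | zero =>
    have : (fun x y => (c : ℂ) * (0 : ℂ → ℂ → ℂ) x y) = 0 := by
      funext x y; simp
    rw [this]; exact zero_mem _
  | add K L _ _ hK hL =>
    have : (fun x y => (c : ℂ) * (K + L) x y) =
        (fun x y => (c : ℂ) * K x y) + (fun x y => (c : ℂ) * L x y) := by
      funext x y; simp [mul_add]
    rw [this]; exact add_mem hK hL

/-- positivity of the kernels in the cone -/
lemma cone_nonneg {K : ℂ → ℂ → ℂ} (hK : K ∈ Cone) {κ : Type*} (s : Finset κ) (z w : κ → ℂ) :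
    0 ≤ ∑ a ∈ s, ∑ b ∈ s, w a * (starRingEnd ℂ) (w b) * K (z a) ((starRingEnd ℂ) (z b)) := by
  unfold Cone at hK
  induction hK using AddSubmonoid.closure_induction with
  | mem x hx =>
    obtain ⟨F, rfl⟩ := hx
    have h1 : ∀ x : ℂ, aeval ((starRingEnd ℂ) x) F = (starRingEnd ℂ) (aeval x F) := by
      intro x
      exact Polynomial.aeval_conj F x
    have : ∑ a ∈ s, ∑ b ∈ s, w a * (starRingEnd ℂ) (w b) * Sq F (z a) ((starRingEnd ℂ) (z b)) =
        (∑ a ∈ s, w a * aeval (z a) F) * (starRingEnd ℂ) (∑ a ∈ s, w a * aeval (z a) F) := by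
      rw [map_sum, Finset.sum_mul_sum]
      refine Finset.sum_congr rfl fun a _ => Finset.sum_congr rfl fun b _ => ?_
      simp only [Sq, h1, map_mul]
      ring
    rw [this, Complex.mul_conj]
    exact_mod_cast Complex.normSq_nonneg _
  | zero => simp
  | add K L _ _ hK hL =>
    have : ∑ a ∈ s, ∑ b ∈ s, w a * (starRingEnd ℂ) (w b) * (K + L) (z a) ((starRingEnd ℂ) (z b)) =
        (∑ a ∈ s, ∑ b ∈ s, w a * (starRingEnd ℂ) (w b) * K (z a) ((starRingEnd ℂ) (z b))) +
        ∑ a ∈ s, ∑ b ∈ s, w a * (starRingEnd ℂ) (w b) * L (z a) ((starRingEnd ℂ) (z b)) := by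
      rw [← Finset.sum_add_distrib]
      refine Finset.sum_congr rfl fun a _ => ?_
      rw [← Finset.sum_add_distrib]
      refine Finset.sum_congr rfl fun b _ => ?_
      simp [mul_add]
    rw [this]; exact add_nonneg hK hL

lemma cone_continuous {K : ℂ → ℂ → ℂ} (hK : K ∈ Cone) (x : ℂ) : Continuous (K x) := by
  unfold Cone at hK
  induction hK using AddSubmonoid.closure_induction with
  | mem x hx =>
    obtain ⟨F, rfl⟩ := hx
    unfold Sq
    exact continuous_const.mul (Polynomial.continuous_aeval F)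
  | zero => exact continuous_const
  | add K L _ _ hK hL => exact hK.add hL

end cone

end Pool.Agent.X166.EP
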