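import Pool.Agent.X166.EP.U

open Polynomial Finset

set_option linter.unusedSectionVars false

namespace Pool.Agent.X166.EP

/-- resultant of `f` and `f'` (up to sign the discriminant) as a function of the coefficients -/
noncomputable def Gd (d : ℕ) (f : ℝ[X]) : ℝ := resultant f (derivative f) d (d - 1)

lemma Gd_pr {d : ℕ} (c : Fin d → ℝ) :
    Gd d (pr c univ) = ∏ i, ∏ j ∈ univ.erase i, (c i - c j) := by
  unfold Gd
  have h1 : (pr c univ).natDegree = d := by rw [natDegree_pr]; simp
  have h2 : (derivative (pr c univ)).natDegree ≤ d - 1 := by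
    have := natDegree_derivative_le (pr c (univ : Finset (Fin d)))
    rwa [h1] at this
  have h3 := resultant_prod_left (univ : Finset (Fin d)) (fun i => (X - C (c i) : ℝ[X]))
    (derivative (pr c univ)) (d - 1) (by simp) h2
  have h4 : (∏ i, (X - C (c i) : ℝ[X])) = pr c univ := rfl
  rw [h4, h1] at h3
  rw [h3]
  refine Finset.prod_congr rfl fun i _ => ?_
  rw [natDegree_X_sub_C, resultant_X_sub_C_left _ _ _ h2, eval_derivative_pr]
  unfold pr
  rw [eval_prod]
  simp

/-- coefficientwise differentiability of a family of polynomials -/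
def PD (f : ℝ → ℝ[X]) (f' : ℝ[X]) (s : ℝ) : Prop :=
  ∀ k, HasDerivAt (fun t => (f t).coeff k) (f'.coeff k) s

lemma PD_const (f : ℝ[X]) (s : ℝ) : PD (fun _ => f) 0 s := by
  intro k
  simpa using hasDerivAt_const s (f.coeff k)

lemma PD_add {f g : ℝ → ℝ[X]} {f' g' : ℝ[X]} {s : ℝ} (hf : PD f f' s) (hg : PD g g' s) :
    PD (fun t => f t + g t) (f' + g') s := by
  intro k
  simp only [coeff_add]
  exact (hf k).fun_add (hg k)

lemma PD_sub {f g : ℝ → ℝ[X]} {f' g' : ℝ[X]} {s : ℝ} (hf : PD f f' s) (hg : PD g g' s) :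
    PD (fun t => f t - g t) (f' - g') s := by
  intro k
  simp only [coeff_sub]
  exact (hf k).fun_sub (hg k)

lemma PD_mul {f g : ℝ → ℝ[X]} {f' g' : ℝ[X]} {s : ℝ} (hf : PD f f' s) (hg : PD g g' s) :
    PD (fun t => f t * g t) (f' * g s + f s * g') s := by
  intro k
  have h1 : (fun t => (f t * g t).coeff k) =
      fun t => ∑ x ∈ antidiagonal k, (f t).coeff x.1 * (g t).coeff x.2 := by
    funext t; rw [coeff_mul]
  rw [h1, coeff_add, coeff_mul, coeff_mul, ← Finset.sum_add_distrib]
  exact HasDerivAt.fun_sum fun x _ => (hf x.1).mul (hg x.2)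

lemma PD_C {c : ℝ → ℝ} {c' s : ℝ} (h : HasDerivAt c c' s) :
    PD (fun t => C (c t)) (C c') s := by
  intro k
  simp only [coeff_C]
  split_ifs
  · exact h
  · exact hasDerivAt_const _ _

lemma PD_sum {κ : Type*} (S : Finset κ) {f : κ → ℝ → ℝ[X]} {f' : κ → ℝ[X]} {s : ℝ}
    (hf : ∀ i ∈ S, PD (f i) (f' i) s) : PD (fun t => ∑ i ∈ S, f i t) (∑ i ∈ S, f' i) s := by
  intro k
  simp only [finsetSum_coeff]
  exact HasDerivAt.fun_sum fun i hi => hf i hi k

lemma PD_pr {ι : Type*} [DecidableEq ι] (b u : ι → ℝ) (s : Finset ι) :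
    PD (fun t => pr (fun i => b i + t * u i) s) (- ∑ i ∈ s, C (u i) * pr b (s.erase i)) 0 := by
  induction s using Finset.induction_on with
  | empty =>
    simp only [pr, Finset.prod_empty, Finset.sum_empty, neg_zero]
    exact PD_const 1 0
  | insert i s hi ih =>
    have h1 : (fun t => pr (fun i => b i + t * u i) (insert i s)) =
        fun t : ℝ => (X - C (b i + t * u i)) * pr (fun i => b i + t * u i) s := by
      funext t
      unfold pr
      rw [Finset.prod_insert hi]
    rw [h1]
    have h2 : PD (fun t : ℝ => (X - C (b i + t * u i) : ℝ[X])) (0 - C (u i)) 0 := by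
      refine PD_sub (PD_const _ _) (PD_C ?_)
      have := ((hasDerivAt_id (0 : ℝ)).mul_const (u i)).const_add (b i)
      simpa using this
    have h3 := PD_mul h2 ih
    convert h3 using 1
    rw [Finset.sum_insert hi, Finset.erase_insert hi]
    have h4 : ∀ l ∈ s, C (u l) * pr b ((insert i s).erase l) =
        (X - C (b i)) * (C (u l) * pr b (s.erase l)) := by
      intro l hl
      have hne : i ≠ l := fun h => hi (h ▸ hl)
      rw [Finset.erase_insert_of_ne hne]
      unfold pr
      rw [Finset.prod_insert (fun h => hi (Finset.mem_of_mem_erase h))]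
      ring
    rw [Finset.sum_congr rfl h4, ← Finset.mul_sum]
    simp only [zero_mul, add_zero, zero_sub]
    ring

lemma PD_derivative {f : ℝ → ℝ[X]} {f' : ℝ[X]} {s : ℝ} (hf : PD f f' s) :
    PD (fun t => derivative (f t)) (derivative f') s := by
  intro k
  simp only [coeff_derivative]
  exact (hf (k + 1)).mul_const _

lemma det_differentiable (n : ℕ) :
    Differentiable ℝ (fun M : Fin n → Fin n → ℝ => Matrix.det (Matrix.of M)) := by
  have : (fun M : Fin n → Fin n → ℝ => Matrix.det (Matrix.of M)) =
      fun M => ∑ σ : Equiv.Perm (Fin n), ((Equiv.Perm.sign σ : ℤ) : ℝ) * ∏ i, M (σ i) i := by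
    funext M
    rw [Matrix.det_apply']
    simp
  rw [this]
  fun_prop

/-- The matrix entries for the resultant. -/
noncomputable def ent (d : ℕ) (f : ℝ[X]) : Fin (d + (d - 1)) → Fin (d + (d - 1)) → ℝ :=
  fun i j => sylvester f (derivative f) d (d - 1) i j

lemma Gd_eq (d : ℕ) (f : ℝ[X]) : Gd d f = Matrix.det (Matrix.of (ent d f)) := rfl

lemma ent_hasDerivAt (d : ℕ) {f : ℝ → ℝ[X]} {f' : ℝ[X]} {s : ℝ} (hf : PD f f' s) :
    HasDerivAt (fun t => ent d (f t)) (ent d f') s := by
  rw [hasDerivAt_pi]
  intro i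
  rw [hasDerivAt_pi]
  intro j
  unfold ent sylvester
  simp only [Matrix.of_apply]
  induction j using Fin.addCases with
  | left j =>
    simp only [Fin.addCases_left]
    split_ifs
    · exact PD_derivative hf _
    · exact hasDerivAt_const _ _
  | right j =>
    simp only [Fin.addCases_right]
    split_ifs
    · exact hf _
    · exact hasDerivAt_const _ _

/-- the derivative of `Gd` along a path only depends on the first order data -/
lemma Gd_hasDerivAt (d : ℕ) (p p' : ℝ[X]) : ∃ D : ℝ, ∀ (f : ℝ → ℝ[X]) (s : ℝ), f s = p →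
    PD f p' s → HasDerivAt (fun t => Gd d (f t)) D s := by
  refine ⟨fderiv ℝ (fun M : Fin (d + (d - 1)) → Fin (d + (d - 1)) → ℝ => Matrix.det (Matrix.of M))
    (ent d p) (ent d p'), ?_⟩
  intro f s hfs hf
  have h1 := ((det_differentiable (d + (d - 1))) (ent d (f s))).hasFDerivAt
  have h2 := h1.comp_hasDerivAt s (ent_hasDerivAt d hf)
  rw [hfs] at h2
  exact h2

lemma log_Gd_pr {d : ℕ} (c : Fin d → ℝ) (hc : Function.Injective c) :
    Real.log (Gd d (pr c univ)) = ∑ i, ∑ j ∈ univ.erase i, Real.log (c i - c j) := by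
  rw [Gd_pr, Real.log_prod]
  · refine Finset.sum_congr rfl fun i _ => ?_
    rw [Real.log_prod]
    intro j hj
    have := (Finset.mem_erase.1 hj).1
    intro h
    exact this (hc (by linarith))
  · intro i _
    rw [Finset.prod_ne_zero_iff]
    intro j hj
    have := (Finset.mem_erase.1 hj).1
    intro h
    exact this (hc (by linarith))

lemma Gd_pr_ne_zero {d : ℕ} (c : Fin d → ℝ) (hc : Function.Injective c) :
    Gd d (pr c univ) ≠ 0 := by
  rw [Gd_pr, Finset.prod_ne_zero_iff]
  intro i _
  rw [Finset.prod_ne_zero_iff]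
  intro j hj
  have := (Finset.mem_erase.1 hj).1
  intro h
  exact this (hc (by linarith))

/-- de Bruijn identity -/
theorem de_bruijn {d : ℕ} (c : Fin d → ℝ) (hc : Function.Injective c) (f : ℝ → ℝ[X]) (s : ℝ)
    (hfs : f s = pr c univ) (hf : PD f (- derivative (derivative (pr c univ))) s) :
    HasDerivAt (fun t => Real.log (Gd d (f t))) (4 * Phi c) s := by
  obtain ⟨D, hD⟩ := Gd_hasDerivAt d (pr c univ) (- derivative (derivative (pr c univ)))
  have h1 := hD f s hfs hf
  -- root path
  have h2 : PD (fun t => pr (fun i => c i + t * (2 * sc c i)) univ)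
      (- derivative (derivative (pr c univ))) 0 := by
    have := PD_pr c (fun i => 2 * sc c i) univ
    convert this using 2
    have e1 := score_sum c hc
    have e2 : ∑ i, C (2 * sc c i) * pr c (univ.erase i) =
        C 2 * ∑ i, C (sc c i) * pr c (univ.erase i) := by
      rw [Finset.mul_sum]
      refine Finset.sum_congr rfl fun i _ => ?_
      rw [C_mul, mul_assoc]
    rw [e2, e1, ← mul_assoc, ← C_mul]
    norm_num
  have h3 := hD (fun t => pr (fun i => c i + t * (2 * sc c i)) univ) 0 (by simp) h2
  have hne : Gd d (pr c univ) ≠ 0 := Gd_pr_ne_zero c hc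
  have h4 : HasDerivAt (fun t => Real.log (Gd d (pr (fun i => c i + t * (2 * sc c i)) univ)))
      (D / Gd d (pr c univ)) 0 := by
    have := h3.log (by simpa using hne)
    simpa using this
  have h5 : HasDerivAt (fun t => Real.log (Gd d (f t))) (D / Gd d (pr c univ)) s := by
    have := h1.log (by rw [hfs]; exact hne)
    rwa [hfs] at this
  -- the explicit derivative
  have h6 : HasDerivAt (fun t : ℝ => ∑ i, ∑ j ∈ univ.erase i,
      Real.log ((c i + t * (2 * sc c i)) - (c j + t * (2 * sc c j))))
      (∑ i, ∑ j ∈ univ.erase i, (2 * sc c i - 2 * sc c j) / (c i - c j)) 0 := by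
    refine HasDerivAt.fun_sum fun i _ => HasDerivAt.fun_sum fun j hj => ?_
    have hne : c i - c j ≠ 0 := by
      have := (Finset.mem_erase.1 hj).1
      intro h
      exact this (hc (by linarith))
    have e1 : HasDerivAt (fun t : ℝ => (c i + t * (2 * sc c i)) - (c j + t * (2 * sc c j)))
        (2 * sc c i - 2 * sc c j) 0 := by
      have a1 := ((hasDerivAt_id (0 : ℝ)).mul_const (2 * sc c i)).const_add (c i)
      have a2 := ((hasDerivAt_id (0 : ℝ)).mul_const (2 * sc c j)).const_add (c j)
      simpa using a1.fun_sub a2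
    have e2 := e1.log (by simpa using hne)
    simpa using e2
  -- eventually injective
  have h7 : ∀ᶠ t : ℝ in nhds 0, Gd d (pr (fun i => c i + t * (2 * sc c i)) univ) ≠ 0 := by
    have hcont := h3.continuousAt
    have := hcont.eventually_ne (by simpa using hne)
    exact this
  have h8 : (fun t : ℝ => Real.log (Gd d (pr (fun i => c i + t * (2 * sc c i)) univ))) =ᶠ[nhds 0]
      fun t => ∑ i, ∑ j ∈ univ.erase i,
      Real.log ((c i + t * (2 * sc c i)) - (c j + t * (2 * sc c j))) := by
    filter_upwards [h7] with t ht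
    refine log_Gd_pr _ ?_
    intro i j hij
    by_contra hne'
    apply ht
    rw [Gd_pr]
    refine Finset.prod_eq_zero (Finset.mem_univ i) ?_
    refine Finset.prod_eq_zero (Finset.mem_erase.2 ⟨fun h => hne' h.symm, Finset.mem_univ j⟩) ?_
    exact sub_eq_zero.2 hij
  have h9 := (h6.congr_of_eventuallyEq h8).unique h4
  rw [← h9] at h5
  convert h5 using 1
  have e3 : ∑ i, ∑ j ∈ univ.erase i, (2 * sc c i - 2 * sc c j) / (c i - c j) =
      ∑ i, ∑ j, (2 * sc c i - 2 * sc c j) * (c i - c j)⁻¹ := by
    refine Finset.sum_congr rfl fun i _ => ?_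
    simp only [div_eq_mul_inv]
    rw [Finset.sum_erase]
    simp
  rw [e3]
  simp only [sub_mul, Finset.sum_sub_distrib]
  have e4 : ∑ i, ∑ j, 2 * sc c i * (c i - c j)⁻¹ = 2 * Phi c := by
    unfold Phi
    rw [Finset.mul_sum]
    refine Finset.sum_congr rfl fun i _ => ?_
    rw [← Finset.mul_sum]
    show 2 * sc c i * sc c i = _
    ring
  have e5 : ∑ i, ∑ j, 2 * sc c j * (c i - c j)⁻¹ = - (2 * Phi c) := by
    rw [Finset.sum_comm]
    unfold Phi
    rw [Finset.mul_sum, ← Finset.sum_neg_distrib]
    refine Finset.sum_congr rfl fun j _ => ?_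
    rw [← Finset.mul_sum]
    have : ∑ i, (c i - c j)⁻¹ = - sc c j := by
      unfold sc
      rw [← Finset.sum_neg_distrib]
      refine Finset.sum_congr rfl fun i _ => ?_
      rw [← inv_neg, neg_sub]
    rw [this]
    ring
  rw [e4, e5]
  ring

/-- continuity of `Gd` -/
lemma Gd_tendsto {d : ℕ} {κ : Type*} {l : Filter κ} {f : κ → ℝ[X]} {p : ℝ[X]}
    (h : ∀ k, Filter.Tendsto (fun t => (f t).coeff k) l (nhds (p.coeff k))) :
    Filter.Tendsto (fun t => Gd d (f t)) l (nhds (Gd d p)) := by
  have h1 : Filter.Tendsto (fun t => ent d (f t)) l (nhds (ent d p)) := by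
    rw [tendsto_pi_nhds]
    intro i
    rw [tendsto_pi_nhds]
    intro j
    unfold ent sylvester
    simp only [Matrix.of_apply]
    induction j using Fin.addCases with
    | left j =>
      simp only [Fin.addCases_left]
      split_ifs
      · simp only [coeff_derivative]
        exact (h _).mul_const _
      · exact tendsto_const_nhds
    | right j =>
      simp only [Fin.addCases_right]
      split_ifs
      · exact h _
      · exact tendsto_const_nhds
  exact ((det_differentiable (d + (d - 1))).continuous.tendsto (ent d p)).comp h1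

end Pool.Agent.X166.EP
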