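import Mathlib

open Polynomial Finset

namespace Pool.Agent.X166.EP

/-- The monic polynomial of degree `d` with roots `lam 0, …, lam (d-1)`. -/
noncomputable def rootPoly {d : ℕ} (lam : Fin d → ℝ) : ℝ[X] := ∏ i, (X - C (lam i))

/-- The discriminant `∏_{i<j} (lam i - lam j)²` of `rootPoly lam`. -/
noncomputable def Dis {d : ℕ} (lam : Fin d → ℝ) : ℝ := ∏ i, ∏ j ∈ Ioi i, (lam i - lam j) ^ 2

/-- `signedCoeff d p j` is the number `a_j` in `p = ∑_j (-1)^j a_j x^(d-j)`. -/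
noncomputable def signedCoeff (d : ℕ) (p : ℝ[X]) (j : ℕ) : ℝ := (-1) ^ j * p.coeff (d - j)

/-- The finite free additive convolution of degree `d`:
`∑_i (-1)^i x^(d-i) ∑_{j+k=i} ((d-j)! (d-k)! / (d! (d-i)!)) a_j b_k`. -/
noncomputable def boxPlus (d : ℕ) (p q : ℝ[X]) : ℝ[X] :=
  ∑ i ∈ range (d + 1), C ((-1) ^ i * ∑ x ∈ antidiagonal i,
    (((d - x.1).factorial : ℝ) * (d - x.2).factorial / (d.factorial * (d - i).factorial)) *
      signedCoeff d p x.1 * signedCoeff d q x.2) * X ^ (d - i)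

/-- The operator `f ↦ -μ f' - (v / (2 (d-1))) f''`. -/
noncomputable def herGen (d : ℕ) (μ v : ℝ) (f : ℝ[X]) : ℝ[X] :=
  - (C μ * derivative f) - C (v / (2 * ((d : ℝ) - 1))) * derivative (derivative f)

/-- The generalized Hermite polynomial `exp(-μ D - (v / (2(d-1))) D²) x^d` (the terms of the
exponential series with index larger than `d` vanish on `x^d`). -/
noncomputable def hermiteGen (d : ℕ) (μ v : ℝ) : ℝ[X] :=
  ∑ j ∈ range (d + 1), C ((j.factorial : ℝ)⁻¹) * (herGen d μ v)^[j] (X ^ d)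

end Pool.Agent.X166.EP
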