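import Pool.Agent.X166.EP.H

open Polynomial Finset Filter

set_option linter.unusedSectionVars false

namespace Pool.Agent.X166.EP

lemma scaleRoots_pr {ι : Type*} [DecidableEq ι] (c : ι → ℝ) (s : Finset ι) (ε : ℝ) :
    (pr c s).scaleRoots ε = pr (fun i => ε * c i) s := by
  induction s using Finset.induction_on with
  | empty => simp [pr]
  | insert i s hi ih =>
    have h1 : ∀ c : ι → ℝ, pr c (insert i s) = (X - C (c i)) * pr c s := by
      intro c; unfold pr; rw [Finset.prod_insert hi]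
    rw [h1, h1, mul_scaleRoots_of_noZeroDivisors, ih, X_sub_C_scaleRoots, mul_comm (c i) ε]

lemma Gd_scale {d : ℕ} (c : Fin d → ℝ) (ε : ℝ) :
    Gd d (pr (fun i => ε * c i) univ) = ε ^ (d * (d - 1)) * Gd d (pr c univ) := by
  rw [Gd_pr, Gd_pr]
  have h1 : ∀ i ∈ (univ : Finset (Fin d)), ∏ j ∈ univ.erase i, (ε * c i - ε * c j) =
      ε ^ (d - 1) * ∏ j ∈ univ.erase i, (c i - c j) := by
    intro i _
    have : ∀ j ∈ (univ : Finset (Fin d)).erase i, (ε * c i - ε * c j) = ε * (c i - c j) := by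
      intro j _; ring
    rw [Finset.prod_congr rfl this, Finset.prod_mul_distrib, Finset.prod_const,
      Finset.card_erase_of_mem (Finset.mem_univ _), card_univ, Fintype.card_fin]
  rw [Finset.prod_congr rfl h1, Finset.prod_mul_distrib, Finset.prod_const, card_univ,
    Fintype.card_fin, ← pow_mul, mul_comm (d - 1) d]

lemma E_scale {d : ℕ} (f : ℝ[X]) (hf : f.natDegree = d) (hm : f.Monic) (τ ε : ℝ)
    (h : τ * ε ^ 2 = 1) : (E d τ f).scaleRoots ε = E d 1 (f.scaleRoots ε) := by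
  ext k
  rw [coeff_scaleRoots, (E_monic d τ hm).2, hf]
  unfold E
  rw [finsetSum_coeff, finsetSum_coeff, Finset.sum_mul]
  refine Finset.sum_congr rfl fun j _ => ?_
  rw [coeff_C_mul, coeff_C_mul, coeff_iterate_derivative, coeff_iterate_derivative,
    coeff_scaleRoots, hf]
  by_cases hk : k + 2 * j ≤ d
  · have e1 : d - k = (d - (k + 2 * j)) + 2 * j := by omega
    have e2 : (-τ) ^ j * (ε ^ 2) ^ j = (-1) ^ j := by
      rw [← mul_pow, neg_mul, h]
    rw [e1, pow_add ε, pow_mul ε 2 j]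
    simp only [nsmul_eq_mul]
    have : (-τ) ^ j / (j.factorial : ℝ) * (((k + 2 * j).descFactorial (2 * j) : ℝ) *
        f.coeff (k + 2 * j)) * (ε ^ (d - (k + 2 * j)) * (ε ^ 2) ^ j) =
        ((-τ) ^ j * (ε ^ 2) ^ j) / (j.factorial : ℝ) * (((k + 2 * j).descFactorial (2 * j) : ℝ) *
        (f.coeff (k + 2 * j) * ε ^ (d - (k + 2 * j)))) := by ring
    rw [this, e2]
  · rw [coeff_eq_zero_of_natDegree_lt (p := f) (n := k + 2 * j) (by omega)]
    simp

lemma E_tendsto {d : ℕ} {κ : Type*} {l : Filter κ} {f : κ → ℝ[X]} {p : ℝ[X]} (τ : ℝ)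
    (h : ∀ k, Tendsto (fun t => (f t).coeff k) l (nhds (p.coeff k))) (k : ℕ) :
    Tendsto (fun t => (E d τ (f t)).coeff k) l (nhds ((E d τ p).coeff k)) := by
  unfold E
  simp only [finsetSum_coeff, coeff_C_mul, coeff_iterate_derivative, nsmul_eq_mul]
  exact tendsto_finsetSum _ fun j _ => ((h _).const_mul _).const_mul _

theorem log_limit {d : ℕ} (b : Fin d → ℝ) (hb : Function.Injective b) :
    Tendsto (fun τ => Real.log (Gd d (E d τ (pr b univ))) -
      ((d * (d - 1) : ℕ) : ℝ) / 2 * Real.log τ) atTop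
      (nhds (Real.log (Gd d (E d 1 (X ^ d))))) := by
  have hd : (pr b univ).natDegree = d := by rw [natDegree_pr]; simp
  -- the scaled family
  have h1 : ∀ k, Tendsto (fun τ : ℝ => ((pr b univ).scaleRoots (Real.sqrt τ)⁻¹).coeff k) atTop
      (nhds ((X ^ d : ℝ[X]).coeff k)) := by
    intro k
    simp only [coeff_scaleRoots, hd, coeff_X_pow]
    have hs : Tendsto (fun τ : ℝ => (Real.sqrt τ)⁻¹) atTop (nhds 0) :=
      tendsto_inv_atTop_zero.comp Real.tendsto_sqrt_atTop
    rcases lt_trichotomy k d with hk | hk | hk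
    · rw [if_neg hk.ne]
      have := (hs.pow (d - k)).const_mul ((pr b univ).coeff k)
      rw [zero_pow (by omega), mul_zero] at this
      exact this
    · subst hk
      rw [if_pos rfl]
      have e : (pr b (univ : Finset (Fin k))).coeff k = 1 := by
        have := coeff_pr_top b (univ : Finset (Fin k))
        rwa [card_univ, Fintype.card_fin] at this
      simp only [e, Nat.sub_self, pow_zero, mul_one]
      exact tendsto_const_nhds
    · rw [if_neg hk.ne']
      rw [coeff_eq_zero_of_natDegree_lt (p := pr b univ) (n := k) (by omega)]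
      simp only [zero_mul]
      exact tendsto_const_nhds
  have h2 := Gd_tendsto (d := d) (E_tendsto (d := d) 1 h1)
  obtain ⟨c0, hc0, hc0e⟩ := E_hermite d 1 one_pos
  have hne : Gd d (E d 1 (X ^ d)) ≠ 0 := by rw [hc0e]; exact Gd_pr_ne_zero c0 hc0
  have h3 := h2.log hne
  refine h3.congr' ?_
  filter_upwards [eventually_gt_atTop 0] with τ hτ
  have hε : τ * ((Real.sqrt τ)⁻¹) ^ 2 = 1 := by
    rw [inv_pow, Real.sq_sqrt hτ.le, mul_inv_cancel₀ hτ.ne']
  rw [← E_scale (pr b univ) hd (pr_monic _ _) τ _ hε]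
  obtain ⟨c, hc, hce⟩ := E_flow b hb τ hτ.le
  rw [hce, scaleRoots_pr, Gd_scale, Real.log_mul, Real.log_pow, Real.log_inv, Real.log_sqrt hτ.le]
  · ring
  · have : (0 : ℝ) < (Real.sqrt τ)⁻¹ := by positivity
    positivity
  · exact Gd_pr_ne_zero c hc

section flow

variable {k : ℕ} (b a c : Fin (k + 2) → ℝ)

/-- `φ` -/
noncomputable def phi (θ τ : ℝ) : ℝ :=
  Real.log (Gd (k + 2) (E (k + 2) τ (pr c univ))) -
  θ * Real.log (Gd (k + 2) (E (k + 2) (θ * τ) (pr b univ))) -
  (1 - θ) * Real.log (Gd (k + 2) (E (k + 2) ((1 - θ) * τ) (pr a univ)))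

lemma L_deriv (hb : Function.Injective b) (θ τ : ℝ) (hθ : 0 ≤ θ) (hτ : 0 ≤ τ)
    (b' : Fin (k + 2) → ℝ) (hb' : Function.Injective b')
    (hbe : E (k + 2) (θ * τ) (pr b univ) = pr b' univ) :
    HasDerivAt (fun t => Real.log (Gd (k + 2) (E (k + 2) (θ * t) (pr b univ))))
      (θ * (4 * Phi b')) τ := by
  have hd : (pr b univ).natDegree ≤ k + 2 := by rw [natDegree_pr]; simp
  have h1 := de_bruijn b' hb' (fun t => E (k + 2) t (pr b univ)) (θ * τ) hbe
    (by rw [← hbe]; exact E_PD (k + 2) _ hd _)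
  have h2 : HasDerivAt (fun t : ℝ => θ * t) θ τ := by
    simpa using (hasDerivAt_id τ).const_mul θ
  have h3 := HasDerivAt.comp τ h1 h2
  rw [mul_comm θ (4 * Phi b')]
  exact h3

lemma phi_deriv (hb : Function.Injective b) (ha : Function.Injective a)
    (hc : Function.Injective c) (h : nc (k + 2) (pr b univ) (pr a univ) = pr c univ)
    (θ τ : ℝ) (hθ : 0 ≤ θ) (hθ' : θ ≤ 1) (hτ : 0 ≤ τ) :
    ∃ D ≤ 0, HasDerivAt (phi b a c θ) D τ := by
  obtain ⟨b', hb', hbe⟩ := E_flow b hb (θ * τ) (by positivity)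
  obtain ⟨a', ha', hae⟩ := E_flow a ha ((1 - θ) * τ) (mul_nonneg (by linarith) hτ)
  obtain ⟨c', hc', hce⟩ := E_flow c hc τ hτ
  have hdb : (pr b univ).natDegree ≤ k + 2 := by rw [natDegree_pr]; simp
  have hda : (pr a univ).natDegree ≤ k + 2 := by rw [natDegree_pr]; simp
  have hconv : nc (k + 2) (pr b' univ) (pr a' univ) = pr c' univ := by
    rw [← hbe, ← hae, ← hce, nc_E_E _ _ _ _ _ hdb hda, h]
    congr 1
    ring
  have h1 := L_deriv b hb θ τ hθ hτ b' hb' hbe
  have h2 := L_deriv a ha (1 - θ) τ (by linarith) hτ a' ha' hae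
  have h3 := L_deriv c hc 1 τ zero_le_one hτ c' hc' (by rw [one_mul]; exact hce)
  simp only [one_mul] at h3
  refine ⟨4 * Phi c' - θ * (θ * (4 * Phi b')) - (1 - θ) * ((1 - θ) * (4 * Phi a')), ?_,
    (h3.sub (h1.const_mul θ)).sub (h2.const_mul (1 - θ))⟩
  have h4 := stam_full k b' a' c' hb' ha' hc' hconv θ _ rfl
  have h5 : 0 ≤ θ ^ 2 * Phi b' + (1 - θ) ^ 2 * Phi a' - Phi c' := by
    refine le_trans ?_ h4
    refine add_nonneg (add_nonneg (Finset.sum_nonneg fun _ _ => sq_nonneg _)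
      (Finset.sum_nonneg fun _ _ => sq_nonneg _)) ?_
    exact Finset.sum_nonneg fun _ _ => Finset.sum_nonneg fun _ _ => Finset.sum_nonneg fun _ _ =>
        Finset.sum_nonneg fun _ _ => Finset.sum_nonneg fun _ _ => by positivity
  nlinarith [h5]

lemma phi_antitone (hb : Function.Injective b) (ha : Function.Injective a)
    (hc : Function.Injective c) (h : nc (k + 2) (pr b univ) (pr a univ) = pr c univ)
    (θ : ℝ) (hθ : 0 ≤ θ) (hθ' : θ ≤ 1) : AntitoneOn (phi b a c θ) (Set.Ici 0) := by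
  have hD := phi_deriv b a c hb ha hc h θ
  apply antitoneOn_of_deriv_nonpos (convex_Ici 0)
  · intro τ hτ
    obtain ⟨D, -, hD⟩ := hD τ hθ hθ' hτ
    exact hD.continuousAt.continuousWithinAt
  · intro τ hτ
    obtain ⟨D, -, hD⟩ := hD τ hθ hθ' (interior_subset hτ)
    exact hD.differentiableAt.differentiableWithinAt
  · intro τ hτ
    obtain ⟨D, hD0, hD⟩ := hD τ hθ hθ' (interior_subset hτ)
    rw [hD.deriv]
    exact hD0

lemma phi_limit (hb : Function.Injective b) (ha : Function.Injective a)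
    (hc : Function.Injective c) (θ : ℝ) (hθ : 0 < θ) (hθ' : θ < 1) :
    Tendsto (phi b a c θ) atTop (nhds (-(((k + 2) * (k + 2 - 1) : ℕ) : ℝ) / 2 *
      (θ * Real.log θ + (1 - θ) * Real.log (1 - θ)))) := by
  have hθ1 : 0 < 1 - θ := by linarith
  have h1 := log_limit c hc
  have h2 := (log_limit b hb).comp (tendsto_id.const_mul_atTop hθ)
  have h3 := (log_limit a ha).comp (tendsto_id.const_mul_atTop hθ1)
  have h4 := (h1.sub (h2.const_mul θ)).sub (h3.const_mul (1 - θ))
  set N := ((((k + 2) * (k + 2 - 1) : ℕ)) : ℝ) / 2 with hN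
  set ℓ := Real.log (Gd (k + 2) (E (k + 2) 1 (X ^ (k + 2)))) with hℓ
  have h5 := h4.sub_const (N * (θ * Real.log θ + (1 - θ) * Real.log (1 - θ)))
  have e1 : ℓ - θ * ℓ - (1 - θ) * ℓ - N * (θ * Real.log θ + (1 - θ) * Real.log (1 - θ)) =
      -(((k + 2) * (k + 2 - 1) : ℕ) : ℝ) / 2 *
      (θ * Real.log θ + (1 - θ) * Real.log (1 - θ)) := by
    rw [hN]; ring
  rw [e1] at h5
  refine h5.congr' ?_
  filter_upwards [eventually_gt_atTop 0] with τ hτ
  simp only [Function.comp_apply, id_eq, phi]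
  rw [Real.log_mul hθ.ne' hτ.ne', Real.log_mul hθ1.ne' hτ.ne']
  ring

/-- logarithmic form of the entropy power inequality -/
theorem epi_log (hb : Function.Injective b) (ha : Function.Injective a)
    (hc : Function.Injective c) (h : nc (k + 2) (pr b univ) (pr a univ) = pr c univ)
    (θ : ℝ) (hθ : 0 < θ) (hθ' : θ < 1) :
    θ * Real.log (Gd (k + 2) (pr b univ)) + (1 - θ) * Real.log (Gd (k + 2) (pr a univ)) -
      (((k + 2) * (k + 2 - 1) : ℕ) : ℝ) / 2 * (θ * Real.log θ + (1 - θ) * Real.log (1 - θ)) ≤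
    Real.log (Gd (k + 2) (pr c univ)) := by
  have h1 := phi_antitone b a c hb ha hc h θ hθ.le hθ'.le
  have h2 := phi_limit b a c hb ha hc θ hθ hθ'
  have h3 : -(((k + 2) * (k + 2 - 1) : ℕ) : ℝ) / 2 *
      (θ * Real.log θ + (1 - θ) * Real.log (1 - θ)) ≤ phi b a c θ 0 := by
    refine le_of_tendsto h2 ?_
    filter_upwards [eventually_ge_atTop 0] with τ hτ
    exact h1 (Set.mem_Ici.2 le_rfl) hτ hτ
  unfold phi at h3
  rw [mul_zero, mul_zero, E_zero, E_zero, E_zero] at h3
  linarith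

end flow

end Pool.Agent.X166.EP
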