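import Pool.Agent.X166.EP.F

open Polynomial Finset Filter

set_option linter.unusedSectionVars false

namespace Pool.Agent.X166.EP

/-- number of pairs -/
noncomputable def NN (d : ℕ) : ℝ := (((d * (d - 1) : ℕ)) : ℝ) / 2

lemma NN_eq (d : ℕ) : NN d = (d.choose 2 : ℝ) := by
  unfold NN
  rw [Nat.cast_choose_two]
  rcases Nat.eq_zero_or_pos d with rfl | h
  · simp
  · push_cast [Nat.cast_sub (show 1 ≤ d from h)]
    ring

/-- `D(p) = |Dis p|^{1/N}` -/
noncomputable def DD (d : ℕ) (f : ℝ[X]) : ℝ := |Gd d f| ^ (1 / NN d)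

lemma DD_pos {d : ℕ} (c : Fin d → ℝ) (hc : Function.Injective c) : 0 < DD d (pr c univ) := by
  unfold DD
  exact Real.rpow_pos_of_pos (abs_pos.2 (Gd_pr_ne_zero c hc)) _

lemma log_DD {d : ℕ} (c : Fin d → ℝ) (hc : Function.Injective c) :
    Real.log (DD d (pr c univ)) = (1 / NN d) * Real.log (Gd d (pr c univ)) := by
  unfold DD
  rw [Real.log_rpow (abs_pos.2 (Gd_pr_ne_zero c hc)), Real.log_abs]

lemma NN_pos (k : ℕ) : 0 < NN (k + 2) := by
  unfold NN
  have : 0 < (k + 2) * (k + 2 - 1) := Nat.mul_pos (by omega) (by omega)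
  have : (0 : ℝ) < (((k + 2) * (k + 2 - 1) : ℕ) : ℝ) := by exact_mod_cast this
  linarith

/-- exact relation between the linear and the logarithmic form at `θ = x/(x+y)` -/
lemma theta_identity (x y : ℝ) (hx : 0 < x) (hy : 0 < y) :
    (x / (x + y)) * Real.log x + (1 - x / (x + y)) * Real.log y -
      ((x / (x + y)) * Real.log (x / (x + y)) +
        (1 - x / (x + y)) * Real.log (1 - x / (x + y))) = Real.log (x + y) := by
  have hs : 0 < x + y := by positivity
  have e1 : 1 - x / (x + y) = y / (x + y) := by field_simp; ring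
  rw [e1, Real.log_div hx.ne' hs.ne', Real.log_div hy.ne' hs.ne']
  field_simp
  ring

lemma lin_aux (θ Lb La S N : ℝ) (hN : N ≠ 0) :
    θ * (1 / N * Lb) + (1 - θ) * (1 / N * La) - S = 1 / N * (θ * Lb + (1 - θ) * La - N * S) := by
  field_simp

theorem epi_simple {k : ℕ} (b a c : Fin (k + 2) → ℝ) (hb : Function.Injective b)
    (ha : Function.Injective a) (h : nc (k + 2) (pr b univ) (pr a univ) = pr c univ) :
    DD (k + 2) (pr b univ) + DD (k + 2) (pr a univ) ≤ DD (k + 2) (pr c univ) := by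
  have hc := conv_simple _ b a c hb h
  have hx := DD_pos b hb
  have hy := DD_pos a ha
  have hz := DD_pos c hc
  have hN := NN_pos k
  set x := DD (k + 2) (pr b univ) with hxd
  set y := DD (k + 2) (pr a univ) with hyd
  have hs : 0 < x + y := add_pos hx hy
  have hθ : 0 < x / (x + y) := div_pos hx hs
  have hθ' : x / (x + y) < 1 := by rw [div_lt_one hs]; linarith
  have h1 := epi_log b a c hb ha hc h (x / (x + y)) hθ hθ'
  have e1 : (((k + 2) * (k + 2 - 1) : ℕ) : ℝ) / 2 = NN (k + 2) := rfl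
  rw [e1] at h1
  have h2 := mul_le_mul_of_nonneg_left h1 (one_div_pos.2 hN).le
  have h3 : Real.log (x + y) ≤ Real.log (DD (k + 2) (pr c univ)) := by
    rw [← theta_identity x y hx hy, log_DD c hc, hxd, hyd, log_DD b hb, log_DD a ha, ← hxd, ← hyd]
    exact le_trans (le_of_eq (lin_aux _ _ _ _ _ hN.ne')) h2
  exact (Real.log_le_log_iff hs hz).1 h3

lemma B_tendsto {k : ℕ} {κ : Type*} {l : Filter κ} {f g : κ → ℝ[X]} {p q : ℝ[X]}
    (hf : ∀ k, Tendsto (fun t => (f t).coeff k) l (nhds (p.coeff k)))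
    (hg : ∀ k, Tendsto (fun t => (g t).coeff k) l (nhds (q.coeff k))) (m : ℕ) :
    Tendsto (fun t => (B k (f t) (g t)).coeff m) l (nhds ((B k p q).coeff m)) := by
  have hm : (m.factorial : ℝ) ≠ 0 := by positivity
  have h1 : ∀ f g : ℝ[X], (B k f g).coeff m = (m.factorial : ℝ)⁻¹ *
      ∑ l ∈ range (k + 1), (((k - l).factorial : ℝ) * g.coeff (k - l)) *
        (((m + l).factorial : ℝ) * f.coeff (m + l)) := by
    intro f g
    rw [← coeff_B, ← mul_assoc, inv_mul_cancel₀ hm, one_mul]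
  simp only [h1]
  exact (tendsto_finsetSum _ fun i _ => ((hg _).const_mul _).mul ((hf _).const_mul _)).const_mul _

lemma nc_tendsto {k : ℕ} {κ : Type*} {l : Filter κ} {f g : κ → ℝ[X]} {p q : ℝ[X]}
    (hf : ∀ k, Tendsto (fun t => (f t).coeff k) l (nhds (p.coeff k)))
    (hg : ∀ k, Tendsto (fun t => (g t).coeff k) l (nhds (q.coeff k))) (m : ℕ) :
    Tendsto (fun t => (nc k (f t) (g t)).coeff m) l (nhds ((nc k p q).coeff m)) := by
  unfold nc
  simp only [coeff_C_mul]
  exact (B_tendsto hf hg m).const_mul _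

lemma DD_tendsto {d : ℕ} {κ : Type*} {l : Filter κ} {f : κ → ℝ[X]} {p : ℝ[X]}
    (h : ∀ k, Tendsto (fun t => (f t).coeff k) l (nhds (p.coeff k))) (hN : 0 ≤ NN d) :
    Tendsto (fun t => DD d (f t)) l (nhds (DD d p)) := by
  unfold DD
  exact (Gd_tendsto h).abs.rpow_const (Or.inr (div_nonneg zero_le_one hN))

lemma eventually_injective {d : ℕ} (c : Fin d → ℝ) :
    ∀ᶠ ε : ℝ in nhdsWithin 0 (Set.Ioi 0), Function.Injective (fun i => c i + ε * ((i : ℕ) : ℝ)) := by
  have h1 : ∀ i j : Fin d, i ≠ j → ∀ᶠ ε : ℝ in nhdsWithin 0 (Set.Ioi 0),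
      c i + ε * ((i : ℕ) : ℝ) ≠ c j + ε * ((j : ℕ) : ℝ) := by
    intro i j hij
    by_cases h : c i = c j
    · filter_upwards [self_mem_nhdsWithin] with ε hε
      rw [h]
      intro h'
      have h2 : ε * ((i : ℕ) : ℝ) = ε * ((j : ℕ) : ℝ) := by linarith
      have h3 : ((i : ℕ) : ℝ) = ((j : ℕ) : ℝ) := mul_left_cancel₀ (ne_of_gt hε) h2
      exact hij (Fin.ext (by exact_mod_cast h3))
    · have hc : ContinuousAt (fun ε : ℝ => (c i + ε * ((i : ℕ) : ℝ)) - (c j + ε * ((j : ℕ) : ℝ))) 0 := by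
        fun_prop
      have h2 := hc.eventually_ne (y := 0) (by simpa using sub_ne_zero.2 h)
      filter_upwards [mem_nhdsWithin_of_mem_nhds h2] with ε hε
      exact sub_ne_zero.1 hε
  have h2 : ∀ᶠ ε : ℝ in nhdsWithin 0 (Set.Ioi 0), ∀ i j : Fin d, i ≠ j →
      c i + ε * ((i : ℕ) : ℝ) ≠ c j + ε * ((j : ℕ) : ℝ) := by
    rw [eventually_all]
    intro i
    rw [eventually_all]
    intro j
    by_cases hij : i = j
    · exact Eventually.of_forall fun _ h => absurd hij h
    · filter_upwards [h1 i j hij] with ε hε _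
      exact hε
  filter_upwards [h2] with ε hε
  intro i j hij
  by_contra hne
  exact hε i j hne hij

theorem epi_general {k : ℕ} (b a : Fin (k + 2) → ℝ) :
    DD (k + 2) (pr b univ) + DD (k + 2) (pr a univ) ≤
      DD (k + 2) (nc (k + 2) (pr b univ) (pr a univ)) := by
  have hco : ∀ (b : Fin (k + 2) → ℝ) (m : ℕ), Tendsto (fun ε : ℝ =>
      (pr (fun i => b i + ε * ((i : ℕ) : ℝ)) univ).coeff m) (nhdsWithin 0 (Set.Ioi 0))
      (nhds ((pr b univ).coeff m)) := by
    intro b m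
    have := (PD_pr b (fun i => ((i : ℕ) : ℝ)) univ m).continuousAt
    have h2 := this.tendsto.mono_left (nhdsWithin_le_nhds (s := Set.Ioi (0 : ℝ)))
    simpa using h2
  have hN := (NN_pos k).le
  refine le_of_tendsto_of_tendsto ((DD_tendsto (hco b) hN).add (DD_tendsto (hco a) hN))
    (DD_tendsto (nc_tendsto (hco b) (hco a)) hN) ?_
  filter_upwards [eventually_injective b, eventually_injective a] with ε hb ha
  obtain ⟨c, hc⟩ := exists_conv (k + 2) (fun i => b i + ε * ((i : ℕ) : ℝ))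
    (fun i => a i + ε * ((i : ℕ) : ℝ))
  rw [hc]
  exact epi_simple _ _ c hb ha hc

end Pool.Agent.X166.EP
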