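import Pool.Agent.X166.EP.D

open Polynomial Finset

set_option linter.unusedSectionVars false

namespace Pool.Agent.X166.EP

/-- heat operator `exp(-τ D²)` (truncated, exact on degree `≤ d`) -/
noncomputable def E (d : ℕ) (τ : ℝ) (f : ℝ[X]) : ℝ[X] :=
  ∑ j ∈ range (d + 1), C ((-τ) ^ j / j.factorial) * derivative^[2 * j] f

lemma iter_add (m n : ℕ) (f : ℝ[X]) :
    derivative^[m] (derivative^[n] f) = derivative^[m + n] f :=
  (Function.iterate_add_apply _ _ _ _).symm

lemma iter_comm_deriv (m : ℕ) (f : ℝ[X]) :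
    derivative (derivative^[m] f) = derivative^[m] (derivative f) := by
  rw [← Function.iterate_succ_apply' (⇑derivative) m f, ← Function.iterate_succ_apply]

lemma E_zero (d : ℕ) (f : ℝ[X]) : E d 0 f = f := by
  unfold E
  rw [Finset.sum_eq_single_of_mem 0 (by simp)]
  · simp
  · intro j _ hj
    simp [hj]

lemma E_derivative (d : ℕ) (τ : ℝ) (f : ℝ[X]) :
    E d τ (derivative f) = derivative (E d τ f) := by
  unfold E
  rw [derivative_sum]
  refine Finset.sum_congr rfl fun j _ => ?_
  rw [derivative_C_mul, iter_comm_deriv]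

lemma E_C_mul (d : ℕ) (τ c : ℝ) (f : ℝ[X]) : E d τ (C c * f) = C c * E d τ f := by
  unfold E
  rw [Finset.mul_sum]
  refine Finset.sum_congr rfl fun j _ => ?_
  rw [iterate_derivative_C_mul]
  ring

lemma E_PD (d : ℕ) (f : ℝ[X]) (hf : f.natDegree ≤ d) (s : ℝ) :
    PD (fun τ => E d τ f) (- derivative (derivative (E d s f))) s := by
  have h1 : ∀ j ∈ range (d + 1), PD (fun τ : ℝ => C ((-τ) ^ j / j.factorial) * derivative^[2 * j] f)
      (C (- (j * (-s) ^ (j - 1) / j.factorial)) * derivative^[2 * j] f) s := by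
    intro j _
    have h2 : HasDerivAt (fun τ : ℝ => (-τ) ^ j / j.factorial)
        (- (j * (-s) ^ (j - 1) / j.factorial)) s := by
      have h := (hasDerivAt_neg s).fun_pow j
      have h' := h.div_const (j.factorial : ℝ)
      have e : (j : ℝ) * (-s) ^ (j - 1) * -1 / j.factorial =
          - (j * (-s) ^ (j - 1) / j.factorial) := by ring
      rw [← e]
      exact h'
    have := PD_mul (PD_C h2) (PD_const (derivative^[2 * j] f) s)
    simpa using this
  have h3 := PD_sum (range (d + 1)) h1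
  suffices h4 : - derivative (derivative (E d s f)) =
      ∑ j ∈ range (d + 1), C (- (j * (-s) ^ (j - 1) / j.factorial)) * derivative^[2 * j] f by
    rw [h4]; exact h3
  rw [Finset.sum_range_succ']
  simp only [Nat.cast_zero, zero_mul, zero_div, neg_zero, C_0, add_zero]
  have e0 : ∀ (j : ℕ), derivative (derivative (C ((-s) ^ j / j.factorial) * derivative^[2 * j] f)) =
      C ((-s) ^ j / j.factorial) * derivative^[2 * (j + 1)] f := by
    intro j
    rw [derivative_C_mul, derivative_C_mul, ← Function.iterate_succ_apply' (⇑derivative),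
      ← Function.iterate_succ_apply' (⇑derivative)]
    rfl
  unfold E
  rw [derivative_sum, derivative_sum, Finset.sum_range_succ, e0 d,
    iter_zero (f := f) (k := 2 * (d + 1)) (by omega), mul_zero, add_zero, ← Finset.sum_neg_distrib]
  refine Finset.sum_congr rfl fun j _ => ?_
  rw [e0 j, ← neg_mul, ← C_neg]
  congr 2
  rw [Nat.factorial_succ]
  have : ((j : ℝ) + 1) ≠ 0 := by positivity
  push_cast
  field_simp

lemma natDegree_E_le (d : ℕ) (τ : ℝ) (f : ℝ[X]) : (E d τ f).natDegree ≤ f.natDegree := by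
  unfold E
  refine natDegree_sum_le_of_forall_le _ _ fun l _ => ?_
  refine (natDegree_C_mul_le _ _).trans ?_
  exact (natDegree_iterate_derivative _ _).trans (Nat.sub_le _ _)

lemma coeff_E_top (d : ℕ) (τ : ℝ) (f : ℝ[X]) {n : ℕ} (hf : f.natDegree ≤ n) :
    (E d τ f).coeff n = f.coeff n := by
  unfold E
  rw [finsetSum_coeff, Finset.sum_eq_single_of_mem 0 (by simp)]
  · simp
  · intro j _ hj
    rw [coeff_C_mul, coeff_iterate_derivative, coeff_eq_zero_of_natDegree_lt (by omega)]
    simp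

lemma E_monic (d : ℕ) (τ : ℝ) {f : ℝ[X]} (hf : f.Monic) :
    (E d τ f).Monic ∧ (E d τ f).natDegree = f.natDegree := by
  have h1 := coeff_E_top d τ f le_rfl
  have h2 : f.coeff f.natDegree = 1 := hf
  have h3 : (E d τ f).natDegree = f.natDegree := by
    refine le_antisymm (natDegree_E_le d τ f) (le_natDegree_of_ne_zero ?_)
    rw [h1, h2]; exact one_ne_zero
  refine ⟨?_, h3⟩
  unfold Monic leadingCoeff
  rw [h3, h1, h2]

lemma B_iter_left (k m : ℕ) (f g : ℝ[X]) :
    B k (derivative^[m] f) g = derivative^[m] (B k f g) := by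
  induction m with
  | zero => rfl
  | succ m ih =>
    rw [Function.iterate_succ_apply' (⇑derivative) m f,
      Function.iterate_succ_apply' (⇑derivative) m (B k f g), ← ih, B_deriv]

lemma B_E_left (d : ℕ) (τ : ℝ) (f g : ℝ[X]) : B d (E d τ f) g = E d τ (B d f g) := by
  unfold E
  rw [B_sum_left]
  refine Finset.sum_congr rfl fun j _ => ?_
  rw [B_C_left, B_iter_left]

lemma nc_E_left (d : ℕ) (τ : ℝ) (f g : ℝ[X]) : nc d (E d τ f) g = E d τ (nc d f g) := by
  unfold nc
  rw [B_E_left, E_C_mul]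

lemma nc_comm (d : ℕ) (f g : ℝ[X]) (hf : f.natDegree ≤ d) (hg : g.natDegree ≤ d) :
    nc d f g = nc d g f := by
  unfold nc
  rw [B_comm d f g hf hg]

lemma nc_X_pow (d : ℕ) (f : ℝ[X]) : nc d f (X ^ d) = f := by
  unfold nc B
  rw [Finset.sum_eq_single_of_mem 0 (by simp)]
  · simp only [Nat.sub_zero, Function.iterate_zero, id_eq]
    rw [← coeff_zero_eq_eval_zero, coeff_iterate_derivative, ← mul_assoc, ← C_mul]
    simp only [zero_add, Nat.descFactorial_self, coeff_X_pow_self, nsmul_eq_mul, mul_one]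
    rw [inv_mul_cancel₀ (by positivity), C_1, one_mul]
  · intro l hl hl0
    have hl' := Finset.mem_range.1 hl
    rw [← coeff_zero_eq_eval_zero, coeff_iterate_derivative, coeff_X_pow, if_neg (by omega)]
    simp

lemma E_eq_nc (d : ℕ) (τ : ℝ) (f : ℝ[X]) (hf : f.natDegree ≤ d) :
    E d τ f = nc d f (E d τ (X ^ d)) := by
  rw [nc_comm d f _ hf ((natDegree_E_le _ _ _).trans (by simp)), nc_E_left,
    nc_comm d _ f (by simp) hf, nc_X_pow]

lemma E_X_mul (d : ℕ) (τ : ℝ) (f : ℝ[X]) (hf : f.natDegree ≤ d) :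
    E d τ (X * f) = X * E d τ f - C (2 * τ) * derivative (E d τ f) := by
  unfold E
  have h1 : ∀ j ∈ range (d + 1), C ((-τ) ^ j / j.factorial) * derivative^[2 * j] (X * f) =
      X * (C ((-τ) ^ j / j.factorial) * derivative^[2 * j] f) +
      C (2 * j * (-τ) ^ j / j.factorial) * derivative^[2 * j - 1] f := by
    intro j _
    rw [mul_comm X f, Polynomial.iterate_derivative_mul_X]
    have : C (2 * (j : ℝ) * (-τ) ^ j / j.factorial) = C ((-τ) ^ j / j.factorial) * (2 * (j : ℝ[X])) := by
      have e : (2 * (j : ℝ[X])) = C (2 * (j : ℝ)) := by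
        rw [C_mul]
        simp only [map_natCast]
        rfl
      rw [e, ← C_mul]; congr 1; ring
    rw [this]
    simp only [nsmul_eq_mul]
    push_cast
    ring
  rw [Finset.sum_congr rfl h1, Finset.sum_add_distrib, ← Finset.mul_sum, sub_eq_add_neg]
  congr 1
  have h2 : derivative (∑ j ∈ range (d + 1), C ((-τ) ^ j / j.factorial) * derivative^[2 * j] f) =
      ∑ j ∈ range d, C ((-τ) ^ j / j.factorial) * derivative^[2 * j + 1] f := by
    rw [derivative_sum, Finset.sum_range_succ, derivative_C_mul,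
      ← Function.iterate_succ_apply' (⇑derivative) (2 * d) f, iter_zero (f := f) (by omega),
      mul_zero, add_zero]
    refine Finset.sum_congr rfl fun j _ => ?_
    rw [derivative_C_mul, ← Function.iterate_succ_apply' (⇑derivative) (2 * j) f]
  rw [h2, Finset.sum_range_succ']
  simp only [Nat.cast_zero, mul_zero, zero_mul, zero_div, C_0, add_zero]
  rw [Finset.mul_sum, ← Finset.sum_neg_distrib]
  refine Finset.sum_congr rfl fun j _ => ?_
  rw [← mul_assoc, ← C_mul, ← neg_mul, ← C_neg]
  have e1 : 2 * (j + 1) - 1 = 2 * j + 1 := by omega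
  rw [e1]
  congr 2
  rw [Nat.factorial_succ]
  have : ((j : ℝ) + 1) ≠ 0 := by positivity
  push_cast
  field_simp
  ring

/-- semigroup property -/
lemma E_E (d : ℕ) (x y : ℝ) (f : ℝ[X]) (hf : f.natDegree ≤ d) :
    E d x (E d y f) = E d (x + y) f := by
  have h1 : E d x (E d y f) = ∑ j ∈ range (d + 1), ∑ l ∈ range (d + 1),
      C ((-x) ^ j / j.factorial * ((-y) ^ l / l.factorial)) * derivative^[2 * (j + l)] f := by
    unfold E
    refine Finset.sum_congr rfl fun j _ => ?_
    rw [iterate_derivative_sum, Finset.mul_sum]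
    refine Finset.sum_congr rfl fun l _ => ?_
    rw [iterate_derivative_C_mul, iter_add, ← mul_assoc, ← C_mul, mul_add 2 j l]
  have h2 : ∑ j ∈ range (d + 1), ∑ l ∈ range (d + 1),
      C ((-x) ^ j / j.factorial * ((-y) ^ l / l.factorial)) * derivative^[2 * (j + l)] f =
      ∑ j ∈ range (d + 1), ∑ l ∈ range (d + 1 - j),
      C ((-x) ^ j / j.factorial * ((-y) ^ l / l.factorial)) * derivative^[2 * (j + l)] f := by
    refine Finset.sum_congr rfl fun j _ => ?_
    symm
    apply Finset.sum_subset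
    · intro l hl
      rw [Finset.mem_range] at *
      omega
    · intro l hl hl'
      rw [Finset.mem_range] at *
      rw [iter_zero (f := f) (by omega), mul_zero]
  rw [h1, h2, ← Finset.sum_range_diag_flip (d + 1) (fun j l =>
    C ((-x) ^ j / j.factorial * ((-y) ^ l / l.factorial)) * derivative^[2 * (j + l)] f)]
  unfold E
  refine Finset.sum_congr rfl fun n _ => ?_
  have h3 : ∀ j ∈ range (n + 1), C ((-x) ^ j / j.factorial * ((-y) ^ (n - j) / (n - j).factorial)) *
      derivative^[2 * (j + (n - j))] f =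
      C ((-x) ^ j / j.factorial * ((-y) ^ (n - j) / (n - j).factorial)) *
      derivative^[2 * n] f := by
    intro j hj
    have := Finset.mem_range.1 hj
    have e : j + (n - j) = n := by omega
    rw [e]
  rw [Finset.sum_congr rfl h3, ← Finset.sum_mul, ← map_sum]
  congr 2
  rw [neg_add, add_pow, Finset.sum_div]
  refine Finset.sum_congr rfl fun j hj => ?_
  have hj' : j ≤ n := Nat.lt_succ_iff.1 (Finset.mem_range.1 hj)
  rw [Nat.cast_choose ℝ hj']
  have : (n.factorial : ℝ) ≠ 0 := by positivity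
  field_simp

/-- The heat flow of a convolution. -/
lemma nc_E_E (d : ℕ) (x y : ℝ) (f g : ℝ[X]) (hf : f.natDegree ≤ d) (hg : g.natDegree ≤ d) :
    nc d (E d x f) (E d y g) = E d (x + y) (nc d f g) := by
  have hn : (nc d f g).natDegree ≤ d := by
    unfold nc
    exact (natDegree_C_mul_le _ _).trans ((natDegree_B_le _ _ _).trans hf)
  rw [nc_E_left, nc_comm d f _ hf ((natDegree_E_le _ _ _).trans hg), nc_E_left,
    nc_comm d g f hg hf, E_E d x y _ hn]

lemma X_pow_eq_pr (d : ℕ) : (X ^ d : ℝ[X]) = pr (fun _ : Fin d => (0 : ℝ)) univ := by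
  unfold pr
  simp

/-- `x f - 2τ f'` is real-rooted -/
lemma splits_step {k : ℕ} (b : Fin k → ℝ) (τ : ℝ) (hτ : 0 ≤ τ) :
    (X * pr b univ - C (2 * τ) * derivative (pr b univ)).Splits := by
  apply splits_of_real_roots
  intro z hz
  by_contra hne
  have hzb : ∀ i, z - (b i : ℂ) ≠ 0 := by
    intro i h
    have := congrArg Complex.im h
    simp at this
    exact hne this
  have h1 : aeval z (pr b univ) = ∏ i, (z - (b i : ℂ)) := by
    unfold pr
    rw [map_prod]
    simp
  have h1' : aeval z (pr b univ) ≠ 0 := by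
    rw [h1]; exact Finset.prod_ne_zero_iff.2 fun i _ => hzb i
  have h2 : aeval z (derivative (pr b univ)) = aeval z (pr b univ) * ∑ i, (z - (b i : ℂ))⁻¹ := by
    rw [derivative_pr, map_sum, Finset.mul_sum]
    refine Finset.sum_congr rfl fun i _ => ?_
    rw [pr_erase b (Finset.mem_univ i), map_mul]
    have : aeval z (X - C (b i)) = z - (b i : ℂ) := by simp
    rw [this]
    have := hzb i
    field_simp
  rw [map_sub, map_mul, map_mul, h2, aeval_X, aeval_C] at hz
  have h3 : aeval z (pr b univ) * (z - (2 * τ : ℝ) * ∑ i, (z - (b i : ℂ))⁻¹) = 0 := by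
    rw [← hz]
    simp only [Complex.coe_algebraMap]
    ring
  have h4 := (mul_eq_zero.1 h3).resolve_left h1'
  have h5 := congrArg Complex.im h4
  rw [Complex.sub_im, Complex.im_ofReal_mul, Complex.im_sum] at h5
  have h6 : ∀ i, ((z - (b i : ℂ))⁻¹).im = - z.im * (Complex.normSq (z - (b i : ℂ)))⁻¹ := by
    intro i
    rw [Complex.inv_im]
    simp
    ring
  simp only [h6] at h5
  rw [← Finset.mul_sum] at h5
  have h7 : 0 ≤ ∑ i, (Complex.normSq (z - (b i : ℂ)))⁻¹ :=
    Finset.sum_nonneg fun i _ => inv_nonneg.2 (Complex.normSq_nonneg _)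
  have h8 : z.im * (1 + 2 * τ * ∑ i, (Complex.normSq (z - (b i : ℂ)))⁻¹) = 0 := by
    simp at h5
    linarith
  have h9 : 0 < 1 + 2 * τ * ∑ i, (Complex.normSq (z - (b i : ℂ)))⁻¹ := by positivity
  rcases mul_eq_zero.1 h8 with h | h
  · exact hne h
  · exact h9.ne' h

lemma E_X_pow_splits (d : ℕ) (τ : ℝ) (hτ : 0 ≤ τ) (n : ℕ) (hn : n ≤ d + 1) :
    (E d τ (X ^ n)).Splits := by
  induction n with
  | zero =>
    apply Splits.of_natDegree_eq_zero
    have := natDegree_E_le d τ (X ^ 0)
    simpa using this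
  | succ n ih =>
    have ih' := ih (by omega)
    obtain ⟨h1, h2⟩ := E_monic d τ (monic_X_pow (R := ℝ) n)
    rw [natDegree_X_pow] at h2
    obtain ⟨b, hb⟩ := exists_pr ih' h1 h2
    have h3 : (X ^ (n + 1) : ℝ[X]) = X * X ^ n := by ring
    rw [h3, E_X_mul d τ _ (by rw [natDegree_X_pow]; omega), hb]
    exact splits_step b τ hτ

lemma E_X_pow_simple (d : ℕ) (τ : ℝ) (hτ : 0 < τ) (n : ℕ) (hn : n ≤ d + 1) (x : ℝ)
    (h0 : (E d τ (X ^ n)).eval x = 0) (h1 : (derivative (E d τ (X ^ n))).eval x = 0) : False := by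
  induction n with
  | zero =>
    have : E d τ (X ^ 0 : ℝ[X]) = 1 := by
      obtain ⟨h1, h2⟩ := E_monic d τ (monic_X_pow (R := ℝ) 0)
      rw [natDegree_X_pow] at h2
      exact h1.natDegree_eq_zero.1 h2
    rw [this] at h0
    simp at h0
  | succ n ih =>
    have h2 : derivative (E d τ (X ^ (n + 1))) = C ((n : ℝ) + 1) * E d τ (X ^ n) := by
      rw [← E_derivative, derivative_X_pow, Nat.add_sub_cancel]
      rw [E_C_mul]
      push_cast
      rfl
    rw [h2, eval_mul, eval_C] at h1
    have h3 : (E d τ (X ^ n)).eval x = 0 := by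
      have : ((n : ℝ) + 1) ≠ 0 := by positivity
      exact (mul_eq_zero.1 h1).resolve_left this
    have h4 : (X ^ (n + 1) : ℝ[X]) = X * X ^ n := by ring
    rw [h4, E_X_mul d τ _ (by rw [natDegree_X_pow]; omega), eval_sub, eval_mul, eval_mul, h3,
      eval_C] at h0
    refine ih (by omega) h3 ?_
    have : (2 * τ) ≠ 0 := by positivity
    have h5 : (2 * τ) * (derivative (E d τ (X ^ n))).eval x = 0 := by linarith
    exact (mul_eq_zero.1 h5).resolve_left this

/-- heat flow preserves simple real roots -/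
theorem E_flow {d : ℕ} (b : Fin d → ℝ) (hb : Function.Injective b) (τ : ℝ) (hτ : 0 ≤ τ) :
    ∃ c : Fin d → ℝ, Function.Injective c ∧ E d τ (pr b univ) = pr c univ := by
  have hd : (pr b univ).natDegree = d := by rw [natDegree_pr]; simp
  obtain ⟨h1, h2⟩ := E_monic d τ (monic_X_pow (R := ℝ) d)
  rw [natDegree_X_pow] at h2
  obtain ⟨a, ha⟩ := exists_pr (E_X_pow_splits d τ hτ d (by omega)) h1 h2
  obtain ⟨c, hc⟩ := exists_conv d b a
  refine ⟨c, conv_simple d b a c hb hc, ?_⟩
  rw [E_eq_nc d τ _ hd.le, ha, hc]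

/-- the Hermite polynomial has simple real roots -/
theorem E_hermite (d : ℕ) (τ : ℝ) (hτ : 0 < τ) :
    ∃ c : Fin d → ℝ, Function.Injective c ∧ E d τ (X ^ d) = pr c univ := by
  obtain ⟨h1, h2⟩ := E_monic d τ (monic_X_pow (R := ℝ) d)
  rw [natDegree_X_pow] at h2
  obtain ⟨c, hc⟩ := exists_pr (E_X_pow_splits d τ hτ.le d (by omega)) h1 h2
  refine ⟨c, ?_, hc⟩
  intro i j hij
  by_contra hne
  refine E_X_pow_simple d τ hτ d (by omega) (c i) ?_ ?_
  · rw [hc, eval_pr_self]
  · rw [hc, eval_derivative_pr, hij, eval_pr_erase_ne c hne]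

end Pool.Agent.X166.EP
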