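import Pool.Agent.X166.EP.A

open Polynomial Finset
open scoped ComplexOrder

set_option linter.unusedSectionVars false

namespace Pool.Agent.X166.EP

variable {ι : Type*} [DecidableEq ι]

lemma antisym_sum (t : Finset ι) (a : ι → ℂ) (W W' : ι → ℂ) :
    (∑ j ∈ t, a j * W j) * (∑ j ∈ t, W' j) - (∑ j ∈ t, W j) * (∑ j ∈ t, a j * W' j) =
      ∑ j ∈ t, ∑ j' ∈ t, (1 / 2) * (a j - a j') * (W j * W' j' - W j' * W' j) := by
  have h1 : (∑ j ∈ t, a j * W j) * (∑ j ∈ t, W' j) - (∑ j ∈ t, W j) * (∑ j ∈ t, a j * W' j) =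
      ∑ j ∈ t, ∑ j' ∈ t, (a j - a j') * (W j * W' j') := by
    rw [Finset.sum_mul_sum, Finset.sum_mul_sum, ← Finset.sum_sub_distrib]
    refine Finset.sum_congr rfl fun j _ => ?_
    rw [← Finset.sum_sub_distrib]
    refine Finset.sum_congr rfl fun j' _ => ?_
    ring
  have h2 : ∑ j ∈ t, ∑ j' ∈ t, (a j - a j') * (W j * W' j') =
      ∑ j ∈ t, ∑ j' ∈ t, (a j' - a j) * (W j' * W' j) := Finset.sum_comm
  have h3 : ∑ j ∈ t, ∑ j' ∈ t, (1 / 2) * (a j - a j') * (W j * W' j' - W j' * W' j) =
      (1 / 2) * (∑ j ∈ t, ∑ j' ∈ t, (a j - a j') * (W j * W' j')) +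
      (1 / 2) * ∑ j ∈ t, ∑ j' ∈ t, (a j' - a j) * (W j' * W' j) := by
    rw [Finset.mul_sum, Finset.mul_sum, ← Finset.sum_add_distrib]
    refine Finset.sum_congr rfl fun j _ => ?_
    rw [Finset.mul_sum, Finset.mul_sum, ← Finset.sum_add_distrib]
    refine Finset.sum_congr rfl fun j' _ => ?_
    ring
  rw [h1, h3, ← h2]
  ring

/-- The kernel numerator `Z`. -/
noncomputable def Z (k : ℕ) (f g : ℝ[X]) (x y : ℂ) : ℂ :=
  aeval x (B k f (X * derivative g - C ((k : ℝ) + 1) * g)) * aeval y (B k f (derivative g)) -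
  aeval x (B k f (derivative g)) * aeval y (B k f (X * derivative g - C ((k : ℝ) + 1) * g))

/-- one step of the kernel recursion -/
lemma Z_step (k : ℕ) (b a : ι → ℝ) (s t : Finset ι) (hs : s.card = k + 1) (ht : t.card = k + 2)
    (x y : ℂ) :
    Z (k + 1) (pr b s) (pr a t) x y = ∑ j ∈ t, ∑ j' ∈ t, (1 / 2) * ((a j : ℂ) - a j') ^ 2 *
      ((y - x) * Sq (B k (pr a ((t.erase j).erase j')) (derivative (pr b s))) x y +
        Z k (pr a ((t.erase j).erase j')) (pr b s) x y) := by
  have hV : B (k + 1) (pr b s) (X * derivative (pr a t) - C (((k + 1 : ℕ) : ℝ) + 1) * pr a t) =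
      ∑ j ∈ t, C (a j) * B (k + 1) (pr b s) (pr a (t.erase j)) := by
    have := X_mul_derivative_pr a t
    rw [ht] at this
    have h2 : (((k + 2 : ℕ) : ℝ)) = ((k + 1 : ℕ) : ℝ) + 1 := by push_cast; ring
    rw [h2] at this
    rw [this, B_sum_right]
    refine Finset.sum_congr rfl fun j _ => ?_
    rw [B_C_right]
  have hU : B (k + 1) (pr b s) (derivative (pr a t)) =
      ∑ j ∈ t, B (k + 1) (pr b s) (pr a (t.erase j)) := by
    rw [derivative_pr, B_sum_right]
  unfold Z
  rw [hV, hU]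
  simp only [map_sum, map_mul, aeval_C]
  have := antisym_sum t (fun j => (a j : ℂ))
    (fun j => aeval x (B (k + 1) (pr b s) (pr a (t.erase j))))
    (fun j => aeval y (B (k + 1) (pr b s) (pr a (t.erase j))))
  simp only [Complex.coe_algebraMap]
  rw [this]
  refine Finset.sum_congr rfl fun j hj => Finset.sum_congr rfl fun j' hj' => ?_
  by_cases hjj : j = j'
  · subst hjj; simp
  have hj'e : j' ∈ t.erase j := Finset.mem_erase.2 ⟨fun h => hjj h.symm, hj'⟩
  have hje : j ∈ t.erase j' := Finset.mem_erase.2 ⟨hjj, hj⟩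
  set h := pr a ((t.erase j).erase j') with hh
  have hcard : ((t.erase j).erase j').card = k := by
    rw [Finset.card_erase_of_mem hj'e, Finset.card_erase_of_mem hj, ht]; rfl
  have hdeg : h.natDegree ≤ k := by rw [hh, natDegree_pr, hcard]
  have hsdeg : (pr b s).natDegree = k + 1 := by rw [natDegree_pr, hs]
  have hs'deg : (derivative (pr b s)).natDegree ≤ k := by
    have := natDegree_derivative_le (pr b s)
    omega
  have hVdeg : (X * derivative (pr b s) - C ((k : ℝ) + 1) * pr b s).natDegree ≤ k := by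
    have := X_mul_derivative_pr b s
    rw [hs] at this
    push_cast at this
    rw [C_add, C_1] at *
    rw [this]
    refine (natDegree_sum_le_of_forall_le (n := k) _ _ fun l hl => ?_)
    refine (natDegree_C_mul_le _ _).trans ?_
    rw [natDegree_pr, Finset.card_erase_of_mem hl, hs]
    rfl
  -- W_j' = (X - a_j) U' - V'
  have hWj' : B (k + 1) (pr b s) (pr a (t.erase j')) =
      (X - C (a j)) * B k h (derivative (pr b s)) -
        B k h (X * derivative (pr b s) - C ((k : ℝ) + 1) * pr b s) := by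
    rw [pr_erase a hje, Finset.erase_right_comm (a := j') (b := j),
      B_X_sub_C_mul k _ _ _ hdeg, B_comm k h _ hdeg hs'deg, B_comm k h _ hdeg hVdeg]
  have hWj : B (k + 1) (pr b s) (pr a (t.erase j)) =
      (X - C (a j')) * B k h (derivative (pr b s)) -
        B k h (X * derivative (pr b s) - C ((k : ℝ) + 1) * pr b s) := by
    rw [pr_erase a hj'e,
      B_X_sub_C_mul k _ _ _ hdeg, B_comm k h _ hdeg hs'deg, B_comm k h _ hdeg hVdeg]
  rw [hWj, hWj']
  unfold Sq
  simp only [map_sub, map_mul, aeval_X, aeval_C, Complex.coe_algebraMap]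
  ring

/-- The kernel theorem. -/
theorem kernel (k : ℕ) : ∀ (b a : ι → ℝ) (s t : Finset ι), s.card = k → t.card = k + 1 →
    ∃ K ∈ Cone, ∀ x y : ℂ, Z k (pr b s) (pr a t) x y = (y - x) *
      ((∑ j ∈ t, ∑ j' ∈ t, (1 / 2) * ((a j : ℂ) - a j') ^ 2 *
        Sq (B (k - 1) (pr a ((t.erase j).erase j')) (derivative (pr b s))) x y) + K x y) := by
  induction k with
  | zero =>
    intro b a s t hs ht
    refine ⟨0, zero_mem _, fun x y => ?_⟩
    obtain ⟨j, rfl⟩ := Finset.card_eq_one.1 (by simpa using ht)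
    have hs' := Finset.card_eq_zero.1 hs
    subst hs'
    have h1 : pr b (∅ : Finset ι) = 1 := by simp [pr]
    have h2 : pr a ({j} : Finset ι) = X - C (a j) := by simp [pr]
    simp [Z, B, h1, h2]
  | succ k ih =>
    intro b a s t hs ht
    have hK : ∀ j j' : ι, ∃ K ∈ Cone, j ∈ t → j' ∈ t → j ≠ j' → ∀ x y : ℂ,
        Z k (pr a ((t.erase j).erase j')) (pr b s) x y = (y - x) * K x y := by
      intro j j'
      by_cases h : j ∈ t ∧ j' ∈ t ∧ j ≠ j'
      · obtain ⟨hj, hj', hne⟩ := h
        have hj'e : j' ∈ t.erase j := Finset.mem_erase.2 ⟨fun h => hne h.symm, hj'⟩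
        have hcard : ((t.erase j).erase j').card = k := by
          rw [Finset.card_erase_of_mem hj'e, Finset.card_erase_of_mem hj, ht]; rfl
        obtain ⟨K, hK, hKe⟩ := ih a b ((t.erase j).erase j') s hcard hs
        refine ⟨_, add_mem (sum_mem fun i (_ : i ∈ s) => sum_mem fun i' (_ : i' ∈ s) =>
          smul_mem (Sq_mem (B (k - 1) (pr b ((s.erase i).erase i'))
            (derivative (pr a ((t.erase j).erase j')))))
            (c := (1 / 2) * (b i - b i') ^ 2) (by positivity)) hK, ?_⟩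
        intro _ _ _ x y
        rw [hKe x y]
        simp only [Pi.add_apply, Finset.sum_apply]
        push_cast
        ring
      · refine ⟨0, zero_mem _, fun h1 h2 h3 => absurd ⟨h1, h2, h3⟩ h⟩
    choose K hKm hKe using hK
    refine ⟨_, sum_mem fun j (_ : j ∈ t) => sum_mem fun j' (_ : j' ∈ t) =>
      smul_mem (hKm j j') (c := (1 / 2) * (a j - a j') ^ 2) (by positivity), ?_⟩
    intro x y
    rw [Z_step k b a s t hs ht x y]
    simp only [Finset.sum_apply, Nat.add_sub_cancel]
    rw [← Finset.sum_add_distrib, Finset.mul_sum]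
    refine Finset.sum_congr rfl fun j hj => ?_
    rw [← Finset.sum_add_distrib, Finset.mul_sum]
    refine Finset.sum_congr rfl fun j' hj' => ?_
    by_cases hjj : j = j'
    · subst hjj; simp
    rw [hKe j j' hj hj' hjj x y]
    push_cast
    ring

end Pool.Agent.X166.EP
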