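import Pool.Agent.X166.EP.H
import Pool.Agent.X166.EP.Defs

open Polynomial Finset

set_option linter.unusedSectionVars false

namespace Pool.Agent.X166.EP

section ode

/-- `-μ D - c D²` as an endomorphism -/
noncomputable def Tl (μ c : ℝ) : Module.End ℝ ℝ[X] :=
  -(μ • Polynomial.derivative) - c • (Polynomial.derivative * Polynomial.derivative)

noncomputable def Sl (μ c : ℝ) : Module.End ℝ ℝ[X] :=
  -(μ • (1 : Module.End ℝ ℝ[X])) - (2 * c) • Polynomial.derivative

noncomputable def Xl : Module.End ℝ ℝ[X] := LinearMap.mulLeft ℝ (X : ℝ[X])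

lemma Tl_apply (μ c : ℝ) (f : ℝ[X]) :
    Tl μ c f = - (C μ * derivative f) - C c * derivative (derivative f) := by
  simp [Tl, smul_eq_C_mul]

lemma Sl_apply (μ c : ℝ) (f : ℝ[X]) : Sl μ c f = - (C μ * f) - C (2 * c) * derivative f := by
  simp [Sl, smul_eq_C_mul]

lemma Tl_X (μ c : ℝ) (f : ℝ[X]) : Tl μ c (X * f) = X * Tl μ c f + Sl μ c f := by
  rw [Tl_apply, Tl_apply, Sl_apply]
  simp only [derivative_mul, derivative_X, one_mul, derivative_add]
  rw [C_mul]
  have : (C 2 : ℝ[X]) = 2 := rfl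
  rw [this]
  ring

lemma Tl_Sl (μ c : ℝ) (f : ℝ[X]) : Tl μ c (Sl μ c f) = Sl μ c (Tl μ c f) := by
  simp only [Tl_apply, Sl_apply, derivative_sub, derivative_neg, derivative_C_mul]
  ring

lemma iter_Tl_Sl (μ c : ℝ) (j : ℕ) (f : ℝ[X]) :
    (Tl μ c)^[j] (Sl μ c f) = Sl μ c ((Tl μ c)^[j] f) := by
  induction j generalizing f with
  | zero => rfl
  | succ j ih => rw [Function.iterate_succ_apply, Function.iterate_succ_apply, Tl_Sl, ih]

lemma iter_Tl_X (μ c : ℝ) (j : ℕ) (f : ℝ[X]) :
    (Tl μ c)^[j + 1] (X * f) = X * (Tl μ c)^[j + 1] f +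
      ((j : ℝ) + 1) • (Tl μ c)^[j] (Sl μ c f) := by
  induction j with
  | zero => simp [Tl_X]
  | succ j ih =>
    rw [Function.iterate_succ_apply', ih, map_add, map_smul, Tl_X,
      ← Function.iterate_succ_apply' (⇑(Tl μ c)) (j + 1) f,
      ← Function.iterate_succ_apply' (⇑(Tl μ c)) j (Sl μ c f), ← iter_Tl_Sl]
    push_cast
    rw [add_smul ((j : ℝ) + 1) 1, one_smul]
    ring

lemma iter_Tl_derivative (μ c : ℝ) (j : ℕ) (f : ℝ[X]) :
    (Tl μ c)^[j] (derivative f) = derivative ((Tl μ c)^[j] f) := by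
  induction j generalizing f with
  | zero => rfl
  | succ j ih =>
    rw [Function.iterate_succ_apply, Function.iterate_succ_apply, ← ih]
    congr 1
    simp only [Tl_apply, derivative_sub, derivative_neg, derivative_C_mul]

lemma natDegree_Tl_lt (μ c : ℝ) (f : ℝ[X]) {n : ℕ} (h : f.natDegree ≤ n + 1) :
    (Tl μ c f).natDegree ≤ n := by
  rw [Tl_apply]
  have h1 := natDegree_derivative_le f
  have h2 := natDegree_derivative_le (derivative f)
  refine (natDegree_sub_le _ _).trans (max_le ?_ ?_)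
  · rw [natDegree_neg]
    exact (natDegree_C_mul_le _ _).trans (by omega)
  · exact (natDegree_C_mul_le _ _).trans (by omega)

lemma Tl_const (μ c : ℝ) (f : ℝ[X]) (h : f.natDegree = 0) : Tl μ c f = 0 := by
  rw [Tl_apply, derivative_of_natDegree_zero h]
  simp

lemma iter_Tl_zero (μ c : ℝ) (n : ℕ) : ∀ (f : ℝ[X]), f.natDegree ≤ n →
    (Tl μ c)^[n + 1] f = 0 := by
  induction n with
  | zero =>
    intro f hf
    rw [Function.iterate_succ_apply, Tl_const μ c f (by omega)]
    simp
  | succ n ih =>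
    intro f hf
    rw [Function.iterate_succ_apply]
    exact ih _ (natDegree_Tl_lt μ c f hf)

lemma iter_Tl_natDegree (μ c : ℝ) (j : ℕ) : ∀ (f : ℝ[X]),
    ((Tl μ c)^[j] f).natDegree ≤ f.natDegree - j := by
  induction j with
  | zero => intro f; simp
  | succ j ih =>
    intro f
    rw [Function.iterate_succ_apply]
    refine (ih _).trans ?_
    rcases Nat.eq_zero_or_pos f.natDegree with h | h
    · rw [Tl_const μ c f h]; simp
    · have := natDegree_Tl_lt μ c f (n := f.natDegree - 1) (by omega)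
      omega

/-- truncated exponential -/
noncomputable def Ex (d : ℕ) (μ c : ℝ) (f : ℝ[X]) : ℝ[X] :=
  ∑ j ∈ range (d + 1), C ((j.factorial : ℝ)⁻¹) * (Tl μ c)^[j] f

lemma iter_Tl_smul (μ c r : ℝ) (j : ℕ) : ∀ f : ℝ[X],
    (Tl μ c)^[j] (r • f) = r • (Tl μ c)^[j] f := by
  induction j with
  | zero => intro f; rfl
  | succ j ih =>
    intro f
    rw [Function.iterate_succ_apply, Function.iterate_succ_apply, map_smul, ih]

lemma Ex_C_mul (d : ℕ) (μ c r : ℝ) (f : ℝ[X]) : Ex d μ c (C r * f) = C r * Ex d μ c f := by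
  unfold Ex
  rw [Finset.mul_sum]
  refine Finset.sum_congr rfl fun j _ => ?_
  have : (Tl μ c)^[j] (C r * f) = C r * (Tl μ c)^[j] f := by
    rw [← smul_eq_C_mul, ← smul_eq_C_mul, iter_Tl_smul]
  rw [this]; ring

lemma Ex_derivative (d : ℕ) (μ c : ℝ) (f : ℝ[X]) :
    Ex d μ c (derivative f) = derivative (Ex d μ c f) := by
  unfold Ex
  rw [derivative_sum]
  refine Finset.sum_congr rfl fun j _ => ?_
  rw [derivative_C_mul, iter_Tl_derivative]

lemma Ex_Sl (d : ℕ) (μ c : ℝ) (f : ℝ[X]) :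
    Ex d μ c (Sl μ c f) = Sl μ c (Ex d μ c f) := by
  unfold Ex
  rw [map_sum]
  refine Finset.sum_congr rfl fun j _ => ?_
  rw [iter_Tl_Sl, ← smul_eq_C_mul, ← smul_eq_C_mul, map_smul]

lemma Ex_X_mul (d : ℕ) (μ c : ℝ) (f : ℝ[X]) (hf : f.natDegree < d) :
    Ex d μ c (X * f) = X * Ex d μ c f + Sl μ c (Ex d μ c f) := by
  rw [← Ex_Sl]
  have hz : (Tl μ c)^[d] (Sl μ c f) = 0 := by
    rw [iter_Tl_Sl]
    obtain ⟨n, rfl⟩ : ∃ n, d = n + 1 := ⟨d - 1, by omega⟩
    rw [iter_Tl_zero μ c n f (by omega), map_zero]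
  unfold Ex
  rw [Finset.sum_range_succ', Finset.sum_range_succ' (n := d) (f := fun j =>
    C ((j.factorial : ℝ)⁻¹) * (Tl μ c)^[j] f), Finset.sum_range_succ (n := d) (f := fun j =>
    C ((j.factorial : ℝ)⁻¹) * (Tl μ c)^[j] (Sl μ c f)), hz, mul_zero, add_zero]
  have h1 : ∀ j ∈ range d, C (((j + 1).factorial : ℝ)⁻¹) * (Tl μ c)^[j + 1] (X * f) =
      X * (C (((j + 1).factorial : ℝ)⁻¹) * (Tl μ c)^[j + 1] f) +
      C ((j.factorial : ℝ)⁻¹) * (Tl μ c)^[j] (Sl μ c f) := by
    intro j _
    rw [iter_Tl_X, mul_add, smul_eq_C_mul, ← mul_assoc (C _) (C _), ← C_mul]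
    have : (((j + 1).factorial : ℝ)⁻¹ * ((j : ℝ) + 1)) = (j.factorial : ℝ)⁻¹ := by
      rw [Nat.factorial_succ]
      have : ((j : ℝ) + 1) ≠ 0 := by positivity
      push_cast
      field_simp
    rw [this]
    ring
  rw [Finset.sum_congr rfl h1, Finset.sum_add_distrib, ← Finset.mul_sum]
  simp only [Function.iterate_zero, id_eq]
  ring

/-- The Hermite ODE. -/
lemma Ex_ode (d : ℕ) (hd : 0 < d) (μ c : ℝ) :
    C (d : ℝ) * Ex d μ c (X ^ d) = X * derivative (Ex d μ c (X ^ d)) +
      Sl μ c (derivative (Ex d μ c (X ^ d))) := by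
  rw [← Ex_derivative, ← Ex_X_mul, ← Ex_C_mul]
  · congr 1
    rw [derivative_X_pow]
    obtain ⟨n, rfl⟩ : ∃ n, d = n + 1 := ⟨d - 1, by omega⟩
    rw [Nat.add_sub_cancel, pow_succ]
    ring
  · rw [derivative_X_pow]
    refine lt_of_le_of_lt (natDegree_C_mul_le _ _) ?_
    rw [natDegree_X_pow]; omega

lemma Ex_monic (d : ℕ) (μ c : ℝ) :
    (Ex d μ c (X ^ d)).Monic ∧ (Ex d μ c (X ^ d)).natDegree = d := by
  have h1 : (Ex d μ c (X ^ d)).natDegree ≤ d := by
    unfold Ex
    refine natDegree_sum_le_of_forall_le _ _ fun j _ => ?_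
    refine (natDegree_C_mul_le _ _).trans ((iter_Tl_natDegree μ c j _).trans ?_)
    rw [natDegree_X_pow]; omega
  have h2 : (Ex d μ c (X ^ d)).coeff d = 1 := by
    unfold Ex
    rw [finsetSum_coeff, Finset.sum_eq_single_of_mem 0 (by simp)]
    · simp
    · intro j hj hj0
      have hj' := Finset.mem_range.1 hj
      rw [coeff_C_mul, coeff_eq_zero_of_natDegree_lt, mul_zero]
      refine lt_of_le_of_lt (iter_Tl_natDegree μ c j _) ?_
      rw [natDegree_X_pow]; omega
  have h3 : (Ex d μ c (X ^ d)).natDegree = d :=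
    le_antisymm h1 (le_natDegree_of_ne_zero (by rw [h2]; exact one_ne_zero))
  refine ⟨?_, h3⟩
  unfold Monic leadingCoeff
  rw [h3, h2]

/-- uniqueness for the Hermite ODE -/
lemma ode_unique (d : ℕ) (μ c : ℝ) (p : ℝ[X]) (hm : p.Monic) (hd : p.natDegree = d)
    (hd0 : 0 < d)
    (h : C (d : ℝ) * p = X * derivative p + Sl μ c (derivative p)) :
    p = Ex d μ c (X ^ d) := by
  obtain ⟨e1, e2⟩ := Ex_monic d μ c
  have e3 := Ex_ode d hd0 μ c
  set q := Ex d μ c (X ^ d)
  by_contra hne
  have hu : p - q ≠ 0 := sub_ne_zero.2 hne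
  have h1 : C (d : ℝ) * (p - q) = X * derivative (p - q) + Sl μ c (derivative (p - q)) := by
    rw [mul_sub, h, e3, derivative_sub, map_sub]
    ring
  set u := p - q with hu'
  set n := u.natDegree with hn
  have hnd : n < d := by
    have : u.degree < p.degree := by
      refine degree_sub_lt_left ?_ hm.ne_zero ?_
      · rw [degree_eq_natDegree hm.ne_zero, degree_eq_natDegree e1.ne_zero, hd, e2]
      · rw [hm.leadingCoeff, e1.leadingCoeff]
    rw [degree_eq_natDegree hu, degree_eq_natDegree hm.ne_zero, hd] at this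
    exact_mod_cast this
  have h2 : (C (d : ℝ) * u).coeff n = (X * derivative u + Sl μ c (derivative u)).coeff n := by
    rw [h1]
  have h3 : (X * derivative u).coeff n = n * u.coeff n := by
    rcases Nat.eq_zero_or_pos n with h0 | h0
    · rw [h0]; simp
    · obtain ⟨m, hm'⟩ : ∃ m, n = m + 1 := ⟨n - 1, by omega⟩
      rw [hm', coeff_X_mul, coeff_derivative]
      push_cast
      ring
  have h4 : (derivative u).coeff n = 0 := by
    rw [coeff_derivative, coeff_eq_zero_of_natDegree_lt (by omega), zero_mul]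
  have h5 : (derivative (derivative u)).coeff n = 0 := by
    rw [coeff_derivative, coeff_derivative, coeff_eq_zero_of_natDegree_lt (by omega)]
    ring
  rw [coeff_add, Sl_apply, coeff_sub, coeff_neg, coeff_C_mul, coeff_C_mul, coeff_C_mul, h3, h4,
    h5] at h2
  have h6 : ((d : ℝ) - n) * u.coeff n = 0 := by linarith
  have h7 : (d : ℝ) - n ≠ 0 := by
    have : (n : ℝ) < d := by exact_mod_cast hnd
    linarith
  have h8 : u.coeff n = 0 := (mul_eq_zero.1 h6).resolve_left h7
  exact leadingCoeff_ne_zero.2 hu h8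

end ode

lemma hermiteGen_eq (d : ℕ) (μ v : ℝ) :
    hermiteGen d μ v = Ex d μ (v / (2 * ((d : ℝ) - 1))) (X ^ d) := by
  unfold hermiteGen Ex
  have : herGen d μ v = ⇑(Tl μ (v / (2 * ((d : ℝ) - 1)))) := by
    funext f
    rw [Tl_apply]; rfl
  rw [this]

/-- Affine scores force a Hermite polynomial. -/
theorem hermite_of_affine {k : ℕ} (b : Fin (k + 2) → ℝ) (hb : Function.Injective b)
    (A B' : ℝ) (h : ∀ l, sc b l = A + B' * b l) :
    ∃ μ v : ℝ, 0 ≤ v ∧ pr b univ = hermiteGen (k + 2) μ v := by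
  have hk : (0 : ℝ) < (k : ℝ) + 2 := by positivity
  -- positivity of B'
  have h1 : ∑ l, sc b l * b l = ((k : ℝ) + 2) * (k + 1) / 2 := by
    have e1 : ∑ l, sc b l * b l = ∑ l, ∑ m, (b l - b m)⁻¹ * b l := by
      refine Finset.sum_congr rfl fun l _ => ?_
      unfold sc
      rw [Finset.sum_mul]
    have e2 : ∑ l, ∑ m, (b l - b m)⁻¹ * b l = ∑ l, ∑ m, (b m - b l)⁻¹ * b m := Finset.sum_comm
    have e3 : (∑ l, ∑ m, (b l - b m)⁻¹ * b l) + ∑ l, ∑ m, (b m - b l)⁻¹ * b m =
        ∑ l : Fin (k + 2), ∑ m : Fin (k + 2), (if m = l then (0 : ℝ) else 1) := by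
      rw [← Finset.sum_add_distrib]
      refine Finset.sum_congr rfl fun l _ => ?_
      rw [← Finset.sum_add_distrib]
      refine Finset.sum_congr rfl fun m _ => ?_
      split_ifs with hml
      · subst hml; simp
      · have n1 : b l - b m ≠ 0 := fun h => hml (hb (by linarith))
        have n2 : b m - b l ≠ 0 := fun h => hml (hb (by linarith))
        have : (b m - b l)⁻¹ = - (b l - b m)⁻¹ := by rw [← inv_neg, neg_sub]
        rw [this]
        field_simp
        ring
    have e4 : ∑ l : Fin (k + 2), ∑ m : Fin (k + 2), (if m = l then (0 : ℝ) else 1) =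
        ((k : ℝ) + 2) * (k + 1) := by
      have : ∀ l : Fin (k + 2), ∑ m : Fin (k + 2), (if m = l then (0 : ℝ) else 1) = (k : ℝ) + 1 := by
        intro l
        have : ∀ m : Fin (k + 2), (if m = l then (0 : ℝ) else 1) = 1 - (if m = l then (1 : ℝ) else 0) := by
          intro m; split_ifs <;> simp
        simp only [this, Finset.sum_sub_distrib, Finset.sum_ite_eq', Finset.mem_univ, if_true,
          Finset.sum_const, card_univ, Fintype.card_fin, nsmul_eq_mul]
        push_cast
        ring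
      simp only [this, Finset.sum_const, card_univ, Fintype.card_fin, nsmul_eq_mul]
      push_cast
      ring
    rw [e1]
    rw [e4] at e3
    linarith
  have h2 := sc_sum b
  have h3 : ((k : ℝ) + 2) * A + B' * ∑ l, b l = 0 := by
    rw [← h2, Finset.mul_sum]
    simp only [h, Finset.sum_add_distrib, Finset.sum_const, card_univ, Fintype.card_fin,
      nsmul_eq_mul]
    push_cast
    ring
  have h4 : A * (∑ l, b l) + B' * ∑ l, b l ^ 2 = ((k : ℝ) + 2) * (k + 1) / 2 := by
    rw [← h1, Finset.mul_sum, Finset.mul_sum, ← Finset.sum_add_distrib]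
    refine Finset.sum_congr rfl fun l _ => ?_
    rw [h]; ring
  have h5 : (∑ l, b l) ^ 2 ≤ ((k : ℝ) + 2) * ∑ l, b l ^ 2 := by
    have := sq_sum_le_card_mul_sum_sq (s := (univ : Finset (Fin (k + 2)))) (f := b)
    rw [card_univ, Fintype.card_fin] at this
    push_cast at this
    exact this
  have h6 : B' * (((k : ℝ) + 2) * (∑ l, b l ^ 2) - (∑ l, b l) ^ 2) =
      ((k : ℝ) + 2) * (((k : ℝ) + 2) * (k + 1) / 2) := by
    rw [← h4]
    linear_combination (- ∑ l, b l) * h3
  have h7 : 0 < ((k : ℝ) + 2) * (((k : ℝ) + 2) * (k + 1) / 2) := by positivity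
  have hB : 0 < B' := by
    by_contra hcon
    have hcon' : B' ≤ 0 := not_lt.1 hcon
    have : B' * (((k : ℝ) + 2) * (∑ l, b l ^ 2) - (∑ l, b l) ^ 2) ≤ 0 :=
      mul_nonpos_of_nonpos_of_nonneg hcon' (by linarith)
    linarith
  refine ⟨-A / B', ((k : ℝ) + 1) / (2 * B'), by positivity, ?_⟩
  rw [hermiteGen_eq]
  have hdeg : (pr b univ).natDegree = k + 2 := by rw [natDegree_pr]; simp
  have hcv : ((k : ℝ) + 1) / (2 * B') / (2 * (((k + 2 : ℕ) : ℝ) - 1)) = 1 / (4 * B') := by
    have : ((k : ℝ) + 1) ≠ 0 := by positivity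
    have e : (((k + 2 : ℕ) : ℝ) - 1) = (k : ℝ) + 1 := by push_cast; ring
    rw [e]
    field_simp
    ring
  rw [hcv]
  apply ode_unique (k + 2) _ _ _ (pr_monic _ _) hdeg (by omega)
  -- the ODE by Lagrange interpolation
  set μ := -A / B'
  set c := 1 / (4 * B') with hc
  set p := pr b univ with hp
  have hR : C (((k + 2 : ℕ)) : ℝ) * p - X * derivative p - Sl μ c (derivative p) = 0 := by
    set R := C (((k + 2 : ℕ)) : ℝ) * p - X * derivative p - Sl μ c (derivative p) with hRdef
    have hRdeg : R.degree < (univ : Finset (Fin (k + 2))).card := by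
      rw [card_univ, Fintype.card_fin, degree_lt_iff_coeff_zero]
      intro m hm
      have g1 : (derivative p).coeff m = 0 := by
        rw [coeff_derivative, coeff_eq_zero_of_natDegree_lt (by omega), zero_mul]
      have g2 : (derivative (derivative p)).coeff m = 0 := by
        rw [coeff_derivative, coeff_derivative, coeff_eq_zero_of_natDegree_lt (by omega)]
        ring
      have g3 : (X * derivative p).coeff m = m * p.coeff m := by
        obtain ⟨n, rfl⟩ : ∃ n, m = n + 1 := ⟨m - 1, by omega⟩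
        rw [coeff_X_mul, coeff_derivative]
        push_cast
        ring
      rw [hRdef, Sl_apply, coeff_sub, coeff_sub, coeff_sub, coeff_neg, coeff_C_mul, coeff_C_mul,
        coeff_C_mul, g1, g2, g3]
      rcases Nat.eq_or_lt_of_le hm with h' | h'
      · rw [← h']; ring
      · rw [coeff_eq_zero_of_natDegree_lt (p := p) (by omega)]; ring
    have hReval : ∀ l, R.eval (b l) = 0 := by
      intro l
      have g0 : p.eval (b l) = 0 := eval_pr_self b l
      have g1 : (derivative (derivative p)).eval (b l) =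
        2 * sc b l * (derivative p).eval (b l) := eval_second b hb l
      rw [hRdef, Sl_apply]
      simp only [eval_sub, eval_neg, eval_mul, eval_C, eval_X, g0, g1, h l]
      have : μ = -A / B' := rfl
      rw [this, hc]
      field_simp
      ring
    rw [lag (univ : Finset (Fin (k + 2))) b hb.injOn R hRdeg]
    refine Finset.sum_eq_zero fun l _ => ?_
    rw [hReval]
    simp
  linear_combination hR

end Pool.Agent.X166.EP
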