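import Pool.Agent.X166.EP.F

open Polynomial Finset Filter

set_option linter.unusedSectionVars false

namespace Pool.Agent.X166.EP

section eq

variable {k : ℕ} (b a c : Fin (k + 2) → ℝ)

/-- If `φ` starts at its limit then the Stam inequality is an equality. -/
theorem stam_eq_of_phi (hb : Function.Injective b) (ha : Function.Injective a)
    (hc : Function.Injective c) (h : nc (k + 2) (pr b univ) (pr a univ) = pr c univ)
    (θ : ℝ) (hθ : 0 < θ) (hθ' : θ < 1)
    (heq : phi b a c θ 0 = -(((k + 2) * (k + 2 - 1) : ℕ) : ℝ) / 2 *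
      (θ * Real.log θ + (1 - θ) * Real.log (1 - θ))) :
    θ ^ 2 * Phi b + (1 - θ) ^ 2 * Phi a - Phi c = 0 := by
  have h1 := phi_antitone b a c hb ha hc h θ hθ.le hθ'.le
  have h2 := phi_limit b a c hb ha hc θ hθ hθ'
  rw [← heq] at h2
  have h3 : ∀ τ ∈ Set.Ici (0 : ℝ), phi b a c θ τ = phi b a c θ 0 := by
    intro τ hτ
    refine le_antisymm (h1 (Set.mem_Ici.2 le_rfl) hτ hτ) ?_
    refine le_of_tendsto h2 ?_
    filter_upwards [eventually_ge_atTop τ] with σ hσ
    exact h1 hτ (Set.mem_Ici.2 (le_trans hτ hσ)) hσ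
  have e1 := L_deriv b hb θ 0 hθ.le le_rfl b hb (by rw [mul_zero, E_zero])
  have e2 := L_deriv a ha (1 - θ) 0 (by linarith) le_rfl a ha (by rw [mul_zero, E_zero])
  have e3 := L_deriv c hc 1 0 zero_le_one le_rfl c hc (by rw [mul_zero, E_zero])
  simp only [one_mul] at e3
  have e4 : HasDerivAt (phi b a c θ)
      (4 * Phi c - θ * (θ * (4 * Phi b)) - (1 - θ) * ((1 - θ) * (4 * Phi a))) 0 :=
    (e3.sub (e1.const_mul θ)).sub (e2.const_mul (1 - θ))
  have e5 : HasDerivWithinAt (phi b a c θ) 0 (Set.Ici 0) 0 := by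
    refine (hasDerivWithinAt_const (0 : ℝ) (Set.Ici 0) (phi b a c θ 0)).congr ?_ rfl
    intro τ hτ
    exact h3 τ hτ
  have e6 := (uniqueDiffOn_Ici (0 : ℝ) 0 (Set.mem_Ici.2 le_rfl)).eq_deriv _
    e4.hasDerivWithinAt e5
  linarith

end eq

/-- leading coefficient functional -/
lemma top_coeff {d : ℕ} (c : Fin (d + 1) → ℝ) (hc : Function.Injective c) (F : ℝ[X])
    (hF : F.natDegree ≤ d) :
    ∑ e, F.eval (c e) / (derivative (pr c univ)).eval (c e) = F.coeff d := by
  have h1 := lag (univ : Finset (Fin (d + 1))) c hc.injOn F (by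
    rw [card_univ, Fintype.card_fin]
    refine lt_of_le_of_lt degree_le_natDegree ?_
    exact_mod_cast Nat.lt_succ_of_le hF)
  conv_rhs => rw [h1]
  rw [finsetSum_coeff]
  refine Finset.sum_congr rfl fun e _ => ?_
  rw [coeff_C_mul]
  have h2 : (pr c (univ.erase e)).coeff d = 1 := by
    have := coeff_pr_top c (univ.erase e)
    rwa [Finset.card_erase_of_mem (Finset.mem_univ _), card_univ, Fintype.card_fin,
      Nat.add_sub_cancel] at this
  rw [h2, mul_one, eval_derivative_pr, div_eq_mul_inv]
  congr 1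
  unfold pr
  rw [eval_prod]
  simp only [eval_sub, eval_X, eval_C]
  rw [Finset.prod_inv_distrib]

/-- If the weights annihilate polynomials of degree `≤ d - 3`, they are affine. -/
lemma affine_weights {n : ℕ} (c : Fin (n + 3) → ℝ) (hc : Function.Injective c)
    (u : Fin (n + 3) → ℝ)
    (h : ∀ F : ℝ[X], F.natDegree ≤ n →
      ∑ e, u e * F.eval (c e) / (derivative (pr c univ)).eval (c e) = 0) :
    ∃ α β : ℝ, ∀ e, u e = α + β * c e := by
  classical
  set U : ℝ[X] := Lagrange.interpolate univ c u with hU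
  have hUe : ∀ e, U.eval (c e) = u e := fun e =>
    Lagrange.eval_interpolate_at_node u hc.injOn (Finset.mem_univ e)
  have hUd : U.degree < ((n + 3 : ℕ) : WithBot ℕ) := by
    have := Lagrange.degree_interpolate_lt (s := univ) (v := c) u hc.injOn
    rwa [card_univ, Fintype.card_fin] at this
  have hUn : U.natDegree ≤ n + 2 := by
    by_cases h0 : U = 0
    · rw [h0]; simp
    · rw [degree_eq_natDegree h0] at hUd
      have : U.natDegree < n + 3 := by exact_mod_cast hUd
      omega
  have h1 : U.natDegree ≤ 1 := by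
    by_contra hcon
    push Not at hcon
    set m := U.natDegree with hm
    have h2 := h (X ^ (n + 2 - m)) (by rw [natDegree_X_pow]; omega)
    have h3 := top_coeff (d := n + 2) c hc (U * X ^ (n + 2 - m)) (by
      refine (natDegree_mul_le).trans ?_
      rw [natDegree_X_pow]; omega)
    have h4 : ∑ e, (U * X ^ (n + 2 - m)).eval (c e) / (derivative (pr c univ)).eval (c e) = 0 := by
      rw [← h2]
      refine Finset.sum_congr rfl fun e _ => ?_
      rw [eval_mul, hUe]
    rw [h4] at h3
    have h5 : (U * X ^ (n + 2 - m)).coeff (n + 2) = U.coeff m := by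
      have e1 : n + 2 = m + (n + 2 - m) := by omega
      conv_lhs => rw [e1]
      have e2 : m + (n + 2 - m) - m = n + 2 - m := by omega
      rw [e2, coeff_mul_X_pow]
    rw [h5] at h3
    have h6 : U ≠ 0 := by
      intro h0
      rw [h0] at hm
      simp at hm
      omega
    exact leadingCoeff_ne_zero.2 h6 h3.symm
  refine ⟨U.coeff 0, U.coeff 1, fun e => ?_⟩
  rw [← hUe e]
  conv_lhs => rw [eq_X_add_C_of_natDegree_le_one h1]
  simp
  ring

lemma coeff_B_lm (n : ℕ) (f g : ℝ[X]) (hf : f.natDegree ≤ n) :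
    (B (n + 1) f g).coeff n = (n + 1).factorial * g.coeff (n + 1) * f.coeff n := by
  have h := coeff_B (n + 1) f g n
  rw [Finset.sum_eq_single_of_mem 0 (by simp)] at h
  · have hk : (n.factorial : ℝ) ≠ 0 := by positivity
    apply mul_left_cancel₀ hk
    rw [h]
    simp
    ring
  · intro l _ hl
    rw [coeff_eq_zero_of_natDegree_lt (p := f) (n := n + l) (by omega)]
    ring

/-- Equality in Stam's inequality forces affine scores (degree at least three). -/
theorem affine_score {n : ℕ} (b a c : Fin (n + 3) → ℝ) (hb : Function.Injective b)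
    (ha : Function.Injective a) (hc : Function.Injective c)
    (h : nc (n + 3) (pr b univ) (pr a univ) = pr c univ)
    (θ : ℝ) (hθ : 0 < θ) (heq : θ ^ 2 * Phi b + (1 - θ) ^ 2 * Phi a - Phi c = 0) :
    ∃ A B' : ℝ, ∀ l, sc b l = A + B' * b l := by
  classical
  set r := B (n + 3) (pr b univ) (pr a univ) with hr
  have hrc : r = C ((n + 3).factorial : ℝ) * pr c univ := by rw [hr, B_eq_nc, h]
  set W : Fin (n + 3) → ℝ := fun e => sc c e / (derivative r).eval (c e) with hW
  have h1 := stam_full (n + 1) b a c hb ha hc h θ W hW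
  rw [heq] at h1
  have q1 : 0 ≤ ∑ i, (om c W (B (n + 1 + 1) (derivative (pr b univ)) (pr a (univ.erase i))) -
        (1 - θ) * sc a i) ^ 2 := Finset.sum_nonneg fun _ _ => sq_nonneg _
  have q2 : 0 ≤ ∑ l, (om c W (B (n + 1 + 1) (pr b (univ.erase l)) (derivative (pr a univ))) -
        θ * sc b l) ^ 2 := Finset.sum_nonneg fun _ _ => sq_nonneg _
  have q3 : 0 ≤ ∑ i, ∑ l, ∑ m, ∑ j ∈ univ.erase i, ∑ j' ∈ univ.erase i,
        ((1 / 4) * (b l - b m) ^ 2 * (a j - a j') ^ 2) *
        om c W (B (n + 1 - 1) (pr a (((univ.erase i).erase j).erase j'))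
          (derivative (pr b ((univ.erase l).erase m)))) ^ 2 :=
    Finset.sum_nonneg fun _ _ => Finset.sum_nonneg fun _ _ => Finset.sum_nonneg fun _ _ =>
        Finset.sum_nonneg fun _ _ => Finset.sum_nonneg fun _ _ => by positivity
  have z2 : ∑ l, (om c W (B (n + 1 + 1) (pr b (univ.erase l)) (derivative (pr a univ))) -
        θ * sc b l) ^ 2 = 0 := by linarith
  have z3 : ∑ i, ∑ l, ∑ m, ∑ j ∈ univ.erase i, ∑ j' ∈ univ.erase i,
        ((1 / 4) * (b l - b m) ^ 2 * (a j - a j') ^ 2) *
        om c W (B (n + 1 - 1) (pr a (((univ.erase i).erase j).erase j'))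
          (derivative (pr b ((univ.erase l).erase m)))) ^ 2 = 0 := by linarith
  have hL : ∀ l, om c W (B (n + 1 + 1) (pr b (univ.erase l)) (derivative (pr a univ))) =
      θ * sc b l := by
    intro l
    have := (Finset.sum_eq_zero_iff_of_nonneg fun _ _ => sq_nonneg _).1 z2 l (Finset.mem_univ l)
    have := pow_eq_zero_iff (two_ne_zero) |>.1 this
    linarith
  have hU : ∀ i l m : Fin (n + 3), ∀ j ∈ univ.erase i, ∀ j' ∈ univ.erase i, l ≠ m → j ≠ j' →
      om c W (B n (pr a (((univ.erase i).erase j).erase j'))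
          (derivative (pr b ((univ.erase l).erase m)))) = 0 := by
    intro i l m j hj j' hj' hlm hjj
    have s1 := (Finset.sum_eq_zero_iff_of_nonneg fun _ _ => Finset.sum_nonneg fun _ _ =>
      Finset.sum_nonneg fun _ _ => Finset.sum_nonneg fun _ _ => Finset.sum_nonneg fun _ _ =>
      by positivity).1 z3 i (Finset.mem_univ _)
    have s2 := (Finset.sum_eq_zero_iff_of_nonneg fun _ _ =>
      Finset.sum_nonneg fun _ _ => Finset.sum_nonneg fun _ _ => Finset.sum_nonneg fun _ _ =>
      by positivity).1 s1 l (Finset.mem_univ _)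
    have s3 := (Finset.sum_eq_zero_iff_of_nonneg fun _ _ =>
      Finset.sum_nonneg fun _ _ => Finset.sum_nonneg fun _ _ =>
      by positivity).1 s2 m (Finset.mem_univ _)
    have s4 := (Finset.sum_eq_zero_iff_of_nonneg fun _ _ => Finset.sum_nonneg fun _ _ =>
      by positivity).1 s3 j hj
    have s5 := (Finset.sum_eq_zero_iff_of_nonneg fun _ _ => by positivity).1 s4 j' hj'
    have n1 : b l - b m ≠ 0 := fun h => hlm (hb (by linarith))
    have n2 : a j - a j' ≠ 0 := fun h => hjj (ha (by linarith))
    rcases mul_eq_zero.1 s5 with h' | h'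
    · exfalso
      have : (0 : ℝ) < (1 / 4) * (b l - b m) ^ 2 * (a j - a j') ^ 2 := by positivity
      exact this.ne' h'
    · exact pow_eq_zero_iff (two_ne_zero) |>.1 h'
  -- `om` kills polynomials of degree at most `n`
  have hkill : ∀ F : ℝ[X], F.natDegree ≤ n → om c W F = 0 := by
    intro F hF
    -- fixed indices
    set i0 : Fin (n + 3) := 0 with hi0
    set j0 : Fin (n + 3) := 1 with hj0
    have hij : j0 ∈ (univ : Finset (Fin (n + 3))).erase i0 := by
      rw [Finset.mem_erase]
      exact ⟨by simp [hi0, hj0], Finset.mem_univ _⟩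
    set T3 := ((univ : Finset (Fin (n + 3))).erase i0).erase j0 with hT3
    have hT3c : T3.card = n + 1 := by
      rw [hT3, Finset.card_erase_of_mem hij, Finset.card_erase_of_mem (Finset.mem_univ _),
        card_univ, Fintype.card_fin]; rfl
    set T2 := (univ : Finset (Fin (n + 3))).erase i0 with hT2
    have hT2c : T2.card = n + 2 := by
      rw [hT2, Finset.card_erase_of_mem (Finset.mem_univ _),
        card_univ, Fintype.card_fin]; rfl
    have g1 := lag T3 a ha.injOn F (by
      rw [hT3c]
      refine lt_of_le_of_lt degree_le_natDegree ?_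
      exact_mod_cast Nat.lt_succ_of_le hF)
    have g2 := lag T2 b hb.injOn (X ^ (n + 1)) (by
      rw [hT2c, degree_X_pow]
      exact_mod_cast Nat.lt_succ_self (n + 1))
    have g3 : ∀ G : ℝ[X], ∀ m ∈ T2, G = F →
        om c W (B n G (derivative (pr b (T2.erase m)))) = 0 := by
      intro G m hm hG
      rw [hG, g1, B_sum_left, map_sum]
      refine Finset.sum_eq_zero fun j' hj' => ?_
      rw [B_C_left, ← smul_eq_C_mul, map_smul]
      have hj'2 : j' ∈ (univ : Finset (Fin (n + 3))).erase i0 := Finset.mem_of_mem_erase hj'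
      have := hU i0 i0 m j0 hij j' hj'2 (Finset.mem_erase.1 hm).1.symm (Finset.mem_erase.1 hj').1.symm
      rw [this, smul_zero]
    have g4 : om c W (B n F (derivative (X ^ (n + 1)))) = 0 := by
      rw [g2, derivative_sum, B_sum_right, map_sum]
      refine Finset.sum_eq_zero fun m hm => ?_
      rw [derivative_C_mul, B_C_right, ← smul_eq_C_mul, map_smul, g3 F m hm rfl, smul_zero]
    have g5 : B n F (derivative (X ^ (n + 1))) = C (((n : ℝ) + 1) * n.factorial) * F := by
      rw [derivative_X_pow, Nat.add_sub_cancel, B_C_right, B_eq_nc, nc_X_pow, ← mul_assoc,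
        ← C_mul]
      push_cast
      rfl
    rw [g5, ← smul_eq_C_mul, map_smul, smul_eq_mul] at g4
    have : ((n : ℝ) + 1) * n.factorial ≠ 0 := by positivity
    exact (mul_eq_zero.1 g4).resolve_left this
  -- weights are affine
  have hfac : ((n + 3).factorial : ℝ) ≠ 0 := by positivity
  have hder : ∀ e, (derivative r).eval (c e) =
      (n + 3).factorial * (derivative (pr c univ)).eval (c e) := by
    intro e
    rw [hrc, derivative_C_mul, eval_mul, eval_C]
  have hne : ∀ e, (derivative (pr c univ)).eval (c e) ≠ 0 := by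
    intro e
    rw [eval_derivative_pr]
    exact eval_pr_erase_ne_zero c hc e
  have homu : ∀ F : ℝ[X], om c W F =
      ∑ e, (sc c e / (n + 3).factorial) * F.eval (c e) / (derivative (pr c univ)).eval (c e) := by
    intro F
    show ∑ e, W e * F.eval (c e) = _
    refine Finset.sum_congr rfl fun e _ => ?_
    rw [hW]
    simp only
    rw [hder]
    have := hne e
    field_simp
  obtain ⟨α, β, hαβ⟩ := affine_weights c hc (fun e => sc c e / (n + 3).factorial) (fun F hF => by
    rw [← homu]; exact hkill F hF)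
  have hom : ∀ F : ℝ[X], F.natDegree ≤ n + 1 → om c W F = β * F.coeff (n + 1) := by
    intro F hF
    rw [homu]
    have e1 := top_coeff (d := n + 2) c hc ((C α + C β * X) * F) (by
      refine natDegree_mul_le.trans ?_
      have : (C α + C β * X : ℝ[X]).natDegree ≤ 1 := by compute_degree
      omega)
    have e2 : ((C α + C β * X) * F).coeff (n + 2) = β * F.coeff (n + 1) := by
      rw [add_mul, coeff_add, coeff_C_mul, mul_assoc, coeff_C_mul, coeff_X_mul,
        coeff_eq_zero_of_natDegree_lt (p := F) (n := n + 2) (by omega)]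
      ring
    rw [← e2, ← e1]
    refine Finset.sum_congr rfl fun e _ => ?_
    rw [hαβ e]
    simp
  have hdiff : ∀ l m : Fin (n + 3), θ * sc b l - θ * sc b m =
      (b l - b m) * (β * (n + 3).factorial) := by
    intro l m
    by_cases hlm : l = m
    · subst hlm; simp
    have hme : m ∈ (univ : Finset (Fin (n + 3))).erase l :=
      Finset.mem_erase.2 ⟨fun h => hlm h.symm, Finset.mem_univ _⟩
    have hcard : (((univ : Finset (Fin (n + 3))).erase l).erase m).card = n + 1 := by
      rw [Finset.card_erase_of_mem hme, Finset.card_erase_of_mem (Finset.mem_univ _),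
        card_univ, Fintype.card_fin]; rfl
    rw [← hL l, ← hL m, ← map_sub, ← B_sub_left, pr_sub b (Finset.mem_univ l) (Finset.mem_univ m),
      B_C_left, ← smul_eq_C_mul, map_smul, smul_eq_mul]
    congr 1
    have hd1 : (pr b (((univ : Finset (Fin (n + 3))).erase l).erase m)).natDegree ≤ n + 1 := by
      rw [natDegree_pr, hcard]
    rw [hom _ ((natDegree_B_le _ _ _).trans hd1), coeff_B_lm (n + 1) _ _ hd1]
    congr 1
    have hd2 : (pr b (((univ : Finset (Fin (n + 3))).erase l).erase m)).coeff (n + 1) = 1 := by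
      have := coeff_pr_top b (((univ : Finset (Fin (n + 3))).erase l).erase m)
      rwa [hcard] at this
    have hd3 : (pr a (univ : Finset (Fin (n + 3)))).coeff (n + 2 + 1) = 1 := by
      have := coeff_pr_top a (univ : Finset (Fin (n + 3)))
      rwa [card_univ, Fintype.card_fin] at this
    rw [hd2, coeff_derivative, hd3]
    rw [Nat.factorial_succ (n + 2)]
    push_cast
    ring
  refine ⟨sc b 0 - β * (n + 3).factorial / θ * b 0, β * (n + 3).factorial / θ, fun l => ?_⟩
  have := hdiff l 0
  have hθ0 : θ ≠ 0 := hθ.ne'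
  have e : sc b l = sc b 0 + (b l - b 0) * (β * (n + 3).factorial) / θ := by
    rw [← this]
    field_simp
    ring
  rw [e]
  ring

end Pool.Agent.X166.EP
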