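import Pool.Agent.X166.EP.G
import Pool.Agent.X166.EP.Q
import Pool.Agent.X166.EP.M

open Polynomial Finset

set_option linter.unusedSectionVars false

namespace Pool.Agent.X166.EP

lemma rootPoly_eq {d : ℕ} (lam : Fin d → ℝ) : rootPoly lam = pr lam univ := rfl

lemma abs_Gd {d : ℕ} (c : Fin d → ℝ) : |Gd d (pr c univ)| = Dis c := by
  rw [Gd_pr, Finset.abs_prod]
  simp only [Finset.abs_prod]
  unfold Dis
  have h := Finset.prod_prod_Ioi_mul_eq_prod_prod_off_diag (fun j i : Fin d => |c i - c j|)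
  have h1 : ∏ i, ∏ j ∈ univ.erase i, |c i - c j| = ∏ i, ∏ j ∈ ({i}ᶜ : Finset (Fin d)), |c i - c j| := by
    refine Finset.prod_congr rfl fun i _ => ?_
    rw [Finset.compl_singleton]
  rw [h1, ← h]
  refine Finset.prod_congr rfl fun i _ => Finset.prod_congr rfl fun j _ => ?_
  rw [abs_sub_comm (c j) (c i), ← sq, sq_abs]

lemma Dis_nonneg {d : ℕ} (c : Fin d → ℝ) : 0 ≤ Dis c :=
  Finset.prod_nonneg fun _ _ => Finset.prod_nonneg fun _ _ => sq_nonneg _

lemma injective_of_Dis {d : ℕ} (c : Fin d → ℝ) (h : 0 < Dis c) : Function.Injective c := by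
  intro i j hij
  by_contra hne
  have : Gd d (pr c univ) = 0 := by
    rw [Gd_pr]
    refine Finset.prod_eq_zero (Finset.mem_univ i) ?_
    refine Finset.prod_eq_zero (Finset.mem_erase.2 ⟨fun h => hne h.symm, Finset.mem_univ j⟩) ?_
    exact sub_eq_zero.2 hij
  rw [← abs_Gd, this, abs_zero] at h
  exact lt_irrefl _ h

lemma DD_eq {d : ℕ} (c : Fin d → ℝ) :
    DD d (pr c univ) = Dis c ^ (1 / (d.choose 2 : ℝ)) := by
  unfold DD
  rw [abs_Gd, NN_eq]

lemma boxPlus_eq (d : ℕ) (p q : ℝ[X]) (hp : p.natDegree ≤ d) (hq : q.natDegree ≤ d) :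
    boxPlus d p q = nc d p q := by
  rw [nc_comm d p q hp hq]
  ext m
  have hnd : (nc d q p).natDegree ≤ d := by
    unfold nc
    exact (natDegree_C_mul_le _ _).trans ((natDegree_B_le _ _ _).trans hq)
  unfold boxPlus
  rw [finsetSum_coeff]
  simp only [coeff_C_mul, coeff_X_pow]
  rcases Nat.lt_or_ge d m with hm | hm
  · rw [coeff_eq_zero_of_natDegree_lt (p := nc d q p) (by omega)]
    refine Finset.sum_eq_zero fun i _ => ?_
    rw [if_neg (by omega), mul_zero]
  · rw [Finset.sum_eq_single_of_mem (d - m) (by rw [Finset.mem_range]; omega)]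
    · rw [if_pos (by omega), mul_one]
      have hmf : (m.factorial : ℝ) ≠ 0 := by positivity
      have hdf : (d.factorial : ℝ) ≠ 0 := by positivity
      have e1 : (nc d q p).coeff m = (d.factorial : ℝ)⁻¹ * ((m.factorial : ℝ)⁻¹ *
          ∑ l ∈ range (d + 1), (((d - l).factorial : ℝ) * p.coeff (d - l)) *
        (((m + l).factorial : ℝ) * q.coeff (m + l))) := by
        rw [← coeff_B, ← mul_assoc (m.factorial : ℝ)⁻¹, inv_mul_cancel₀ hmf, one_mul]
        unfold nc
        rw [coeff_C_mul]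
      have e2 : ∑ l ∈ range (d + 1), (((d - l).factorial : ℝ) * p.coeff (d - l)) *
          (((m + l).factorial : ℝ) * q.coeff (m + l)) =
          ∑ l ∈ range (d - m + 1), (((d - l).factorial : ℝ) * p.coeff (d - l)) *
          (((m + l).factorial : ℝ) * q.coeff (m + l)) := by
        symm
        apply Finset.sum_subset
        · intro x hx
          rw [Finset.mem_range] at *
          omega
        · intro x hx hx'
          rw [Finset.mem_range] at *
          rw [coeff_eq_zero_of_natDegree_lt (p := q) (n := m + x) (by omega)]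
          ring
      rw [e1, e2, Finset.Nat.sum_antidiagonal_eq_sum_range_succ_mk, Finset.mul_sum,
        Finset.mul_sum, Finset.mul_sum]
      refine Finset.sum_congr rfl fun l hl => ?_
      have hl' := Finset.mem_range.1 hl
      have i1 : d - (d - m) = m := by omega
      have i2 : d - (d - m - l) = m + l := by omega
      simp only [signedCoeff, i1, i2]
      have i3 : ((-1 : ℝ)) ^ (d - m) = (-1) ^ l * (-1) ^ (d - m - l) := by
        rw [← pow_add]; congr 1; omega
      rw [i3]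
      have i4 : ((-1 : ℝ)) ^ l * (-1) ^ l = 1 := by
        rw [← mul_pow]; simp
      have i5 : ((-1 : ℝ)) ^ (d - m - l) * (-1) ^ (d - m - l) = 1 := by
        rw [← mul_pow]; simp
      field_simp
      linear_combination (p.coeff (d - l) * q.coeff (m + l)) * (((-1 : ℝ)) ^ l * (-1) ^ l * i5 + i4)
    · intro i hi hne
      have := Finset.mem_range.1 hi
      rw [if_neg (by omega), mul_zero]

/-- Q1 -/
theorem entropy_power (d : ℕ) (hd : 2 ≤ d) (lam mu : Fin d → ℝ) :
    (∃ nu : Fin d → ℝ, boxPlus d (rootPoly lam) (rootPoly mu) = rootPoly nu) ∧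
    ∀ nu : Fin d → ℝ, boxPlus d (rootPoly lam) (rootPoly mu) = rootPoly nu →
      Dis lam ^ (1 / (d.choose 2 : ℝ)) + Dis mu ^ (1 / (d.choose 2 : ℝ)) ≤
        Dis nu ^ (1 / (d.choose 2 : ℝ)) := by
  obtain ⟨k, rfl⟩ : ∃ k, d = k + 2 := ⟨d - 2, by omega⟩
  have h1 : ∀ b : Fin (k + 2) → ℝ, (pr b univ).natDegree ≤ k + 2 := by
    intro b; rw [natDegree_pr]; simp
  simp only [rootPoly_eq]
  rw [boxPlus_eq _ _ _ (h1 _) (h1 _)]
  refine ⟨exists_conv (k + 2) lam mu, fun nu hnu => ?_⟩
  rw [← DD_eq, ← DD_eq, ← DD_eq, ← hnu]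
  exact epi_general lam mu

/-- one half of Q2 -/
theorem equality_half {k : ℕ} (b a c : Fin (k + 2) → ℝ) (hb : Function.Injective b)
    (ha : Function.Injective a) (h : nc (k + 2) (pr b univ) (pr a univ) = pr c univ)
    (heq : DD (k + 2) (pr c univ) = DD (k + 2) (pr b univ) + DD (k + 2) (pr a univ)) :
    ∃ μ v : ℝ, 0 ≤ v ∧ pr b univ = hermiteGen (k + 2) μ v := by
  have hc := conv_simple _ b a c hb h
  have hx := DD_pos b hb
  have hy := DD_pos a ha
  have hN := NN_pos k
  have lb := log_DD b hb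
  have la := log_DD a ha
  have lc := log_DD c hc
  rw [heq] at lc
  set x := DD (k + 2) (pr b univ)
  set y := DD (k + 2) (pr a univ)
  have hs : 0 < x + y := add_pos hx hy
  have hθ : 0 < x / (x + y) := div_pos hx hs
  have hθ' : x / (x + y) < 1 := by rw [div_lt_one hs]; linarith
  have hid := theta_identity x y hx hy
  have hphi : phi b a c (x / (x + y)) 0 = -(((k + 2) * (k + 2 - 1) : ℕ) : ℝ) / 2 *
      ((x / (x + y)) * Real.log (x / (x + y)) +
        (1 - x / (x + y)) * Real.log (1 - x / (x + y))) := by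
    unfold phi
    rw [mul_zero, mul_zero, E_zero, E_zero, E_zero]
    have e1 : -(((k + 2) * (k + 2 - 1) : ℕ) : ℝ) / 2 = - NN (k + 2) := by unfold NN; ring
    rw [e1]
    rw [lb, la, lc] at hid
    set S := (x / (x + y)) * Real.log (x / (x + y)) +
        (1 - x / (x + y)) * Real.log (1 - x / (x + y))
    have hN' := hN.ne'
    have e2 := lin_aux (x / (x + y)) (Real.log (Gd (k + 2) (pr b univ)))
      (Real.log (Gd (k + 2) (pr a univ))) S (NN (k + 2)) hN'
    rw [e2] at hid
    have e3 := mul_left_cancel₀ (one_div_ne_zero hN') hid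
    rw [← e3]
    ring
  have hst := stam_eq_of_phi b a c hb ha hc h (x / (x + y)) hθ hθ' hphi
  match k, b, a, c, hb, ha, h, hc, hst with
  | 0, b, a, c, hb, ha, h, hc, hst =>
    have hne : b 0 - b 1 ≠ 0 := fun h => absurd (hb (by linarith : b 0 = b 1)) (by simp)
    refine hermite_of_affine b hb (sc b 0 - (sc b 0 - sc b 1) / (b 0 - b 1) * b 0)
      ((sc b 0 - sc b 1) / (b 0 - b 1)) ?_
    intro l
    have h2 : ∀ l : Fin (0 + 2), l = 0 ∨ l = 1 := by decide
    rcases h2 l with rfl | rfl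
    · ring
    · field_simp
      ring
  | n + 1, b, a, c, hb, ha, h, hc, hst =>
    obtain ⟨A, B', hAB⟩ := affine_score b a c hb ha hc h _ hθ hst
    exact hermite_of_affine b hb A B' hAB

/-- Q2 -/
theorem equality_case (d : ℕ) (hd : 2 ≤ d) (lam mu nu : Fin d → ℝ) (hl : 0 < Dis lam)
    (hm : 0 < Dis mu) (hnu : boxPlus d (rootPoly lam) (rootPoly mu) = rootPoly nu)
    (heq : Dis nu ^ (1 / (d.choose 2 : ℝ)) =
      Dis lam ^ (1 / (d.choose 2 : ℝ)) + Dis mu ^ (1 / (d.choose 2 : ℝ))) :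
    (∃ m v : ℝ, 0 ≤ v ∧ rootPoly lam = hermiteGen d m v) ∧
    (∃ m v : ℝ, 0 ≤ v ∧ rootPoly mu = hermiteGen d m v) := by
  obtain ⟨k, rfl⟩ : ∃ k, d = k + 2 := ⟨d - 2, by omega⟩
  have h1 : ∀ b : Fin (k + 2) → ℝ, (pr b univ).natDegree ≤ k + 2 := by
    intro b; rw [natDegree_pr]; simp
  simp only [rootPoly_eq] at *
  rw [boxPlus_eq _ _ _ (h1 _) (h1 _)] at hnu
  rw [← DD_eq, ← DD_eq, ← DD_eq] at heq
  have hb := injective_of_Dis lam hl
  have ha := injective_of_Dis mu hm
  refine ⟨equality_half lam mu nu hb ha hnu heq, ?_⟩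
  rw [nc_comm _ _ _ (h1 _) (h1 _)] at hnu
  exact equality_half mu lam nu ha hb hnu (heq.trans (add_comm _ _))

end Pool.Agent.X166.EP
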