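import Pool.Agent.X166.EP.T

open Polynomial Finset
open scoped ComplexOrder

set_option linter.unusedSectionVars false

namespace Pool.Agent.X166.EP

lemma aeval_conj' (F : ℝ[X]) (x : ℂ) :
    aeval ((starRingEnd ℂ) x) F = (starRingEnd ℂ) (aeval x F) := Polynomial.aeval_conj F x

lemma splits_of_real_roots {f : ℝ[X]} (hf : ∀ z : ℂ, aeval z f = 0 → z.im = 0) : f.Splits := by
  refine Splits.of_splits_map (algebraMap ℝ ℂ) (IsAlgClosed.splits _) ?_
  intro z hz
  have hz' : aeval z f = 0 := by
    have := (mem_roots'.1 hz).2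
    rw [IsRoot.def, eval_map_algebraMap] at this
    exact this
  have := hf z hz'
  exact ⟨z.re, by
    apply Complex.ext
    · simp
    · simp [this]⟩

lemma root_real_of_splits {f : ℝ[X]} (hf : f.Splits) (h0 : f ≠ 0) {z : ℂ} (hz : aeval z f = 0) :
    z.im = 0 := by
  have : (f.map (algebraMap ℝ ℂ)).IsRoot z := by
    rw [IsRoot.def, eval_map_algebraMap]; exact hz
  obtain ⟨x, rfl⟩ := hf.mem_range_of_isRoot h0 this
  simp

lemma splits_derivative {f : ℝ[X]} (hf : f.Splits) : (derivative f).Splits := by
  rw [splits_iff_card_roots] at *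
  have h1 := card_roots_le_derivative f
  have h2 := card_roots' (derivative f)
  have h3 := natDegree_derivative_le f
  omega

lemma exists_pr {f : ℝ[X]} {k : ℕ} (hf : f.Splits) (hm : f.Monic) (hd : f.natDegree = k) :
    ∃ c : Fin k → ℝ, f = pr c univ := by
  have h1 := hf.eq_prod_roots_of_monic hm
  have h2 : f.roots.toList.length = k := by
    rw [Multiset.length_toList, ← hd]
    exact hf.natDegree_eq_card_roots.symm
  subst h2
  refine ⟨fun i => f.roots.toList[i.1], ?_⟩
  have h3 : (f.roots.map (X - C ·)).prod = (f.roots.toList.map (X - C ·)).prod := by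
    conv_lhs => rw [← Multiset.coe_toList f.roots]
    rw [Multiset.map_coe, Multiset.prod_coe]
  have h4 := Fin.prod_univ_fun_getElem f.roots.toList (fun x => (X - C x : ℝ[X]))
  exact h1.trans (h3.trans h4.symm)

lemma splits_pr {ι : Type*} (c : ι → ℝ) (s : Finset ι) : (pr c s).Splits := by
  unfold pr
  exact Splits.prod fun i _ => Splits.X_sub_C _

lemma natDegree_B_le (k : ℕ) (f g : ℝ[X]) : (B k f g).natDegree ≤ f.natDegree := by
  unfold B
  refine natDegree_sum_le_of_forall_le _ _ fun l _ => ?_
  refine (natDegree_C_mul_le _ _).trans ?_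
  refine (natDegree_iterate_derivative _ _).trans (Nat.sub_le _ _)

lemma coeff_B_top (k : ℕ) (f g : ℝ[X]) (hf : f.natDegree ≤ k) :
    (B k f g).coeff k = k.factorial * f.coeff k * g.coeff k := by
  have h := coeff_B k f g k
  rw [Finset.sum_eq_single_of_mem 0 (by simp)] at h
  · have hk : (k.factorial : ℝ) ≠ 0 := by positivity
    apply mul_left_cancel₀ hk
    rw [h]
    simp
    ring
  · intro l _ hl
    rw [coeff_eq_zero_of_natDegree_lt (p := f) (n := k + l) (by omega)]
    ring

/-- normalised finite free convolution -/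
noncomputable def nc (k : ℕ) (f g : ℝ[X]) : ℝ[X] := C ((k.factorial : ℝ)⁻¹) * B k f g

lemma B_eq_nc (k : ℕ) (f g : ℝ[X]) : B k f g = C (k.factorial : ℝ) * nc k f g := by
  unfold nc
  rw [← mul_assoc, ← C_mul, mul_inv_cancel₀ (by positivity), C_1, one_mul]

lemma nc_monic {k : ℕ} {f g : ℝ[X]} (hf : f.Monic) (hg : g.Monic) (hfd : f.natDegree = k)
    (hgd : g.natDegree = k) : (nc k f g).Monic ∧ (nc k f g).natDegree = k := by
  have h1 : (nc k f g).natDegree ≤ k := by
    unfold nc
    exact (natDegree_C_mul_le _ _).trans ((natDegree_B_le k f g).trans hfd.le)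
  have h2 : (nc k f g).coeff k = 1 := by
    unfold nc
    rw [coeff_C_mul, coeff_B_top k f g hfd.le]
    have e1 : f.coeff k = 1 := by rw [← hfd]; exact hf
    have e2 : g.coeff k = 1 := by rw [← hgd]; exact hg
    rw [e1, e2]
    field_simp
  have h3 : (nc k f g).natDegree = k := by
    refine le_antisymm h1 (le_natDegree_of_ne_zero ?_)
    rw [h2]; exact one_ne_zero
  refine ⟨?_, h3⟩
  unfold Monic leadingCoeff
  rw [h3, h2]

lemma sq_conj (F : ℝ[X]) (z : ℂ) : Sq F z ((starRingEnd ℂ) z) = (Complex.normSq (aeval z F) : ℂ) := by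
  unfold Sq
  rw [aeval_conj', Complex.mul_conj]

lemma cone_conj {K : ℂ → ℂ → ℂ} (hK : K ∈ Cone) (z : ℂ) : 0 ≤ K z ((starRingEnd ℂ) z) := by
  have := cone_nonneg hK (univ : Finset Unit) (fun _ => z) (fun _ => 1)
  simpa using this

theorem B_splits (k : ℕ) : ∀ p q : ℝ[X], p.Monic → q.Monic → p.natDegree = k → q.natDegree = k →
    p.Splits → q.Splits → (B k p q).Splits := by
  induction k with
  | zero =>
    intro p q _ _ hp _ _ _
    apply Splits.of_natDegree_eq_zero
    have := natDegree_B_le 0 p q
    omega
  | succ k ih =>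
    intro p q hpm hqm hpd hqd hps hqs
    obtain ⟨b, rfl⟩ := exists_pr hps hpm hpd
    obtain ⟨a, rfl⟩ := exists_pr hqs hqm hqd
    apply splits_of_real_roots
    intro z hz
    by_contra hne
    obtain ⟨K, hK, hKe⟩ := top1 k b a univ univ (by simp) (by simp)
    have h1 := hKe z ((starRingEnd ℂ) z)
    rw [hz, aeval_conj', hz] at h1
    simp only [map_zero, mul_zero, zero_mul, sub_zero] at h1
    have h2 : (starRingEnd ℂ) z - z ≠ 0 := by
      intro h
      have := congrArg Complex.im h
      simp at this
      apply hne; linarith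
    have h3 := (mul_eq_zero.1 h1.symm).resolve_left h2
    have h4 := cone_conj hK z
    have h5 : ∀ i : Fin (k + 1), 0 ≤ Sq (B k (derivative (pr b univ)) (pr a (univ.erase i))) z
        ((starRingEnd ℂ) z) := by
      intro i
      rw [sq_conj]
      exact_mod_cast Complex.normSq_nonneg _
    have h6 : ∑ i : Fin (k + 1), Sq (B k (derivative (pr b univ)) (pr a (univ.erase i))) z
        ((starRingEnd ℂ) z) = 0 := by
      refine le_antisymm ?_ (Finset.sum_nonneg fun i _ => h5 i)
      rw [← h3]
      exact le_add_of_nonneg_right h4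
    have h7 := (Finset.sum_eq_zero_iff_of_nonneg fun i _ => h5 i).1 h6 0 (Finset.mem_univ _)
    rw [sq_conj] at h7
    have h8 : aeval z (B k (derivative (pr b univ)) (pr a (univ.erase 0))) = 0 := by
      rw [← Complex.normSq_eq_zero]; exact_mod_cast h7
    -- normalise derivative
    set p1 : ℝ[X] := C (((k : ℝ) + 1)⁻¹) * derivative (pr b univ) with hp1
    have hk : ((k : ℝ) + 1) ≠ 0 := by positivity
    have hc1 : (derivative (pr b univ)).coeff k = (k : ℝ) + 1 := by
      rw [coeff_derivative]
      have : (pr b univ).coeff (k + 1) = 1 := by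
        have := pr_monic b univ
        unfold Monic leadingCoeff at this
        rwa [hpd] at this
      rw [this, one_mul]
    have hdd : (derivative (pr b univ)).natDegree = k := by
      refine le_antisymm ?_ (le_natDegree_of_ne_zero ?_)
      · have := natDegree_derivative_le (pr b (univ : Finset (Fin (k + 1))))
        rw [hpd] at this
        exact this
      · rw [hc1]; exact hk
    have hp1d : p1.natDegree = k := by
      rw [hp1, natDegree_C_mul (inv_ne_zero hk), hdd]
    have hp1m : p1.Monic := by
      unfold Monic leadingCoeff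
      rw [hp1d, hp1, coeff_C_mul, hc1, inv_mul_cancel₀ hk]
    have hp1s : p1.Splits := (splits_derivative hps).C_mul _
    have hqe : (pr a (univ.erase (0 : Fin (k + 1)))).natDegree = k := by
      rw [natDegree_pr]; simp
    have h9 := ih p1 (pr a (univ.erase 0)) hp1m (pr_monic _ _) hp1d hqe hp1s (splits_pr _ _)
    have h10 : aeval z (B k p1 (pr a (univ.erase 0))) = 0 := by
      rw [hp1, B_C_left, map_mul, h8, mul_zero]
    have h11 : B k p1 (pr a (univ.erase 0)) ≠ 0 := by
      intro h
      have := (nc_monic hp1m (pr_monic a (univ.erase (0 : Fin (k + 1)))) hp1d hqe).1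
      unfold nc at this
      rw [h, mul_zero] at this
      exact not_monic_zero this
    exact hne (root_real_of_splits h9 h11 h10)

theorem exists_conv (k : ℕ) (b a : Fin k → ℝ) : ∃ c : Fin k → ℝ, nc k (pr b univ) (pr a univ) =
    pr c univ := by
  obtain ⟨h1, h2⟩ := nc_monic (k := k) (pr_monic b univ) (pr_monic a univ)
    (by rw [natDegree_pr]; simp) (by rw [natDegree_pr]; simp)
  refine exists_pr ?_ h1 h2
  unfold nc
  refine Splits.C_mul ?_ _
  exact B_splits k _ _ (pr_monic _ _) (pr_monic _ _) (by rw [natDegree_pr]; simp)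
    (by rw [natDegree_pr]; simp) (splits_pr _ _) (splits_pr _ _)

lemma diag_eval {G : ℂ → ℂ} (r : ℝ[X]) (x : ℂ) (hG : Continuous G)
    (h : ∀ y, aeval x (derivative r) * aeval y r - aeval x r * aeval y (derivative r) =
      (y - x) * G y) :
    G x = aeval x (derivative r) ^ 2 - aeval x r * aeval x (derivative (derivative r)) := by
  have h1 : HasDerivAt (fun y => (y - x) * G y) (G x) x := by
    rw [hasDerivAt_iff_tendsto_slope]
    have h2 : Filter.Tendsto G (nhdsWithin x {x}ᶜ) (nhds (G x)) :=
      hG.continuousAt.tendsto.mono_left nhdsWithin_le_nhds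
    refine h2.congr' ?_
    filter_upwards [self_mem_nhdsWithin] with y hy
    have hy' : y - x ≠ 0 := sub_ne_zero.2 hy
    rw [slope_def_field]
    field_simp
    ring
  have h3 : HasDerivAt (fun y => aeval x (derivative r) * aeval y r -
      aeval x r * aeval y (derivative r))
      (aeval x (derivative r) * aeval x (derivative r) -
        aeval x r * aeval x (derivative (derivative r))) x := by
    exact ((Polynomial.hasDerivAt_aeval r x).const_mul _).sub
      ((Polynomial.hasDerivAt_aeval (derivative r) x).const_mul _)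
  have h4 : (fun y => aeval x (derivative r) * aeval y r -
      aeval x r * aeval y (derivative r)) = fun y => (y - x) * G y := funext h
  rw [h4] at h3
  rw [h1.unique h3]
  ring

end Pool.Agent.X166.EP
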