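import Pool.Agent.X166.EP.R

open Polynomial Finset
open scoped ComplexOrder

set_option linter.unusedSectionVars false

namespace Pool.Agent.X166.EP

section lag
variable {ι : Type*} [DecidableEq ι]

lemma lag (T : Finset ι) (b : ι → ℝ) (hb : Set.InjOn b T) (f : ℝ[X]) (hf : f.degree < T.card) :
    f = ∑ i ∈ T, C (f.eval (b i) * ∏ j ∈ T.erase i, (b i - b j)⁻¹) * pr b (T.erase i) := by
  conv_lhs => rw [Lagrange.eq_interpolate hb hf]
  rw [Lagrange.interpolate_apply]
  refine Finset.sum_congr rfl fun i _ => ?_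
  rw [C_mul, mul_assoc]
  congr 1
  unfold Lagrange.basis Lagrange.basisDivisor pr
  rw [Finset.prod_mul_distrib]
  congr 1
  rw [map_prod]

end lag

section score
variable {ι : Type*} [DecidableEq ι] [Fintype ι]

/-- the score vector (the term `j = i` is `0⁻¹ = 0`) -/
noncomputable def sc (b : ι → ℝ) (i : ι) : ℝ := ∑ j, (b i - b j)⁻¹

lemma sc_sum (b : ι → ℝ) : ∑ i, sc b i = 0 := by
  unfold sc
  have h1 : ∑ i, ∑ j, (b i - b j)⁻¹ = ∑ i, ∑ j, (b j - b i)⁻¹ := Finset.sum_comm
  have h2 : ∑ i, ∑ j, (b j - b i)⁻¹ = - ∑ i, ∑ j, (b i - b j)⁻¹ := by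
    rw [← Finset.sum_neg_distrib]
    refine Finset.sum_congr rfl fun i _ => ?_
    rw [← Finset.sum_neg_distrib]
    refine Finset.sum_congr rfl fun j _ => ?_
    rw [← inv_neg, neg_sub]
  linarith

lemma score_sum (b : ι → ℝ) (hb : Function.Injective b) :
    ∑ l, C (sc b l) * pr b (univ.erase l) =
      C (1 / 2) * derivative (derivative (pr b univ)) := by
  have h1 : derivative (derivative (pr b univ)) =
      ∑ l, ∑ m, C ((b l - b m)⁻¹) * (pr b (univ.erase l) - pr b (univ.erase m)) := by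
    rw [derivative_pr, derivative_sum]
    refine Finset.sum_congr rfl fun l _ => ?_
    rw [derivative_pr]
    have h2 : ∑ m, C ((b l - b m)⁻¹) * (pr b (univ.erase l) - pr b (univ.erase m)) =
        ∑ m ∈ univ.erase l, C ((b l - b m)⁻¹) * (pr b (univ.erase l) - pr b (univ.erase m)) := by
      rw [Finset.sum_erase]
      simp
    rw [h2]
    refine Finset.sum_congr rfl fun m hm => ?_
    rw [pr_sub b (Finset.mem_univ l) (Finset.mem_univ m), ← mul_assoc, ← C_mul]
    have : b l - b m ≠ 0 := by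
      intro h
      exact (Finset.mem_erase.1 hm).1 (hb (by linarith))
    rw [inv_mul_cancel₀ this, C_1, one_mul]
  have h3 : ∑ l, ∑ m, C ((b l - b m)⁻¹) * (pr b (univ.erase l) - pr b (univ.erase m)) =
      ∑ l, C (sc b l) * pr b (univ.erase l) + ∑ l, C (sc b l) * pr b (univ.erase l) := by
    simp only [mul_sub, Finset.sum_sub_distrib]
    have h4 : ∑ l, ∑ m, C ((b l - b m)⁻¹) * pr b (univ.erase l) =
        ∑ l, C (sc b l) * pr b (univ.erase l) := by
      refine Finset.sum_congr rfl fun l _ => ?_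
      rw [← Finset.sum_mul, ← map_sum]; rfl
    have h5 : ∑ l, ∑ m, C ((b l - b m)⁻¹) * pr b (univ.erase m) =
        - ∑ l, C (sc b l) * pr b (univ.erase l) := by
      rw [Finset.sum_comm, ← Finset.sum_neg_distrib]
      refine Finset.sum_congr rfl fun m _ => ?_
      rw [← Finset.sum_mul, ← map_sum, ← neg_mul, ← C_neg]
      congr 2
      unfold sc
      rw [← Finset.sum_neg_distrib]
      refine Finset.sum_congr rfl fun j _ => ?_
      rw [← inv_neg, neg_sub]
    rw [h4, h5]; ring
  rw [h1, h3, ← two_mul, ← mul_assoc]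
  have : (C (1 / 2) * 2 : ℝ[X]) = 1 := by
    have : (2 : ℝ[X]) = C 2 := rfl
    rw [this, ← C_mul]; norm_num
  rw [this, one_mul]

lemma eval_pr_erase_ne (b : ι → ℝ) {l e : ι} (h : l ≠ e) :
    (pr b (univ.erase l)).eval (b e) = 0 := by
  unfold pr
  rw [eval_prod]
  exact Finset.prod_eq_zero (Finset.mem_erase.2 ⟨fun h' => h h'.symm, Finset.mem_univ _⟩)
    (by simp)

lemma eval_derivative_pr (b : ι → ℝ) (e : ι) :
    (derivative (pr b univ)).eval (b e) = (pr b (univ.erase e)).eval (b e) := by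
  rw [derivative_pr, eval_finsetSum]
  rw [Finset.sum_eq_single e]
  · intro l _ hl
    exact eval_pr_erase_ne b hl
  · simp

lemma eval_pr_self (b : ι → ℝ) (e : ι) : (pr b univ).eval (b e) = 0 := by
  rw [pr_erase b (Finset.mem_univ e)]; simp

lemma eval_pr_erase_ne_zero (b : ι → ℝ) (hb : Function.Injective b) (e : ι) :
    (pr b (univ.erase e)).eval (b e) ≠ 0 := by
  unfold pr
  rw [eval_prod, Finset.prod_ne_zero_iff]
  intro j hj
  rw [eval_sub, eval_X, eval_C]
  intro h
  exact (Finset.mem_erase.1 hj).1 (hb (by linarith))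

lemma eval_second (b : ι → ℝ) (hb : Function.Injective b) (e : ι) :
    (derivative (derivative (pr b univ))).eval (b e) =
      2 * sc b e * (derivative (pr b univ)).eval (b e) := by
  have h := congrArg (Polynomial.eval (b e)) (score_sum b hb)
  rw [eval_finsetSum, Finset.sum_eq_single e] at h
  · rw [eval_mul, eval_mul, eval_C, eval_C, ← eval_derivative_pr] at h
    linarith
  · intro l _ hl
    rw [eval_mul, eval_pr_erase_ne b hl, mul_zero]
  · simp

end score

/-- evaluation functional -/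
noncomputable def om {ι : Type*} [Fintype ι] (c W : ι → ℝ) : ℝ[X] →ₗ[ℝ] ℝ where
  toFun F := ∑ e, W e * F.eval (c e)
  map_add' F G := by simp [mul_add, Finset.sum_add_distrib]
  map_smul' r F := by
    simp only [eval_smul, smul_eq_mul, RingHom.id_apply, Finset.mul_sum]
    refine Finset.sum_congr rfl fun e _ => by ring

/-- quadratic evaluation of kernels -/
noncomputable def Qf {ι : Type*} [Fintype ι] (c W : ι → ℝ) : (ℂ → ℂ → ℂ) →ₗ[ℂ] ℂ where
  toFun K := ∑ e, ∑ f, (W e : ℂ) * W f * K (c e) (c f)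
  map_add' F G := by simp [mul_add, Finset.sum_add_distrib]
  map_smul' r F := by
    simp only [Pi.smul_apply, smul_eq_mul, RingHom.id_apply, Finset.mul_sum]
    refine Finset.sum_congr rfl fun e _ => Finset.sum_congr rfl fun f _ => by ring

lemma aeval_real (F : ℝ[X]) (x : ℝ) : aeval (x : ℂ) F = ((F.eval x : ℝ) : ℂ) := by
  have := Polynomial.aeval_algebraMap_apply ℂ x F
  simpa using this

lemma Qf_Sq {ι : Type*} [Fintype ι] (c W : ι → ℝ) (F : ℝ[X]) :
    Qf c W (Sq F) = ((om c W F : ℝ) : ℂ) ^ 2 := by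
  show ∑ e, ∑ f, (W e : ℂ) * W f * Sq F (c e) (c f) = (((∑ e, W e * F.eval (c e) : ℝ)) : ℂ) ^ 2
  rw [sq]
  push_cast
  rw [Finset.sum_mul_sum]
  refine Finset.sum_congr rfl fun e _ => Finset.sum_congr rfl fun f _ => ?_
  unfold Sq
  rw [aeval_real, aeval_real]
  ring

lemma Qf_nonneg {ι : Type*} [Fintype ι] (c W : ι → ℝ) {K : ℂ → ℂ → ℂ} (hK : K ∈ Cone) :
    0 ≤ Qf c W K := by
  have := cone_nonneg hK (univ : Finset ι) (fun e => (c e : ℂ)) (fun e => (W e : ℂ))
  simpa [Qf] using this

/-- The bracket in `top2`. -/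
noncomputable def bra (k : ℕ) (b a : Fin (k + 2) → ℝ) : ℂ → ℂ → ℂ :=
  (∑ i, Sq (B (k + 1) (derivative (pr b univ)) (pr a (univ.erase i)))) +
      (∑ l, Sq (B (k + 1) (pr b (univ.erase l)) (derivative (pr a univ)))) -
      (1 / ((k : ℂ) + 2)) • Sq (derivative (B (k + 2) (pr b univ) (pr a univ))) +
      (∑ i, ∑ l, ∑ m, ∑ j ∈ univ.erase i, ∑ j' ∈ univ.erase i,
        ((1 / 4) * ((b l : ℂ) - b m) ^ 2 * ((a j : ℂ) - a j') ^ 2) •
        Sq (B (k - 1) (pr a (((univ.erase i).erase j).erase j'))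
          (derivative (pr b ((univ.erase l).erase m)))))

lemma Sq_continuous (F : ℝ[X]) (x : ℂ) : Continuous (Sq F x) := cone_continuous (Sq_mem F) x

lemma bra_continuous (k : ℕ) (b a : Fin (k + 2) → ℝ) (x : ℂ) : Continuous (bra k b a x) := by
  have : ∀ y, bra k b a x y = (∑ i, Sq (B (k + 1) (derivative (pr b univ)) (pr a (univ.erase i))) x y) +
      (∑ l, Sq (B (k + 1) (pr b (univ.erase l)) (derivative (pr a univ))) x y) -
      (1 / ((k : ℂ) + 2)) * Sq (derivative (B (k + 2) (pr b univ) (pr a univ))) x y +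
      (∑ i, ∑ l, ∑ m, ∑ j ∈ univ.erase i, ∑ j' ∈ univ.erase i,
        ((1 / 4) * ((b l : ℂ) - b m) ^ 2 * ((a j : ℂ) - a j') ^ 2) *
        Sq (B (k - 1) (pr a (((univ.erase i).erase j).erase j'))
          (derivative (pr b ((univ.erase l).erase m)))) x y) := by
    intro y
    simp [bra, Finset.sum_apply]
  have h2 : bra k b a x = fun y => _ := funext this
  rw [h2]
  refine ((continuous_finsetSum _ fun i _ => Sq_continuous _ _).add
    (continuous_finsetSum _ fun i _ => Sq_continuous _ _)).sub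
    (continuous_const.mul (Sq_continuous _ _)) |>.add ?_
  refine continuous_finsetSum _ fun i _ => continuous_finsetSum _ fun l _ =>
    continuous_finsetSum _ fun m _ => continuous_finsetSum _ fun j _ =>
    continuous_finsetSum _ fun j' _ => continuous_const.mul (Sq_continuous _ _)

lemma top2' (k : ℕ) (b a : Fin (k + 2) → ℝ) : ∃ K ∈ Cone, ∀ x y : ℂ,
    aeval x (derivative (B (k + 2) (pr b univ) (pr a univ))) *
      aeval y (B (k + 2) (pr b univ) (pr a univ)) -
    aeval x (B (k + 2) (pr b univ) (pr a univ)) *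
      aeval y (derivative (B (k + 2) (pr b univ) (pr a univ))) =
    (y - x) * (bra k b a + K) x y := by
  obtain ⟨K, hK, hKe⟩ := top2 k b a univ univ (by simp) (by simp)
  refine ⟨K, hK, fun x y => ?_⟩
  rw [hKe x y]
  congr 1
  simp [bra, Finset.sum_apply]

lemma bra_diag (k : ℕ) (b a : Fin (k + 2) → ℝ) {K : ℂ → ℂ → ℂ} (hK : K ∈ Cone)
    (h : ∀ x y : ℂ,
    aeval x (derivative (B (k + 2) (pr b univ) (pr a univ))) *
      aeval y (B (k + 2) (pr b univ) (pr a univ)) -
    aeval x (B (k + 2) (pr b univ) (pr a univ)) *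
      aeval y (derivative (B (k + 2) (pr b univ) (pr a univ))) =
    (y - x) * (bra k b a + K) x y) (x : ℂ)
    (hx : aeval x (B (k + 2) (pr b univ) (pr a univ)) = 0) :
    (bra k b a + K) x x = aeval x (derivative (B (k + 2) (pr b univ) (pr a univ))) ^ 2 := by
  have := diag_eval (G := (bra k b a + K) x) _ x
    ((bra_continuous k b a x).add (cone_continuous hK x)) (h x)
  rw [this, hx]
  ring

lemma sc_d (k : ℕ) : ((k : ℂ) + 2) = (((k : ℝ) + 2 : ℝ) : ℂ) := by push_cast; ring

/-- value of the quadratic form on the bracket -/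
lemma Qf_bra (k : ℕ) (b a : Fin (k + 2) → ℝ) {ι : Type*} [Fintype ι] (c W : ι → ℝ) :
    Qf c W (bra k b a) = (((∑ i, om c W (B (k + 1) (derivative (pr b univ))
        (pr a (univ.erase i))) ^ 2) +
      (∑ l, om c W (B (k + 1) (pr b (univ.erase l)) (derivative (pr a univ))) ^ 2) -
      (1 / ((k : ℝ) + 2)) * om c W (derivative (B (k + 2) (pr b univ) (pr a univ))) ^ 2 +
      (∑ i, ∑ l, ∑ m, ∑ j ∈ univ.erase i, ∑ j' ∈ univ.erase i,
        ((1 / 4) * (b l - b m) ^ 2 * (a j - a j') ^ 2) *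
        om c W (B (k - 1) (pr a (((univ.erase i).erase j).erase j'))
          (derivative (pr b ((univ.erase l).erase m)))) ^ 2) : ℝ) : ℂ) := by
  unfold bra
  simp only [map_add, map_sub, map_sum, map_smul, Qf_Sq, smul_eq_mul]
  push_cast
  rfl

/-- The main quadratic inequality. -/
theorem stam_ineq (k : ℕ) (b a c : Fin (k + 2) → ℝ) (hc : Function.Injective c)
    (h : nc (k + 2) (pr b univ) (pr a univ) = pr c univ) (w : Fin (k + 2) → ℝ) (W : Fin (k + 2) → ℝ)
    (hW : W = fun e => w e / (derivative (B (k + 2) (pr b univ) (pr a univ))).eval (c e)) :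
    (∑ i, om c W (B (k + 1) (derivative (pr b univ)) (pr a (univ.erase i))) ^ 2) +
      (∑ l, om c W (B (k + 1) (pr b (univ.erase l)) (derivative (pr a univ))) ^ 2) -
      (1 / ((k : ℝ) + 2)) * (∑ e, w e) ^ 2 +
      (∑ i, ∑ l, ∑ m, ∑ j ∈ univ.erase i, ∑ j' ∈ univ.erase i,
        ((1 / 4) * (b l - b m) ^ 2 * (a j - a j') ^ 2) *
        om c W (B (k - 1) (pr a (((univ.erase i).erase j).erase j'))
          (derivative (pr b ((univ.erase l).erase m)))) ^ 2) ≤ ∑ e, w e ^ 2 := by
  set r := B (k + 2) (pr b univ) (pr a univ) with hr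
  have hrc : r = C ((k + 2).factorial : ℝ) * pr c univ := by rw [hr, B_eq_nc, h]
  have hr0 : ∀ e, r.eval (c e) = 0 := by
    intro e; rw [hrc, eval_mul, eval_pr_self, mul_zero]
  have hr1 : ∀ e, (derivative r).eval (c e) ≠ 0 := by
    intro e
    rw [hrc, derivative_C_mul, eval_mul, eval_C, eval_derivative_pr]
    exact mul_ne_zero (by positivity) (eval_pr_erase_ne_zero c hc e)
  have homr : om c W (derivative r) = ∑ e, w e := by
    show ∑ e, W e * (derivative r).eval (c e) = ∑ e, w e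
    refine Finset.sum_congr rfl fun e _ => ?_
    rw [hW]
    exact div_mul_cancel₀ _ (hr1 e)
  obtain ⟨K, hK, hKe⟩ := top2' k b a
  have hQ : Qf c W (bra k b a + K) = ((∑ e, w e ^ 2 : ℝ) : ℂ) := by
    show ∑ e, ∑ f, (W e : ℂ) * W f * (bra k b a + K) (c e) (c f) = _
    push_cast
    refine Finset.sum_congr rfl fun e _ => ?_
    rw [Finset.sum_eq_single e]
    · rw [bra_diag k b a hK hKe (c e) (by rw [← hr, aeval_real, hr0]; simp), ← hr, aeval_real, hW]
      have := hr1 e
      have h' : (((derivative r).eval (c e) : ℝ) : ℂ) ≠ 0 := by exact_mod_cast this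
      push_cast
      field_simp
    · intro f _ hf
      have h1 := hKe (c e) (c f)
      rw [← hr, aeval_real r, aeval_real r, hr0, hr0] at h1
      simp only [Complex.ofReal_zero, mul_zero, zero_mul, sub_zero] at h1
      have h2 : (c f : ℂ) - c e ≠ 0 := by
        intro h3
        have h4 : (c f : ℂ) = c e := sub_eq_zero.1 h3
        exact hf (hc (by exact_mod_cast h4))
      rw [(mul_eq_zero.1 h1.symm).resolve_left h2, mul_zero]
    · simp
  rw [map_add, Qf_bra, ← hr, homr] at hQ
  have h5 := Qf_nonneg c W hK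
  have h6 : Qf c W K = ((∑ e, w e ^ 2 : ℝ) : ℂ) - _ := eq_sub_of_add_eq' hQ
  rw [h6, sub_nonneg] at h5
  exact_mod_cast h5

end Pool.Agent.X166.EP
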