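import Pool.Agent.X166.EP.K

open Polynomial Finset
open scoped ComplexOrder

set_option linter.unusedSectionVars false

namespace Pool.Agent.X166.EP

variable {ι : Type*} [DecidableEq ι]

lemma derivative_B_eq (k : ℕ) (b : ι → ℝ) (s : Finset ι) (hs : s.card = k + 1) (g : ℝ[X]) :
    derivative (B (k + 1) (pr b s) g) = B k (derivative (pr b s)) (derivative g) := by
  rw [B_deriv]
  apply B_succ_right
  have := natDegree_derivative_le (pr b s)
  rw [natDegree_pr, hs] at this
  omega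

lemma derivative_B_eq_sum_right (k : ℕ) (b a : ι → ℝ) (s t : Finset ι) (hs : s.card = k + 1) :
    derivative (B (k + 1) (pr b s) (pr a t)) =
      ∑ i ∈ t, B k (derivative (pr b s)) (pr a (t.erase i)) := by
  rw [derivative_B_eq k b s hs, derivative_pr a t, B_sum_right]

lemma derivative_B_eq_sum_left (k : ℕ) (b a : ι → ℝ) (s t : Finset ι) (hs : s.card = k + 1) :
    derivative (B (k + 1) (pr b s) (pr a t)) =
      ∑ l ∈ s, B k (pr b (s.erase l)) (derivative (pr a t)) := by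
  rw [derivative_B_eq k b s hs, derivative_pr b s, B_sum_left]

lemma X_deriv_natDegree_le (k : ℕ) (b : ι → ℝ) (s : Finset ι) (hs : s.card = k + 1) :
    (X * derivative (pr b s) - C ((k : ℝ) + 1) * pr b s).natDegree ≤ k := by
  have := X_mul_derivative_pr b s
  rw [hs] at this
  push_cast at this
  rw [C_add, C_1] at *
  rw [this]
  refine (natDegree_sum_le_of_forall_le (n := k) _ _ fun l hl => ?_)
  refine (natDegree_C_mul_le _ _).trans ?_
  rw [natDegree_pr, Finset.card_erase_of_mem hl, hs]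
  rfl

lemma bez_eq (k : ℕ) (b a : ι → ℝ) (s t : Finset ι) (hs : s.card = k + 1) (ht : t.card = k + 1)
    (x y : ℂ) :
    aeval x (derivative (B (k + 1) (pr b s) (pr a t))) * aeval y (B (k + 1) (pr b s) (pr a t)) -
    aeval x (B (k + 1) (pr b s) (pr a t)) * aeval y (derivative (B (k + 1) (pr b s) (pr a t))) =
    ∑ i ∈ t, ((y - x) * Sq (B k (derivative (pr b s)) (pr a (t.erase i))) x y +
      Z k (pr a (t.erase i)) (pr b s) x y) := by
  have hr : ∀ i ∈ t, B (k + 1) (pr b s) (pr a t) =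
      (X - C (a i)) * B k (derivative (pr b s)) (pr a (t.erase i)) -
      B k (pr a (t.erase i)) (X * derivative (pr b s) - C ((k : ℝ) + 1) * pr b s) := by
    intro i hi
    have hdeg : (pr a (t.erase i)).natDegree ≤ k := by
      rw [natDegree_pr, Finset.card_erase_of_mem hi, ht]; rfl
    rw [B_comm k (pr a (t.erase i)) _ hdeg (X_deriv_natDegree_le k b s hs),
      ← B_X_sub_C_mul k _ _ _ hdeg, ← pr_erase a hi]
  have hr' := derivative_B_eq_sum_right k b a s t hs
  set r := B (k + 1) (pr b s) (pr a t)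
  rw [hr']
  simp only [map_sum]
  rw [Finset.sum_mul, Finset.mul_sum, ← Finset.sum_sub_distrib]
  refine Finset.sum_congr rfl fun i hi => ?_
  have hs'deg : (derivative (pr b s)).natDegree ≤ k := by
    have := natDegree_derivative_le (pr b s)
    rw [natDegree_pr] at this
    omega
  have hdeg : (pr a (t.erase i)).natDegree ≤ k := by
    rw [natDegree_pr, Finset.card_erase_of_mem hi, ht]; rfl
  rw [hr i hi]
  unfold Z Sq
  rw [← B_comm k _ (pr a (t.erase i)) hs'deg hdeg]
  simp only [map_sub, map_mul, aeval_X, aeval_C, Complex.coe_algebraMap]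
  ring

/-- first sum of squares statement -/
theorem top1 (k : ℕ) (b a : ι → ℝ) (s t : Finset ι) (hs : s.card = k + 1) (ht : t.card = k + 1) :
    ∃ K ∈ Cone, ∀ x y : ℂ,
    aeval x (derivative (B (k + 1) (pr b s) (pr a t))) * aeval y (B (k + 1) (pr b s) (pr a t)) -
    aeval x (B (k + 1) (pr b s) (pr a t)) * aeval y (derivative (B (k + 1) (pr b s) (pr a t))) =
    (y - x) * ((∑ i ∈ t, Sq (B k (derivative (pr b s)) (pr a (t.erase i))) x y) + K x y) := by
  have hK : ∀ i : ι, ∃ K ∈ Cone, i ∈ t → ∀ x y : ℂ,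
      Z k (pr a (t.erase i)) (pr b s) x y = (y - x) * K x y := by
    intro i
    by_cases hi : i ∈ t
    · obtain ⟨K, hK, hKe⟩ := kernel k a b (t.erase i) s
        (by rw [Finset.card_erase_of_mem hi, ht]; rfl) hs
      refine ⟨_, add_mem (sum_mem fun j (_ : j ∈ s) => sum_mem fun j' (_ : j' ∈ s) =>
          smul_mem (Sq_mem (B (k - 1) (pr b ((s.erase j).erase j'))
            (derivative (pr a (t.erase i)))))
            (c := (1 / 2) * (b j - b j') ^ 2) (by positivity)) hK, ?_⟩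
      intro _ x y
      rw [hKe x y]
      simp only [Pi.add_apply, Finset.sum_apply]
      push_cast
      ring
    · exact ⟨0, zero_mem _, fun h => absurd h hi⟩
  choose K hKm hKe using hK
  refine ⟨_, sum_mem fun i (_ : i ∈ t) => hKm i, ?_⟩
  intro x y
  rw [bez_eq k b a s t hs ht x y]
  simp only [Finset.sum_apply]
  rw [← Finset.sum_add_distrib, Finset.mul_sum]
  refine Finset.sum_congr rfl fun i hi => ?_
  rw [hKe i hi x y]
  ring

lemma sum_sq_expand (t : Finset ι) (u v : ι → ℂ) :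
    ∑ i ∈ t, ∑ j ∈ t, (u i - u j) * (v i - v j) =
      2 * t.card * (∑ i ∈ t, u i * v i) - 2 * (∑ i ∈ t, u i) * ∑ i ∈ t, v i := by
  have h1 : ∀ i j, (u i - u j) * (v i - v j) = u i * v i + u j * v j - u i * v j - u j * v i := by
    intro i j; ring
  simp only [h1, Finset.sum_sub_distrib, Finset.sum_add_distrib, Finset.sum_const, nsmul_eq_mul]
  rw [← Finset.mul_sum, ← Finset.sum_mul_sum]
  have : ∑ i ∈ t, ∑ j ∈ t, u j * v i = (∑ i ∈ t, u i) * ∑ i ∈ t, v i := by
    rw [Finset.sum_comm, ← Finset.sum_mul_sum]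
  rw [this]
  ring

/-- second sum of squares statement -/
theorem top2 (k : ℕ) (b a : ι → ℝ) (s t : Finset ι) (hs : s.card = k + 2) (ht : t.card = k + 2) :
    ∃ K ∈ Cone, ∀ x y : ℂ,
    aeval x (derivative (B (k + 2) (pr b s) (pr a t))) * aeval y (B (k + 2) (pr b s) (pr a t)) -
    aeval x (B (k + 2) (pr b s) (pr a t)) * aeval y (derivative (B (k + 2) (pr b s) (pr a t))) =
    (y - x) * ((∑ i ∈ t, Sq (B (k + 1) (derivative (pr b s)) (pr a (t.erase i))) x y) +
      (∑ l ∈ s, Sq (B (k + 1) (pr b (s.erase l)) (derivative (pr a t))) x y) -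
      (1 / ((k : ℂ) + 2)) * Sq (derivative (B (k + 2) (pr b s) (pr a t))) x y +
      (∑ i ∈ t, ∑ l ∈ s, ∑ m ∈ s, ∑ j ∈ t.erase i, ∑ j' ∈ t.erase i,
        (1 / 4) * ((b l : ℂ) - b m) ^ 2 * ((a j : ℂ) - a j') ^ 2 *
        Sq (B (k - 1) (pr a (((t.erase i).erase j).erase j'))
          (derivative (pr b ((s.erase l).erase m)))) x y) + K x y) := by
  have hK : ∀ i l m : ι, ∃ K ∈ Cone, i ∈ t → l ∈ s → m ∈ s → l ≠ m → ∀ x y : ℂ,
      Z k (pr b ((s.erase l).erase m)) (pr a (t.erase i)) x y = (y - x) *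
      ((∑ j ∈ t.erase i, ∑ j' ∈ t.erase i, (1 / 2) * ((a j : ℂ) - a j') ^ 2 *
        Sq (B (k - 1) (pr a (((t.erase i).erase j).erase j'))
          (derivative (pr b ((s.erase l).erase m)))) x y) + K x y) := by
    intro i l m
    by_cases h : i ∈ t ∧ l ∈ s ∧ m ∈ s ∧ l ≠ m
    · obtain ⟨hi, hl, hm, hne⟩ := h
      have hme : m ∈ s.erase l := Finset.mem_erase.2 ⟨fun h => hne h.symm, hm⟩
      obtain ⟨K, hK, hKe⟩ := kernel k b a ((s.erase l).erase m) (t.erase i)
        (by rw [Finset.card_erase_of_mem hme, Finset.card_erase_of_mem hl, hs]; rfl)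
        (by rw [Finset.card_erase_of_mem hi, ht]; rfl)
      exact ⟨K, hK, fun _ _ _ _ => hKe⟩
    · exact ⟨0, zero_mem _, fun h1 h2 h3 h4 => absurd ⟨h1, h2, h3, h4⟩ h⟩
  choose K hKm hKe using hK
  -- the difference of U's
  let U : ι → ι → ι → ℝ[X] := fun i l m =>
    B k (pr b ((s.erase l).erase m)) (derivative (pr a (t.erase i)))
  have hd0 : (0 : ℝ) ≤ 1 / (2 * ((k : ℝ) + 2)) := by positivity
  refine ⟨_, add_mem (sum_mem fun l (_ : l ∈ s) => sum_mem fun m (_ : m ∈ s) =>
      sum_mem fun i (_ : i ∈ t) => sum_mem fun j (_ : j ∈ t) =>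
      smul_mem (Sq_mem (U i l m - U j l m))
      (c := (1 / 2) * (b l - b m) ^ 2 * (1 / (2 * ((k : ℝ) + 2)))) (by positivity))
    (sum_mem fun i (_ : i ∈ t) => sum_mem fun l (_ : l ∈ s) => sum_mem fun m (_ : m ∈ s) =>
      smul_mem (hKm i l m) (c := (1 / 2) * (b l - b m) ^ 2) (by positivity)), ?_⟩
  intro x y
  rw [bez_eq (k + 1) b a s t hs ht x y]
  have hL : ∀ l ∈ s, ∀ m ∈ s, B (k + 1) (pr b (s.erase l)) (derivative (pr a t)) -
      B (k + 1) (pr b (s.erase m)) (derivative (pr a t)) = C (b l - b m) * ∑ i ∈ t, U i l m := by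
    intro l hl m hm
    by_cases hlm : l = m
    · subst hlm; simp
    have hme : m ∈ s.erase l := Finset.mem_erase.2 ⟨fun h => hlm h.symm, hm⟩
    rw [← B_sub_left, pr_sub b hl hm, B_C_left, derivative_pr a t, B_sum_right]
    congr 1
    refine Finset.sum_congr rfl fun i _ => ?_
    apply B_succ_right
    rw [natDegree_pr, Finset.card_erase_of_mem hme, Finset.card_erase_of_mem hl, hs]; rfl
  have hr' := derivative_B_eq_sum_left (k + 1) b a s t hs
  have hd : ((k : ℂ) + 2) ≠ 0 := by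
    have : ((k : ℂ) + 2) = ((k + 2 : ℕ) : ℂ) := by push_cast; ring
    rw [this]; exact_mod_cast (by omega : k + 2 ≠ 0)
  -- key numeric identity
  have key : ∑ i ∈ t, ∑ l ∈ s, ∑ m ∈ s, (1 / 2) * ((b l : ℂ) - b m) ^ 2 * Sq (U i l m) x y =
      (∑ l ∈ s, Sq (B (k + 1) (pr b (s.erase l)) (derivative (pr a t))) x y) -
      (1 / ((k : ℂ) + 2)) * Sq (derivative (B (k + 2) (pr b s) (pr a t))) x y +
      ∑ l ∈ s, ∑ m ∈ s, ∑ i ∈ t, ∑ j ∈ t,
        (((1 / 2) * (b l - b m) ^ 2 * (1 / (2 * ((k : ℝ) + 2))) : ℝ) : ℂ) *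
          Sq (U i l m - U j l m) x y := by
    have e1 : (∑ l ∈ s, Sq (B (k + 1) (pr b (s.erase l)) (derivative (pr a t))) x y) -
      (1 / ((k : ℂ) + 2)) * Sq (derivative (B (k + 2) (pr b s) (pr a t))) x y =
      (1 / (2 * ((k : ℂ) + 2))) * ∑ l ∈ s, ∑ m ∈ s,
        ((b l : ℂ) - b m) ^ 2 * ((∑ i ∈ t, aeval x (U i l m)) * (∑ i ∈ t, aeval y (U i l m))) := by
      have e2 := sum_sq_expand s
        (fun l => aeval x (B (k + 1) (pr b (s.erase l)) (derivative (pr a t))))
        (fun l => aeval y (B (k + 1) (pr b (s.erase l)) (derivative (pr a t))))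
      have e3 : ∑ l ∈ s, ∑ m ∈ s,
        ((b l : ℂ) - b m) ^ 2 * ((∑ i ∈ t, aeval x (U i l m)) * (∑ i ∈ t, aeval y (U i l m))) =
        ∑ l ∈ s, ∑ m ∈ s, (aeval x (B (k + 1) (pr b (s.erase l)) (derivative (pr a t))) -
          aeval x (B (k + 1) (pr b (s.erase m)) (derivative (pr a t)))) *
          (aeval y (B (k + 1) (pr b (s.erase l)) (derivative (pr a t))) -
          aeval y (B (k + 1) (pr b (s.erase m)) (derivative (pr a t)))) := by
        refine Finset.sum_congr rfl fun l hl => Finset.sum_congr rfl fun m hm => ?_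
        rw [← map_sub, ← map_sub, hL l hl m hm]
        simp only [map_mul, aeval_C, map_sum, map_sub, Complex.coe_algebraMap]
        ring
      rw [e3, e2, hr']
      unfold Sq
      simp only [map_sum]
      rw [hs]
      push_cast
      field_simp
    rw [e1]
    have e4 : ∑ i ∈ t, ∑ l ∈ s, ∑ m ∈ s, (1 / 2) * ((b l : ℂ) - b m) ^ 2 * Sq (U i l m) x y =
        ∑ l ∈ s, ∑ m ∈ s, (1 / 2) * ((b l : ℂ) - b m) ^ 2 * ∑ i ∈ t, Sq (U i l m) x y := by
      rw [Finset.sum_comm]
      refine Finset.sum_congr rfl fun l _ => ?_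
      rw [Finset.sum_comm]
      refine Finset.sum_congr rfl fun m _ => ?_
      rw [Finset.mul_sum]
    rw [e4, Finset.mul_sum, ← Finset.sum_add_distrib]
    refine Finset.sum_congr rfl fun l _ => ?_
    rw [Finset.mul_sum, ← Finset.sum_add_distrib]
    refine Finset.sum_congr rfl fun m _ => ?_
    have e5 := sum_sq_expand t (fun i => aeval x (U i l m)) (fun i => aeval y (U i l m))
    have e6 : ∑ i ∈ t, ∑ j ∈ t, (((1 / 2) * (b l - b m) ^ 2 * (1 / (2 * ((k : ℝ) + 2))) : ℝ) : ℂ) *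
          Sq (U i l m - U j l m) x y =
        (((1 / 2) * (b l - b m) ^ 2 * (1 / (2 * ((k : ℝ) + 2))) : ℝ) : ℂ) *
        ∑ i ∈ t, ∑ j ∈ t, (aeval x (U i l m) - aeval x (U j l m)) *
          (aeval y (U i l m) - aeval y (U j l m)) := by
      simp only [Finset.mul_sum, Sq, map_sub]
    rw [e6, e5, ht]
    unfold Sq
    push_cast
    field_simp
    ring
  have h7 : ∑ i ∈ t, ((y - x) * Sq (B (k + 1) (derivative (pr b s)) (pr a (t.erase i))) x y +
      Z (k + 1) (pr a (t.erase i)) (pr b s) x y) = (y - x) *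
      ((∑ i ∈ t, Sq (B (k + 1) (derivative (pr b s)) (pr a (t.erase i))) x y) +
      (∑ i ∈ t, ∑ l ∈ s, ∑ m ∈ s, (1 / 2) * ((b l : ℂ) - b m) ^ 2 * Sq (U i l m) x y) +
      (∑ i ∈ t, ∑ l ∈ s, ∑ m ∈ s, ∑ j ∈ t.erase i, ∑ j' ∈ t.erase i,
        (1 / 4) * ((b l : ℂ) - b m) ^ 2 * ((a j : ℂ) - a j') ^ 2 *
        Sq (B (k - 1) (pr a (((t.erase i).erase j).erase j'))
          (derivative (pr b ((s.erase l).erase m)))) x y) +
      ∑ i ∈ t, ∑ l ∈ s, ∑ m ∈ s, (((1 / 2) * (b l - b m) ^ 2 : ℝ) : ℂ) * K i l m x y) := by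
    rw [← Finset.sum_add_distrib, ← Finset.sum_add_distrib, ← Finset.sum_add_distrib,
      Finset.mul_sum]
    refine Finset.sum_congr rfl fun i hi => ?_
    rw [add_assoc, add_assoc, mul_add]
    congr 1
    rw [Z_step k a b (t.erase i) s (by rw [Finset.card_erase_of_mem hi, ht]; rfl) hs]
    rw [← Finset.sum_add_distrib, ← Finset.sum_add_distrib, Finset.mul_sum]
    refine Finset.sum_congr rfl fun l hl => ?_
    rw [← Finset.sum_add_distrib, ← Finset.sum_add_distrib, Finset.mul_sum]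
    refine Finset.sum_congr rfl fun m hm => ?_
    by_cases hlm : l = m
    · subst hlm; simp
    rw [hKe i l m hi hl hm hlm x y]
    have : ∑ j ∈ t.erase i, ∑ j' ∈ t.erase i,
        (1 / 4) * ((b l : ℂ) - b m) ^ 2 * ((a j : ℂ) - a j') ^ 2 *
        Sq (B (k - 1) (pr a (((t.erase i).erase j).erase j'))
          (derivative (pr b ((s.erase l).erase m)))) x y =
        (1 / 2) * ((b l : ℂ) - b m) ^ 2 * ∑ j ∈ t.erase i, ∑ j' ∈ t.erase i,
        (1 / 2) * ((a j : ℂ) - a j') ^ 2 *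
        Sq (B (k - 1) (pr a (((t.erase i).erase j).erase j'))
          (derivative (pr b ((s.erase l).erase m)))) x y := by
      simp only [Finset.mul_sum]
      refine Finset.sum_congr rfl fun j _ => Finset.sum_congr rfl fun j' _ => ?_
      ring
    rw [this]
    push_cast
    ring
  rw [h7, key]
  simp only [Pi.add_apply, Finset.sum_apply]
  ring

end Pool.Agent.X166.EP
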