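import Pool.Agent.X166.EP.S

open Polynomial Finset
open scoped ComplexOrder

set_option linter.unusedSectionVars false

namespace Pool.Agent.X166.EP

lemma B_one_left (k : ℕ) (g : ℝ[X]) : B k 1 g = C (k.factorial * g.coeff k) := by
  unfold B
  rw [Finset.sum_eq_single_of_mem 0 (by simp)]
  · simp only [Nat.sub_zero, Function.iterate_zero, id_eq, mul_one]
    rw [← coeff_zero_eq_eval_zero, coeff_iterate_derivative]
    simp [Nat.descFactorial_self]
  · intro l _ hl
    rw [iter_zero (f := (1 : ℝ[X])) (by rw [natDegree_one]; omega), mul_zero]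

lemma coeff_pr_top {ι : Type*} (b : ι → ℝ) (s : Finset ι) : (pr b s).coeff s.card = 1 := by
  classical
  have := pr_monic b s
  unfold Monic leadingCoeff at this
  rwa [natDegree_pr] at this

theorem conv_simple (k : ℕ) (b a c : Fin k → ℝ) (hb : Function.Injective b)
    (h : nc k (pr b univ) (pr a univ) = pr c univ) : Function.Injective c := by
  match k, b, a, c, hb, h with
  | 0, b, a, c, hb, h => exact Function.injective_of_subsingleton _
  | 1, b, a, c, hb, h => exact Function.injective_of_subsingleton _
  | k + 2, b, a, c, hb, h =>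
    intro e f hef
    by_contra hne
    have hrc : B (k + 2) (pr b univ) (pr a univ) = C ((k + 2).factorial : ℝ) * pr c univ := by
      rw [B_eq_nc, h]
    have hr0 : (B (k + 2) (pr b univ) (pr a univ)).eval (c e) = 0 := by
      rw [hrc, eval_mul, eval_pr_self, mul_zero]
    have hr1 : (derivative (B (k + 2) (pr b univ) (pr a univ))).eval (c e) = 0 := by
      rw [hrc, derivative_C_mul, eval_mul, eval_C, eval_derivative_pr, hef,
        eval_pr_erase_ne c hne, mul_zero]
    obtain ⟨K, hK, hKe⟩ := top2' k b a
    have h1 := bra_diag k b a hK hKe (c e) (by rw [aeval_real, hr0]; simp)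
    rw [aeval_real, hr1] at h1
    have h2 : Qf (fun _ : Unit => c e) (fun _ => 1) (bra k b a + K) = 0 := by
      show ∑ _e : Unit, ∑ _f : Unit, _ = _
      simp only [Finset.univ_unique, Finset.sum_singleton, Complex.ofReal_one, one_mul]
      rw [h1]; simp
    rw [map_add, Qf_bra] at h2
    have h3 := Qf_nonneg (fun _ : Unit => c e) (fun _ => 1) hK
    have h4 : om (fun _ : Unit => c e) (fun _ => 1)
        (derivative (B (k + 2) (pr b univ) (pr a univ))) = 0 := by
      show ∑ _e : Unit, _ = _
      simp [hr1]
    rw [h4] at h2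
    rw [eq_neg_of_add_eq_zero_right h2, neg_nonneg] at h3
    have h5 : ∀ F, om (fun _ : Unit => c e) (fun _ => 1) F = F.eval (c e) := by
      intro F
      show ∑ _e : Unit, _ = _
      simp
    simp only [h5] at h3
    have h6 : (∑ i, (B (k + 1) (derivative (pr b univ))
        (pr a (univ.erase i))).eval (c e) ^ 2) +
      (∑ l, (B (k + 1) (pr b (univ.erase l)) (derivative (pr a univ))).eval (c e) ^ 2) -
      (1 / ((k : ℝ) + 2)) * 0 ^ 2 +
      (∑ i, ∑ l, ∑ m, ∑ j ∈ univ.erase i, ∑ j' ∈ univ.erase i,
        ((1 / 4) * (b l - b m) ^ 2 * (a j - a j') ^ 2) *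
        (B (k - 1) (pr a (((univ.erase i).erase j).erase j'))
          (derivative (pr b ((univ.erase l).erase m)))).eval (c e) ^ 2) ≤ 0 := by
      exact_mod_cast h3
    have h7 : 0 ≤ ∑ i, (B (k + 1) (derivative (pr b univ))
        (pr a (univ.erase i))).eval (c e) ^ 2 := Finset.sum_nonneg fun _ _ => sq_nonneg _
    have h8 : 0 ≤ ∑ i, ∑ l, ∑ m, ∑ j ∈ univ.erase i, ∑ j' ∈ univ.erase i,
        ((1 / 4) * (b l - b m) ^ 2 * (a j - a j') ^ 2) *
        (B (k - 1) (pr a (((univ.erase i).erase j).erase j'))
          (derivative (pr b ((univ.erase l).erase m)))).eval (c e) ^ 2 :=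
      Finset.sum_nonneg fun _ _ => Finset.sum_nonneg fun _ _ => Finset.sum_nonneg fun _ _ =>
        Finset.sum_nonneg fun _ _ => Finset.sum_nonneg fun _ _ => by positivity
    have h9 : ∑ l, (B (k + 1) (pr b (univ.erase l)) (derivative (pr a univ))).eval (c e) ^ 2 = 0 := by
      refine le_antisymm ?_ (Finset.sum_nonneg fun _ _ => sq_nonneg _)
      linarith
    have h10 : ∀ l, (B (k + 1) (pr b (univ.erase l)) (derivative (pr a univ))).eval (c e) = 0 := by
      intro l
      have := (Finset.sum_eq_zero_iff_of_nonneg fun _ _ => sq_nonneg _).1 h9 l (Finset.mem_univ l)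
      exact pow_eq_zero_iff (two_ne_zero) |>.1 this
    have h11 : (B (k + 1) 1 (derivative (pr a univ))).eval (c e) = 0 := by
      have := lag (univ : Finset (Fin (k + 2))) b hb.injOn 1 (by
        rw [degree_one, card_univ, Fintype.card_fin]
        exact_mod_cast (by omega : 0 < k + 2))
      rw [this, B_sum_left, eval_finsetSum]
      refine Finset.sum_eq_zero fun l _ => ?_
      rw [B_C_left, eval_mul, h10, mul_zero]
    rw [B_one_left, eval_C, coeff_derivative] at h11
    have h12 : (pr a (univ : Finset (Fin (k + 2)))).coeff (k + 1 + 1) = 1 := by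
      have := coeff_pr_top a (univ : Finset (Fin (k + 2)))
      rwa [card_univ, Fintype.card_fin] at this
    rw [h12] at h11
    have : (0 : ℝ) < ((k + 1).factorial : ℝ) * (1 * ((k + 1 : ℕ) + 1)) := by positivity
    linarith

/-- Fisher information -/
noncomputable def Phi {ι : Type*} [Fintype ι] (b : ι → ℝ) : ℝ := ∑ i, sc b i ^ 2

theorem stam_full (k : ℕ) (b a c : Fin (k + 2) → ℝ) (hb : Function.Injective b)
    (ha : Function.Injective a) (hc : Function.Injective c)
    (h : nc (k + 2) (pr b univ) (pr a univ) = pr c univ) (θ : ℝ) (W : Fin (k + 2) → ℝ)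
    (hW : W = fun e => sc c e / (derivative (B (k + 2) (pr b univ) (pr a univ))).eval (c e)) :
    (∑ i, (om c W (B (k + 1) (derivative (pr b univ)) (pr a (univ.erase i))) -
        (1 - θ) * sc a i) ^ 2) +
      (∑ l, (om c W (B (k + 1) (pr b (univ.erase l)) (derivative (pr a univ))) -
        θ * sc b l) ^ 2) +
      (∑ i, ∑ l, ∑ m, ∑ j ∈ univ.erase i, ∑ j' ∈ univ.erase i,
        ((1 / 4) * (b l - b m) ^ 2 * (a j - a j') ^ 2) *
        om c W (B (k - 1) (pr a (((univ.erase i).erase j).erase j'))
          (derivative (pr b ((univ.erase l).erase m)))) ^ 2) ≤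
      θ ^ 2 * Phi b + (1 - θ) ^ 2 * Phi a - Phi c := by
  have h0 := stam_ineq k b a c hc h (sc c) W hW
  rw [sc_sum] at h0
  set r := B (k + 2) (pr b univ) (pr a univ) with hr
  have hrc : r = C ((k + 2).factorial : ℝ) * pr c univ := by rw [hr, B_eq_nc, h]
  have hr1 : ∀ e, (derivative r).eval (c e) ≠ 0 := by
    intro e
    rw [hrc, derivative_C_mul, eval_mul, eval_C, eval_derivative_pr]
    exact mul_ne_zero (by positivity) (eval_pr_erase_ne_zero c hc e)
  have hr2 : ∀ e, (derivative (derivative r)).eval (c e) = 2 * sc c e * (derivative r).eval (c e) := by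
    intro e
    rw [hrc, derivative_C_mul, derivative_C_mul, eval_mul, eval_mul, eval_C, eval_second c hc]
    ring
  have hom2 : om c W (derivative (derivative r)) = 2 * Phi c := by
    show ∑ e, W e * (derivative (derivative r)).eval (c e) = 2 * ∑ e, sc c e ^ 2
    rw [Finset.mul_sum]
    refine Finset.sum_congr rfl fun e _ => ?_
    rw [hr2, hW]
    have := hr1 e
    field_simp
  have hd1 : derivative r = B (k + 1) (derivative (pr b univ)) (derivative (pr a univ)) :=
    derivative_B_eq (k + 1) b univ (by simp) _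
  have hd2 : derivative (derivative r) =
      B (k + 1) (derivative (derivative (pr b univ))) (derivative (pr a univ)) := by
    rw [hd1, B_deriv]
  have hdb : (derivative (pr b univ)).natDegree ≤ k + 1 := by
    have := natDegree_derivative_le (pr b (univ : Finset (Fin (k + 2))))
    rw [natDegree_pr, card_univ, Fintype.card_fin] at this
    omega
  have hda : (derivative (pr a univ)).natDegree ≤ k + 1 := by
    have := natDegree_derivative_le (pr a (univ : Finset (Fin (k + 2))))
    rw [natDegree_pr, card_univ, Fintype.card_fin] at this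
    omega
  have hda2 : (derivative (derivative (pr a univ))).natDegree ≤ k + 1 := by
    have := natDegree_derivative_le (derivative (pr a (univ : Finset (Fin (k + 2)))))
    omega
  have hd3 : derivative (derivative r) =
      B (k + 1) (derivative (pr b univ)) (derivative (derivative (pr a univ))) := by
    rw [hd1, B_comm _ _ _ hdb hda, B_deriv, B_comm _ _ _ hda2 hdb]
  have hL : ∑ l, sc b l * om c W (B (k + 1) (pr b (univ.erase l)) (derivative (pr a univ))) =
      Phi c := by
    have e1 : ∑ l, sc b l * om c W (B (k + 1) (pr b (univ.erase l)) (derivative (pr a univ))) =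
        om c W (B (k + 1) (∑ l, C (sc b l) * pr b (univ.erase l)) (derivative (pr a univ))) := by
      rw [B_sum_left, map_sum]
      refine Finset.sum_congr rfl fun l _ => ?_
      rw [B_C_left, ← smul_eq_C_mul, map_smul, smul_eq_mul]
    rw [e1, score_sum b hb, B_C_left, ← hd2, ← smul_eq_C_mul, map_smul, smul_eq_mul, hom2]
    ring
  have hP : ∑ i, sc a i * om c W (B (k + 1) (derivative (pr b univ)) (pr a (univ.erase i))) =
      Phi c := by
    have e1 : ∑ i, sc a i * om c W (B (k + 1) (derivative (pr b univ)) (pr a (univ.erase i))) =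
        om c W (B (k + 1) (derivative (pr b univ)) (∑ i, C (sc a i) * pr a (univ.erase i))) := by
      rw [B_sum_right, map_sum]
      refine Finset.sum_congr rfl fun l _ => ?_
      rw [B_C_right, ← smul_eq_C_mul, map_smul, smul_eq_mul]
    rw [e1, score_sum a ha, B_C_right, ← hd3, ← smul_eq_C_mul, map_smul, smul_eq_mul, hom2]
    ring
  have eP : ∑ i, (om c W (B (k + 1) (derivative (pr b univ)) (pr a (univ.erase i))) -
        (1 - θ) * sc a i) ^ 2 =
      (∑ i, om c W (B (k + 1) (derivative (pr b univ)) (pr a (univ.erase i))) ^ 2) -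
      2 * (1 - θ) * Phi c + (1 - θ) ^ 2 * Phi a := by
    rw [← hP]
    unfold Phi
    rw [Finset.mul_sum, Finset.mul_sum, ← Finset.sum_sub_distrib, ← Finset.sum_add_distrib]
    refine Finset.sum_congr rfl fun i _ => ?_
    ring
  have eL : ∑ l, (om c W (B (k + 1) (pr b (univ.erase l)) (derivative (pr a univ))) -
        θ * sc b l) ^ 2 =
      (∑ l, om c W (B (k + 1) (pr b (univ.erase l)) (derivative (pr a univ))) ^ 2) -
      2 * θ * Phi c + θ ^ 2 * Phi b := by
    rw [← hL]
    unfold Phi
    rw [Finset.mul_sum, Finset.mul_sum, ← Finset.sum_sub_distrib, ← Finset.sum_add_distrib]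
    refine Finset.sum_congr rfl fun i _ => ?_
    ring
  rw [eP, eL]
  have : ∑ e, sc c e ^ 2 = Phi c := rfl
  rw [this] at h0
  nlinarith [h0]

end Pool.Agent.X166.EP
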